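import Pool.Agent.AUK.FJA.Core5
import Pool.Agent.AUK.FJA.Core7
import Pool.Agent.AUK.FJA.P_SCH

/-!
# The parts with coefficients `K_{-1}` and `K_1` together: definitions

`Z' = Multiplicative ℤ`, `Γ = G × Z'`, `C = Cyc N`, `φ : C →* G`.  `E1 m φ u w` (St6.lean) is the chain of the
product `w × [u] × [t]`, `chn1 m G D` the chain of a formal combination `D` of symbols (Core5.lean).
-/

set_option autoImplicit false

open Matrix Pool.Agent.WhK Pool.Agent.Lib25 CategoryTheory Pool.Agent.FJA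

noncomputable section

namespace Pool.Agent.FJB

/-! ## The correction cochains -/

section Gen

variable {Γ C : Type} [Group Γ] [Group C] [Fintype C]

/-- The average of a formal combination over the left translations by the elements of `f C`. -/
def avL (f : C →* Γ) (c : Γ →₀ ℚ) : Γ →₀ ℚ :=
  (Fintype.card C : ℚ)⁻¹ • ∑ t : C, c.mapDomain (f t * ·)

/-- The prism function of the maps `avL f` and `id`: `F - F ∘ avL f` is the coboundary of `gh f F`. -/
def gh (f : C →* Γ) {M : ℕ} (F : (Fin (M + 1) → Γ) → Γ → ℚ) (y : Γ) (c : Fin M → (Γ →₀ ℚ)) : ℚ :=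
  ∑ j : Fin M, (-1 : ℚ) ^ (j : ℕ) * mex (fun a => F a y) (mix (avL f) id c j)

/-- The prism function of `gh f F` for the two projections. -/
def hh (f : C →* Γ) {M : ℕ} (F : (Fin (M + 2) → Γ) → Γ → ℚ) (y : Γ)
    (v : Fin M → (Γ →₀ ℚ) × (Γ →₀ ℚ)) : ℚ :=
  ∑ j : Fin M, (-1 : ℚ) ^ (j : ℕ) * gh f F y (mix Prod.snd Prod.fst v j)

/-- The first position of a list, as a section. -/
def hdS : List Γ → Γ → (Γ →₀ ℚ)
  | [], _ => 0
  | a :: _, _ => Finsupp.single a 1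

/-- The function on recorded paths which evaluates `gh f F` on the section `s`. -/
def ghR (f : C →* Γ) {M : ℕ} (F : (Fin (M + 1) → Γ) → Γ → ℚ) (s : List Γ → Γ → (Γ →₀ ℚ))
    (μ : Rec Γ (Fin M)) : ℚ := by
  classical
  exact if ∀ i, μ.lst i ≠ [] then gh f F μ.val (fun l => s (μ.lst l) μ.val) else 0

/-- The function on recorded paths which evaluates `hh f F` on the pairs (section, first position). -/
def hhR (f : C →* Γ) {M : ℕ} (F : (Fin (M + 2) → Γ) → Γ → ℚ) (s : List Γ → Γ → (Γ →₀ ℚ))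
    (μ : Rec Γ (Fin M)) : ℚ := by
  classical
  exact if ∀ i, μ.lst i ≠ [] then hh f F μ.val (SCH.vv s μ) else 0

end Gen

/-! ## The slant product with the chain `w × [u] × [t]` -/

section Slant

variable {G : Type} [Group G] {N : ℕ}

/-- The homomorphism `x ↦ (φ x, 1)`. -/
def ffC (φ : Cyc N →* G) : Cyc N →* G × Multiplicative ℤ := (MonoidHom.inl G (Multiplicative ℤ)).comp φ

/-- The image over `k` of a unit of `ℤ[C]`. -/
def uK (k : Type) [Field k] {C : Type} [Group C] : (MonoidAlgebra ℤ C)ˣ →* (MonoidAlgebra k C)ˣ :=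
  Units.map (MonoidAlgebra.mapRingHom C (Int.castRingHom k)).toMonoidHom

/-- The group `Z_G(h) × Z'`. -/
abbrev PZ (h : G) : Type := Cen h × Multiplicative ℤ

/-- The inclusion of `Z_G(h) × Z'` in `G × Z'`. -/
def emb (h : G) : PZ h →* G × Multiplicative ℤ :=
  MonoidHom.prodMap (Cen h).subtype (MonoidHom.id (Multiplicative ℤ))

/-- The recorded path over `Γ` attached to a simplex `X` of vertices of `Z_G(φ gen) × Z'` with labels, and a
recorded path `ν` of `C`: the list with the label `l` is the list of `ν` with the label `(X l).2`, multiplied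
by the vertex `(X l).1`. -/
def twX (φ : Cyc N →* G) {M r : ℕ} (X : Fin M → PZ (φ (gen N)) × Fin r) (ν : Rec (Cyc N) (Fin r)) :
    Rec (G × Multiplicative ℤ) (Fin M) :=
  twR (ffC φ) (fun l => emb (φ (gen N)) (X l).1) (Rec.res (fun l => (X l).2) ν)

/-- The slant product of a function on recorded paths over `Γ` with a chain of labelled vertices. -/
def SL (φ : Cyc N →* G) {M r : ℕ} (η : Rec (G × Multiplicative ℤ) (Fin M) → ℚ)
    (κ : (Fin M → PZ (φ (gen N)) × Fin r) →₀ ℚ) (ν : Rec (Cyc N) (Fin r)) : ℚ :=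
  κ.sum fun X q => q * η (twX φ X ν)

/-- Multiplication of the vertex by `t`. -/
def mt {h : G} {r : ℕ} (x : PZ h × Fin r) : PZ h × Fin r := (x.1 * (1, Multiplicative.ofAdd 1), x.2)

/-- The chain `w × [0, 1] × [t]`. -/
def k2 {h : G} (m : ℕ) (w : (Fin (m + 1) → Cen h) →₀ ℚ) : (Fin (m + 3) → PZ h × Fin 2) →₀ ℚ :=
  prism ℚ id mt (m + 2) (prism ℚ (fun z : Cen h => (((z, 1), 0) : PZ h × Fin 2))
    (fun z : Cen h => (((z, 1), 1) : PZ h × Fin 2)) (m + 1) w)

/-- The chain `w × {e} × [t]`. -/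
def k1 {h : G} (m : ℕ) (e : Fin 2) (w : (Fin (m + 1) → Cen h) →₀ ℚ) :
    (Fin (m + 2) → PZ h × Fin 2) →₀ ℚ :=
  prism ℚ id mt (m + 1) (hmap ℚ (fun z : Cen h => (((z, 1), e) : PZ h × Fin 2)) (m + 1) w)

end Slant

/-! ## The corrected theorem -/

section Cor

variable {m : ℕ} {G : Type} [Group G]

/-- The correction term of a symbol. -/
def T1 (k : Type) [Field k] [CharZero k] (s : Sy1 m G) (F : (Fin (m + 3) → G) → G → ℚ) : k :=
  TS k (ghR (ffC s.φ) (cup F) hdS) 1 s.chn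

/-- The correction term of a formal combination of symbols. -/
def T1S (k : Type) [Field k] [CharZero k] (F : (Fin (m + 3) → G) → G → ℚ) (D : Sy1 m G →₀ ℚ) : k :=
  ∑ s ∈ D.support, ((D s : ℚ) : k) * T1 k s F

end Cor

/-- The `ℓ`-adic theorem for the families `cup F`, `F` of degree `m + 2`, and chains `B` whose boundary is the
chain of a formal combination `D` of symbols `[h, c, u]`, up to null functionals. -/
def PdgE (G : Type) [Group G] (m : ℕ) : Prop := ∀ (n0 : ℕ), 0 < n0 → ∀ (ℓ : ℕ) [Fact ℓ.Prime]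
    (F : (Fin (m + 3) → G) → G → ℚ), GCoch (m + 2) (fun y => y ^ n0 = 1) F → (∀ a, F a 1 = 0) →
    ∀ B : KCh ℚ_[ℓ] (G × Multiplicative ℤ) (m + 4), (∀ x ∈ B.support, ∀ i, NIU (x.2 i)) →
    ∀ D : Sy1 m G →₀ ℚ,
    (∀ η : Rec (G × Multiplicative ℤ) (Fin (m + 3)) → ℚ, NullFun (sg2 G) η → ∀ N : ℕ, 0 < N →
      TK ℚ_[ℓ] η N (bdK _ _ (m + 3) B) = TS ℚ_[ℓ] η N (chn1 m G D)) →
    ∀ e : ℕ, TK ℚ_[ℓ] (fst (cup F)) 1 B - T1S ℚ_[ℓ] F D =
      TK ℚ_[ℓ] (fst (powF (ℓ ^ e) (cup F))) 1 B - T1S ℚ_[ℓ] (powF (ℓ ^ e) F) D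

/-! ## Reduction of denominators, with a bound for the denominators of the cochain itself -/

/-- `DNP` (Core7.lean) with a bound for the denominators of `L`. -/
def DNPd (m : ℕ) : Prop := ∀ (Γ : Type) [Group Γ] (Pt : List Γ → Γ → Finset Γ)
    (dl : List Γ → Γ → Γ), Pnt Pt dl → ∀ (S : Γ → Prop) (F : (Fin (m + 1) → Γ) → Γ → ℚ),
    (∀ y, S y → IsOfFinOrder y) → GCoch m S F →
    ∃ D : ℕ, 0 < D ∧ ∀ mm : ℕ, 0 < mm → ∃ L : (Fin m → List Γ) → Γ → ℚ, StrL Pt mm D F L ∧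
      ∀ (q : ℕ) (Y : Fin m → List Γ) (y : Γ), 0 < q →
        ((∀ i, Y i ≠ []) → IsOfFinOrder y → ∀ i, (Pt (Y i) y).card ∣ q) →
        ∃ z : ℤ, ((D * mm * q ^ m : ℕ) : ℚ) * L Y y = z

/-- `CULP` (Core7.lean) with a bound for the denominators of `L`. -/
def CULPd (m : ℕ) : Prop := ∀ (G : Type) [Group G]
    (Pt : List (G × Multiplicative ℤ) → G × Multiplicative ℤ → Finset (G × Multiplicative ℤ))
    (dl : List (G × Multiplicative ℤ) → G × Multiplicative ℤ → G × Multiplicative ℤ), Pnt Pt dl →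
    ∀ (S : G → Prop) (F : (Fin (m + 1) → G) → G → ℚ), (∀ y, S y → IsOfFinOrder y) → GCoch m S F →
    ∃ D : ℕ, 0 < D ∧ ∀ mm : ℕ, 0 < mm →
      ∃ L : Rec (G × Multiplicative ℤ) (Fin (m + 1)) → ℚ, NullFun (sg2 G) L ∧
        (∀ μ ∈ Bal (G × Multiplicative ℤ) (Fin (m + 1)),
          ∀ ν ∈ Bal (G × Multiplicative ℤ) (Fin (m + 1)), L (μ * ν) = L (ν * μ)) ∧
        (∀ μ, L μ ≠ 0 → ∃ a, cup F a μ.val ≠ 0) ∧
        (∀ μ : Rec (G × Multiplicative ℤ) (Fin (m + 2)), (∀ i, μ.lst i ≠ []) →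
          (∀ i, Good mm (μ.lst i) μ.val) →
          ∃ z : ℤ, ((D * mm : ℕ) : ℚ) * (evs (cup F) (avS Pt) μ - cobR L μ) = z) ∧
        ∀ (q : ℕ) (μ : Rec (G × Multiplicative ℤ) (Fin (m + 1))), 0 < q →
          ((∀ i, μ.lst i ≠ []) → IsOfFinOrder μ.val → ∀ i, (Pt (μ.lst i) μ.val).card ∣ q) →
          ∃ z : ℤ, ((D * mm * q ^ m : ℕ) : ℚ) * L μ = z

end Pool.Agent.FJB
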