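import Pool.Agent.AUK.FJA.SDefsE

/-!
# Whitehead groups and the complete source of the assembly map for `t ≤ 1`
-/

set_option autoImplicit false

open Matrix Pool.Agent.WhK Pool.Agent.Lib25 Pool.Agent.FJA

noncomputable section

namespace Pool.Agent.FJB

/-! ## Whitehead groups -/

/-- A linear functional on the colimit of the vector spaces `Wh(C) ⊗ ℚ = ℤ[C]ˣ ⊗ ℚ` over the finite
cyclic subgroups `C` of `G` (with the inclusions and the conjugations by the elements of `G`): a
function `f` on the units of the rings `ℤ[C]`, additive on `ℤ[C]ˣ` for every `C`, and invariant under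
conjugation by the elements of `G`.  The values of `f` on the other units of `ℤ[G]` play no role.
(`Adm1 h u`: `h` has finite order and `u` is a unit of `ℤ[⟨h⟩]`.) -/
def IsColim {G : Type} [Group G] (f : (MonoidAlgebra ℤ G)ˣ → ℚ) : Prop :=
  (∀ (h : G) (u v : (MonoidAlgebra ℤ G)ˣ), Adm1 h u → Adm1 h v → f (u * v) = f u + f v) ∧
  ∀ (h x : G) (u : (MonoidAlgebra ℤ G)ˣ), Adm1 h u → f (gU G x * u * (gU G x)⁻¹) = f u

/-- A homomorphism `K_1(R) → ℚ`: homomorphisms `F r : GL_r(R) → ℚ` for all `r`, which are additive on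
block sums. -/
def IsK1 {R : Type} [Ring R] (F : ∀ r : ℕ, GLn R r → ℚ) : Prop :=
  (∀ (r : ℕ) (X Y : GLn R r), F r (X * Y) = F r X + F r Y) ∧
  ∀ (a b : ℕ) (X : GLn R a) (Y : GLn R b), F (a + b) (bsumHom R a b (X, Y)) = F a X + F b Y

/-- A unit of `R` as an element of `GL_1(R)`. -/
def unit1 {R : Type} [Ring R] : Rˣ →* GLn R 1 := gl1 (Units.coeHom R)

/-- The map `colim Wh(C) ⊗ ℚ → Wh(G) ⊗ ℚ` is injective: every linear functional `f` on the colimit
extends to a homomorphism `K_1(ℤ[G]) → ℚ` which vanishes on the elements of `G`. -/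
def WhInj (G : Type) [Group G] : Prop :=
  ∀ f : (MonoidAlgebra ℤ G)ˣ → ℚ, IsColim f → ∃ F : ∀ r : ℕ, GLn (MonoidAlgebra ℤ G) r → ℚ,
    IsK1 F ∧ (∀ g : G, F 1 (unit1 (gU G g)) = 0) ∧
      ∀ (h : G) (u : (MonoidAlgebra ℤ G)ˣ), Adm1 h u → F 1 (unit1 u) = f u

/-! ## The source -/

/-- The part with coefficients `K_1` of the source of the rationalised assembly map in degree `n`:
`Src1 (n - 1) G` for `n ≥ 1`, and zero for `n = 0`. -/
def SrcO : (n : ℕ) → (G : Type) → [Group G] → Type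
  | 0, _, _ => PUnit
  | m + 1, G, _ => Src1 m G

instance SrcO.acg : (n : ℕ) → (G : Type) → [Group G] → AddCommGroup (SrcO n G)
  | 0, _, _ => (inferInstance : AddCommGroup PUnit)
  | m + 1, G, _ => Src1.acg m G

instance SrcO.mod : (n : ℕ) → (G : Type) → [Group G] → Module ℚ (SrcO n G)
  | 0, _, _ => (inferInstance : Module ℚ PUnit)
  | m + 1, G, _ => Src1.mod m G

/-- The subspace spanned by the symbols with undetected classes. -/
def UndO : (n : ℕ) → (G : Type) → [Group G] → Submodule ℚ (SrcO n G)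
  | 0, _, _ => ⊥
  | m + 1, G, _ => Und1 m G

/-- `H_{n+1}(G × ℤ; ℚ)` modulo the image of `H_{n+1}(G; ℚ)`, that is, `H_n(G; ℚ)`. -/
abbrev SrcZ (n : ℕ) (G : Type) [Group G] : Type :=
  HQ (n + 1) (G × Multiplicative ℤ) ⧸ inG n G

/-- The sum of the parts with coefficients `K_0`, `K_{-1}` and `K_1` of the source of the
rationalised assembly map in degree `n`. -/
def SrcT (n : ℕ) (G : Type) [Group G] : Type := SrcZ n G × SrcN n G × SrcO n G

instance SrcT.acg (n : ℕ) (G : Type) [Group G] : AddCommGroup (SrcT n G) :=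
  (inferInstance : AddCommGroup (SrcZ n G × SrcN n G × SrcO n G))

instance SrcT.mod (n : ℕ) (G : Type) [Group G] : Module ℚ (SrcT n G) :=
  (inferInstance : Module ℚ (SrcZ n G × SrcN n G × SrcO n G))

/-- The element with the components `a`, `x`, `y`. -/
def SrcT.mk {n : ℕ} {G : Type} [Group G] (a : HQ (n + 1) (G × Multiplicative ℤ)) (x : SrcN n G)
    (y : SrcO n G) : SrcT n G := (Submodule.Quotient.mk a, x, y)

/-- The component in the part with coefficients `K_0`. -/
def SrcT.z {n : ℕ} {G : Type} [Group G] (w : SrcT n G) : SrcZ n G := w.1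

/-- The component in the part with coefficients `K_{-1}`. -/
def SrcT.x {n : ℕ} {G : Type} [Group G] (w : SrcT n G) : SrcN n G := w.2.1

/-- The component in the part with coefficients `K_1`. -/
def SrcT.y {n : ℕ} {G : Type} [Group G] (w : SrcT n G) : SrcO n G := w.2.2

/-- The map on the part with coefficients `K_1`, in all degrees (no condition for `n = 0`, where the
part is zero). -/
def IsAsmO {G : Type} [Group G] : (n : ℕ) → (SrcO n G →ₗ[ℚ] Kb n (MonoidAlgebra ℤ G)) → Prop
  | 0, _ => True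
  | _ + 1, B => IsAsm1 B

/-- The rationalised assembly map in degree `n` on the sum of the three parts. -/
def IsTot (ε : ∀ N : ℕ, ℕ → IdemMat (LaurentPolynomial (MonoidAlgebra ℤ (Cyc N)))) {n : ℕ}
    {G : Type} [Group G] (T : SrcT n G →ₗ[ℚ] Kb n (MonoidAlgebra ℤ G)) : Prop :=
  ∃ (A : SrcN n G →ₗ[ℚ] Kb n (MonoidAlgebra ℤ G)) (B : SrcO n G →ₗ[ℚ] Kb n (MonoidAlgebra ℤ G)),
    IsAsm ε A ∧ IsAsmO n B ∧ ∀ (a : HQ (n + 1) (G × Multiplicative ℤ)) (x : SrcN n G) (y : SrcO n G),
      T (SrcT.mk a x y) = tauN n G a + A x + B y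

/-- For every prime `p` the `p`-parts of the orders of the torsion elements of `G` are bounded. -/
def PBd (G : Type) [Group G] : Prop :=
  ∀ p : ℕ, p.Prime → ∃ c : ℕ, ∀ h : G, IsOfFinOrder h → ¬ p ^ c ∣ orderOf h

/-- `H_{n+1}(Z_G(h); ℤ)` and `H_{n-1}(Z_G(h); ℤ)` are finitely generated for all `h ≠ 1` of finite
order.  (For `n = 0` the second group is `H_0(Z_G(h); ℤ) = ℤ`.) -/
def FgCen (n : ℕ) (G : Type) [Group G] : Prop :=
  ∀ h : G, IsOfFinOrder h → h ≠ 1 →
    Module.Finite ℤ (HZ (n + 1) (Cen h)) ∧ Module.Finite ℤ (HZ (n - 1) (Cen h))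

end Pool.Agent.FJB
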