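import Pool.Agent.AUK.FJA.P_AVS
import Pool.Agent.AUK.FJA.P_CUL
import Pool.Agent.AUK.FJB.St

/-!
# CUE: the reduction of the denominators for `cup F`, with a bound for the denominators
-/

set_option autoImplicit false

open Pool.Agent.WhK Pool.Agent.Lib25 Pool.Agent.FJA

noncomputable section

namespace Pool.Agent.FJB

open Pool.Agent.FJA.CUL in
/-- CUE, from the statement AVS of FJA. -/
theorem CUE.of (havs : S_AVS) : S_CUE := by
  intro m hm hD G _ Pt dl hP S F hS hF
  obtain ⟨n, rfl⟩ : ∃ n, m = n + 1 := ⟨m - 1, by omega⟩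
  obtain ⟨D, hD0, hDL⟩ := hD (G × Multiplicative ℤ) Pt dl hP
    (fun y : G × Multiplicative ℤ => S y.1 ∧ y.2 = 1) (Fh F)
    (fun y hy => fin_pair y (hS _ hy.1) hy.2) (coch hF)
  refine ⟨D, hD0, fun mm hmm => ?_⟩
  obtain ⟨L', hL', hLden⟩ := hDL mm hmm
  refine ⟨fun μ => LL Pt L' μ.lst μ.val, ⟨?_, ?_, ?_⟩, ?_, ?_, ?_, ?_⟩
  · -- conjugation
    intro γ μ
    have h1 := LL_inv hP havs hL' γ μ.lst (μ.val * γ)
    have h2 : γ * (μ.val * γ) * γ⁻¹ = γ * μ.val := by group
    rw [h2] at h1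
    have h3 : (Rec.inc γ * μ).lst = fun i => (μ.lst i).map (γ * ·) := by
      funext i
      simp
    have h4 : (μ * Rec.inc γ).lst = μ.lst := by
      funext i
      simp
    change LL Pt L' (Rec.inc γ * μ).lst (γ * μ.val) = LL Pt L' (μ * Rec.inc γ).lst (μ.val * γ)
    rw [h3, h4]
    exact h1
  · -- finite order
    intro μ h
    by_contra hf
    exact h (LL_neg L' _ _ fun h' => hf h'.2)
  · -- flat
    intro μ hfl
    by_cases h : (∀ i, μ.lst i ≠ []) ∧ IsOfFinOrder μ.val
    · rw [LL_pos L' _ _ h]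
      obtain ⟨a, ha, h1⟩ := tTau_mem hP havs (h.1 (Fin.last (n + 1))) h.2
      obtain ⟨b, hb, h2⟩ := tTau_mem hP havs (h.1 (Fin.last n).castSucc) h.2
      have h3 : a.2 = b.2 := hfl _ _ a b ha hb
      rw [h1, h2, h3, sub_self, Int.cast_zero, mul_zero]
    · exact LL_neg L' _ _ h
  · -- trace
    intro μ hμ ν _
    exact trace_bal (LL Pt L') (fun γ Y y => LL_inv hP havs hL' γ Y y)
      (fun Y y => LL_rot hP hL' Y y) μ ν hμ
  · -- support
    intro μ h
    have h0 : (∀ i, μ.lst i ≠ []) ∧ IsOfFinOrder μ.val := by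
      by_contra hf
      exact h (LL_neg L' _ _ hf)
    change LL Pt L' μ.lst μ.val ≠ 0 at h
    rw [LL_pos L' _ _ h0] at h
    obtain ⟨a, ha⟩ := (hL'.supp _ _ (left_ne_zero_of_mul h)).2
    refine ⟨Fin.snoc a (1, Multiplicative.ofAdd (Multiplicative.toAdd (a (Fin.last (n + 1))).2 + 1)),
      ?_⟩
    unfold Fh at ha
    unfold cup
    rw [if_pos (snd_one h0.2)] at ha ⊢
    simp only [Fin.snoc_castSucc, Fin.snoc_last, toAdd_ofAdd, add_sub_cancel_left, Int.cast_one,
      mul_one]
    exact ha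
  · -- integrality
    intro μ hne hgood
    by_cases hy : IsOfFinOrder μ.val
    · obtain ⟨z, hz⟩ := hL'.int (fun i => μ.lst i.castSucc) μ.val (fun i => hne _) hy
        (fun i => hgood _)
      refine ⟨z * (tTau Pt (μ.lst (Fin.last (n + 2))) μ.val -
        tTau Pt (μ.lst (Fin.last (n + 1)).castSucc) μ.val), ?_⟩
      rw [evs_cup hP havs F μ hne hy]
      have h1 : cobR (fun μ => LL Pt L' μ.lst μ.val) μ =
          ∑ i : Fin (n + 3), (-1 : ℚ) ^ (i : ℕ) *
            LL Pt L' (fun j => μ.lst (i.succAbove j)) μ.val := rfl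
      rw [h1, cob L' μ.lst μ.val hne hy, ← sub_mul, ← mul_assoc, hz]
      push_cast
      rfl
    · refine ⟨0, ?_⟩
      have h1 : cobR (fun μ => LL Pt L' μ.lst μ.val) μ = 0 := by
        unfold cobR
        refine Finset.sum_eq_zero fun i _ => ?_
        have h2 : LL Pt L' (Rec.res i.succAbove μ).lst (Rec.res i.succAbove μ).val = 0 :=
          LL_neg L' _ _ fun h => hy h.2
        change (-1 : ℚ) ^ (i : ℕ) * LL Pt L' (Rec.res i.succAbove μ).lst (Rec.res i.succAbove μ).val = 0
        rw [h2, mul_zero]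
      have h3 : evs (cup F) (avS Pt) μ = 0 := by
        unfold evs
        rw [if_pos hne]
        refine MEX.vanish _ _ fun x _ => ?_
        unfold cup
        split_ifs with h4
        · have h5 : F (fun i => (x i.castSucc).1) μ.val.1 = 0 := by
            by_contra h6
            exact hy (fin_pair _ (hS _ (hF.supp _ _ h6)) h4)
          rw [h5, zero_mul]
        · rfl
      rw [h1, h3]
      simp
  · -- denominators
    intro q μ hq hqd
    by_cases h : (∀ i, μ.lst i ≠ []) ∧ IsOfFinOrder μ.val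
    · obtain ⟨z, hz⟩ := hLden q (fun i => μ.lst i.castSucc) μ.val hq
        (fun _ hy i => hqd h.1 hy i.castSucc)
      refine ⟨z * (tTau Pt (μ.lst (Fin.last (n + 1))) μ.val -
        tTau Pt (μ.lst (Fin.last n).castSucc) μ.val), ?_⟩
      change ((D * mm * q ^ (n + 1) : ℕ) : ℚ) * LL Pt L' μ.lst μ.val = _
      rw [LL_pos L' _ _ h, ← mul_assoc, hz]
      push_cast
      rfl
    · refine ⟨0, ?_⟩
      change ((D * mm * q ^ (n + 1) : ℕ) : ℚ) * LL Pt L' μ.lst μ.val = _
      rw [LL_neg L' _ _ h, mul_zero, Int.cast_zero]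

/-- CUE: the reduction of the denominators for `cup F`, with a bound for the denominators. -/
theorem t_CUE : S_CUE := CUE.of t_AVS

end Pool.Agent.FJB
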