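import Pool.Agent.AUK.FJA.P_AVS
import Pool.Agent.AUK.FJA.P_CY3
import Pool.Agent.AUK.FJA.P_DNC
import Pool.Agent.AUK.FJA.P_KAP
import Pool.Agent.AUK.FJB.St

/-!
# DNF: reduction of denominators in degree three, with a bound for the denominators of the cochain
-/

set_option autoImplicit false

open Pool.Agent.FJA

noncomputable section

namespace Pool.Agent.FJB

namespace DNF

open Pool.Agent.FJA.DNC

variable {Γ : Type}

/-- The conditions on a vertex which are used for the denominators. -/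
structure OkI (D mm : ℕ) (V : Vx Γ) : Prop where
  ne : V.1.Nonempty
  dvd : V.1.card ∣ mm
  int : ∀ b, ∃ z : ℤ, (D : ℚ) * V.2 b = z

theorem c11_int {D mm : ℕ} {V0 V1 : Vx Γ} (h0 : OkI D mm V0) (h1 : OkI D mm V1) (b0 b1 : Γ) :
    ∃ z : ℤ, (D : ℚ) * c11 mm V0 V1 b0 b1 = z := by
  unfold c11
  refine avg_int h0.ne h0.dvd _ fun a => ?_
  obtain ⟨z1, hz1⟩ := h1.int ![a, b0, b1]
  obtain ⟨z0, hz0⟩ := h0.int ![a, b0, b1]
  exact ⟨z1 - z0, by rw [mul_sub, hz1, hz0]; push_cast; rfl⟩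

theorem ll_int {D mm : ℕ} (hD : 0 < D) (hm : 0 < mm) (V : Fin 3 → Vx Γ)
    (h : ∀ i, OkI D mm (V i)) (b : Fin 3 → Γ) :
    ∃ z : ℤ, ((D * mm : ℕ) : ℚ) * ll D mm V b = z := by
  obtain ⟨z0, hz0⟩ := (h 0).int b
  obtain ⟨z1, hz1⟩ := c11_int (h 0) (h 1) (b 1) (b 2)
  have hD' : (D : ℚ) ≠ 0 := by exact_mod_cast hD.ne'
  have hm' : (mm : ℚ) ≠ 0 := by exact_mod_cast hm.ne'
  have hz2 : (D : ℚ) * c20 D mm (V 0) (V 1) (V 2) (b 2) =
      ((⌊(D : ℚ) * g20 mm (V 0) (V 1) (V 2) (b 2)⌋ : ℤ) : ℚ) := by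
    unfold c20
    field_simp
  refine ⟨mm * z0 + (z1 - ⌊(D : ℚ) * g20 mm (V 0) (V 1) (V 2) (b 2)⌋), ?_⟩
  have e : ((D * mm : ℕ) : ℚ) * ll D mm V b = mm * ((D : ℚ) * (V 0).2 b) +
      ((D : ℚ) * c11 mm (V 0) (V 1) (b 1) (b 2) -
        (D : ℚ) * c20 D mm (V 0) (V 1) (V 2) (b 2)) := by
    unfold ll
    push_cast
    field_simp
  rw [e, hz0, hz1, hz2]
  push_cast
  ring

theorem avS_int {Pt : List Γ → Γ → Finset Γ} {q : ℕ} {Y : List Γ} {y : Γ}
    (h : (Pt Y y).card ∣ q) (x : Γ) : ∃ z : ℤ, (q : ℚ) * avS Pt Y y x = z := by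
  classical
  obtain ⟨k, rfl⟩ := h
  by_cases hx : x ∈ Pt Y y
  · have h0 : ((Pt Y y).card : ℚ) ≠ 0 := by exact_mod_cast (Finset.card_pos.2 ⟨x, hx⟩).ne'
    refine ⟨k, ?_⟩
    have e : avS Pt Y y x = 1 / ((Pt Y y).card : ℚ) := by
      rw [avS, Finsupp.finsetSum_apply, Finset.sum_eq_single x]
      · rw [Finsupp.single_eq_same]
      · intro b _ hb
        rw [Finsupp.single_apply, if_neg hb]
      · intro hx'
        exact absurd hx hx'
    rw [e]
    push_cast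
    field_simp
  · refine ⟨0, ?_⟩
    have e : avS Pt Y y x = 0 := by
      rw [avS, Finsupp.finsetSum_apply]
      refine Finset.sum_eq_zero fun b hb => ?_
      rw [Finsupp.single_apply, if_neg]
      rintro rfl
      exact hx hb
    rw [e, mul_zero, Int.cast_zero]

end DNF

open Pool.Agent.FJA.DNC in
/-- DNF: `DNPd 3`, from the statements CY3 and AVS of FJA. -/
theorem DNF.of (hcy : S_CY3) (havs : S_AVS) : S_DNF := by
  classical
  intro Γ _ Pt dl hP S F hS hF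
  obtain ⟨hsec, -, -⟩ := havs Γ Pt dl hP
  obtain ⟨D1, c2, hD1, hc2⟩ := hcy Γ Pt dl hP S F hS hF
  obtain ⟨D0, hD0, hden⟩ := hF.den
  refine ⟨D1, hD1, fun mm hmm => ?_⟩
  let V : List Γ → Γ → Vx Γ := fun Y y => (Pt Y y, c2 Y y)
  let L : (Fin 3 → List Γ) → Γ → ℚ := fun Y y =>
    if (∀ i, Y i ≠ []) ∧ IsOfFinOrder y ∧ ∀ i, Good mm (Y i) y then
      mex (ll D1 mm fun i => V (Y i) y) fun i => avS Pt (Y i) y else 0
  have hL : ∀ Y y, (∀ i, Y i ≠ []) → IsOfFinOrder y → (∀ i, Good mm (Y i) y) →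
      L Y y = mex (ll D1 mm fun i => V (Y i) y) fun i => avS Pt (Y i) y :=
    fun Y y h1 h2 h3 => if_pos ⟨h1, h2, h3⟩
  have hL0 : ∀ Y y, ¬ ((∀ i, Y i ≠ []) ∧ IsOfFinOrder y ∧ ∀ i, Good mm (Y i) y) → L Y y = 0 :=
    fun Y y h => if_neg h
  refine ⟨L, ⟨?_, ?_, ?_, ?_⟩, ?_⟩
  · intro γ Y y
    have hiff : ((∀ i, (Y i).map (γ * ·) ≠ []) ∧ IsOfFinOrder (γ * y * γ⁻¹) ∧
        ∀ i, Good mm ((Y i).map (γ * ·)) (γ * y * γ⁻¹)) ↔
        ((∀ i, Y i ≠ []) ∧ IsOfFinOrder y ∧ ∀ i, Good mm (Y i) y) := by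
      rw [fin_conj]
      simp only [good_map, ne_eq, List.map_eq_nil_iff]
    by_cases hc : (∀ i, Y i ≠ []) ∧ IsOfFinOrder y ∧ ∀ i, Good mm (Y i) y
    · obtain ⟨h1, h2, h3⟩ := hc
      obtain ⟨h1', h2', h3'⟩ := hiff.2 ⟨h1, h2, h3⟩
      rw [hL _ _ h1' h2' h3', hL _ _ h1 h2 h3]
      have e1 : (fun i => avS Pt ((Y i).map (γ * ·)) (γ * y * γ⁻¹)) =
          fun i => (avS Pt (Y i) y).mapDomain (γ * ·) := by
        funext i
        exact hsec.inv γ (Y i) y h2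
      rw [e1, MEX.change _ _ _ (mul_right_injective γ)]
      congr 1
      funext b
      refine ll_move (γ * ·) _ _ ?_ ?_ b
      · intro i f
        exact avg_map hP γ (Y i) y (h1 i) h2 f
      · intro i b
        exact (hc2 (Y i) y (h1 i) h2).2.1 γ b
    · rw [hL0 _ _ hc, hL0 _ _ fun h => hc (hiff.1 h)]
  · intro Y y h1 h2
    have hne : ∀ i, rotL y (Y i) ≠ [] := by
      intro i h
      exact h1 i (rotL_inj y h)
    by_cases hc : ∀ i, Good mm (Y i) y
    · rw [hL _ _ hne h2 fun i => (good_rot mm (Y i) y).2 (hc i), hL _ _ h1 h2 hc]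
      have e1 : (fun i => avS Pt (rotL y (Y i)) y) = fun i => avS Pt (Y i) y := by
        funext i
        unfold avS
        rw [hP.rot (Y i) y (h1 i) h2]
      have e2 : (fun i => V (rotL y (Y i)) y) = fun i => V (Y i) y := by
        funext i
        refine Prod.ext (hP.rot (Y i) y (h1 i) h2) ?_
        funext b
        exact (hc2 (Y i) y (h1 i) h2).2.2.1 b
      rw [e1, e2]
    · rw [hL0 _ _ fun h => hc h.2.2, hL0 _ _ fun h => hc fun i => (good_rot mm (Y i) y).1 (h.2.2 i)]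
  · intro Y y h
    by_cases hc : (∀ i, Y i ≠ []) ∧ IsOfFinOrder y ∧ ∀ i, Good mm (Y i) y
    · refine ⟨hc.1, ?_⟩
      by_contra hno
      push Not at hno
      apply h
      rw [hL _ _ hc.1 hc.2.1 hc.2.2]
      refine MEX.vanish _ _ fun x _ => ?_
      exact ll_zero _ (fun i b => (hc2 (Y i) y (hc.1 i) hc.2.1).2.2.2.2 hno b) x
    · exact absurd (hL0 _ _ hc) h
  · intro Y y h1 h2 h3
    have hok : ∀ i, Ok D1 mm (fun a => F a y) (V (Y i) y) := by
      intro i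
      obtain ⟨q1, -, -, q2, -⟩ := hc2 (Y i) y (h1 i) h2
      refine ⟨hP.ne (Y i) y (h1 i) h2, card_dvd hP (h1 i) h2 (h3 i), q1, ?_⟩
      intro b0 b1 b2 b3
      have h4 := q2 ![b0, b1, b2, b3]
      rw [Fin.sum_univ_four] at h4
      have s0 : (fun j => ![b0, b1, b2, b3] ((0 : Fin 4).succAbove j)) = ![b1, b2, b3] := by
        funext j
        fin_cases j <;> rfl
      have s1 : (fun j => ![b0, b1, b2, b3] ((1 : Fin 4).succAbove j)) = ![b0, b2, b3] := by
        funext j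
        fin_cases j <;> rfl
      have s2 : (fun j => ![b0, b1, b2, b3] ((2 : Fin 4).succAbove j)) = ![b0, b1, b3] := by
        funext j
        fin_cases j <;> rfl
      have s3 : (fun j => ![b0, b1, b2, b3] ((3 : Fin 4).succAbove j)) = ![b0, b1, b2] := by
        funext j
        fin_cases j <;> rfl
      rw [s0, s1, s2, s3] at h4
      have e3 : ((3 : Fin 4) : ℕ) = 3 := rfl
      rw [e3] at h4
      norm_num at h4
      change F ![b0, b1, b2, b3] y = c2 (Y i) y ![b1, b2, b3] - c2 (Y i) y ![b0, b2, b3] +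
        c2 (Y i) y ![b0, b1, b3] - c2 (Y i) y ![b0, b1, b2]
      linarith
    let _ : Inhabited Γ := ⟨1⟩
    obtain ⟨z, hz⟩ := core (Fy := fun a => F a y) hD1 hmm (fun i => V (Y i) y) hok
    refine ⟨z, ?_⟩
    set c : Fin 4 → (Γ →₀ ℚ) := fun i => avS Pt (Y i) y with hcdef
    have haug : ∀ i, aug (c i) = 1 := fun i => hsec.aug (Y i) y h2 (h1 i)
    have hLi : ∀ i : Fin 4, L (fun j => Y (i.succAbove j)) y =
        mex (fun a => ll D1 mm (fun j => V (Y (i.succAbove j)) y) fun j => a (i.succAbove j)) c := by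
      intro i
      rw [hL _ _ (fun j => h1 _) h2 (fun j => h3 _)]
      exact (MEX.delete (ll D1 mm fun j => V (Y (i.succAbove j)) y) c i haug).symm
    have hmain : mA Pt F Y y = mex (fun a => F a y) c := rfl
    rw [hmain, Finset.sum_congr rfl fun i _ => by rw [hLi i]]
    rw [← MEX.linear (Fin 4) Finset.univ (fun i => (-1 : ℚ) ^ (i : ℕ))
      (fun i a => ll D1 mm (fun j => V (Y (i.succAbove j)) y) fun j => a (i.succAbove j)) c]
    rw [MEX.mex_def, MEX.mex_def, ← Finset.sum_sub_distrib, Finset.mul_sum]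
    have h5 : ∀ a ∈ Fintype.piFinset fun i => (c i).support,
        ((D1 * mm : ℕ) : ℚ) * ((∏ i, c i (a i)) * F a y - (∏ i, c i (a i)) *
          ∑ i : Fin 4, (-1 : ℚ) ^ (i : ℕ) *
            ll D1 mm (fun j => V (Y (i.succAbove j)) y) fun j => a (i.succAbove j)) =
        (∏ i, c i (a i)) * z := by
      intro a _
      rw [← hz a]
      ring
    rw [Finset.sum_congr rfl h5, ← Finset.sum_mul, ← Finset.prod_univ_sum]
    have h6 : ∀ i, ∑ x ∈ (c i).support, c i x = 1 := fun i => haug i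
    rw [Finset.prod_congr rfl fun i _ => h6 i, Finset.prod_const_one, one_mul]
  · intro q Y y _ hqd
    by_cases hc : (∀ i, Y i ≠ []) ∧ IsOfFinOrder y ∧ ∀ i, Good mm (Y i) y
    · obtain ⟨h1, h2, h3⟩ := hc
      have hok : ∀ i, DNF.OkI D1 mm (V (Y i) y) := fun i =>
        ⟨hP.ne (Y i) y (h1 i) h2, card_dvd hP (h1 i) h2 (h3 i), (hc2 (Y i) y (h1 i) h2).1⟩
      rw [hL Y y h1 h2 h3]
      exact MEX.denom (ll D1 mm fun i => V (Y i) y) (fun i => avS Pt (Y i) y) (D1 * mm) q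
        (DNF.ll_int hD1 hmm _ hok) fun i x => DNF.avS_int (hqd h1 h2 i) x
    · exact ⟨0, by rw [hL0 _ _ hc, mul_zero, Int.cast_zero]⟩

/-- DNF: reduction of denominators in degree three, with a bound for the denominators of the
cochain. -/
theorem t_DNF : S_DNF := DNF.of (t_CY3 t_KAP) t_AVS

end Pool.Agent.FJB
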