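import Pool.Agent.AUK.FJA.Avg
import Pool.Agent.AUK.FJA.P_CRS
import Pool.Agent.AUK.FJA.P_PRI

/-!
# KUN: functionals on `H_n(G; ℚ)` and on `H_{n+1}(G × ℤ; ℚ)`
-/

set_option autoImplicit false
set_option linter.unusedSectionVars false

open Matrix Pool.Agent.WhK Pool.Agent.Lib25 CategoryTheory Pool.Agent.FJA

noncomputable section

namespace Pool.Agent.FJB

namespace KUN

section

variable {G : Type} [Group G] {n : ℕ}

/-- Every boundary comes from a cycle with class zero. -/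
theorem exists_bdry (y : IC ℚ (n + 1) G) : ∃ z : ZC ℚ n G, ch ℚ n G z = dI ℚ n G y ∧
    cl ℚ n G z = 0 := by
  let K := groupHomology.inhomogeneousChains (Tk ℚ G)
  have h1 : ch ℚ n G ((K.toCycles (n + 1) n) y) = dI ℚ n G y := by
    have h2 := congrArg (fun f => f.hom y) (K.toCycles_i (n + 1) n)
    refine Eq.trans h2 ?_
    rw [groupHomology.inhomogeneousChains.d_def]
    exact LinearMap.congr_fun (dI0_eq (k := ℚ) (P := G) n) y
  exact ⟨_, h1, (cl_eq_zero_iff _).2 ⟨y, h1⟩⟩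

/-- A functional on the chains which extends a functional on the homology. -/
theorem exists_f0 (lam : Hk ℚ n G →ₗ[ℚ] ℚ) : ∃ f0 : IC ℚ n G →ₗ[ℚ] ℚ,
    (∀ z, f0 (ch ℚ n G z) = lam (cl ℚ n G z)) ∧ ∀ y, f0 (dI ℚ n G y) = 0 := by
  obtain ⟨f0, h0⟩ := exists_fun (J := ZC ℚ n G) (fun z => ch ℚ n G z)
    (fun z => lam (cl ℚ n G z)) (by
      intro q hq
      have h1 : ch ℚ n G (q.sum fun z r => r • z) = 0 := by
        rw [← hq]
        unfold Finsupp.sum
        rw [map_sum]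
        exact Finset.sum_congr rfl fun z _ => map_smul _ _ _
      have h2 : cl ℚ n G (q.sum fun z r => r • z) = 0 := by
        have h3 : ch ℚ n G (q.sum fun z r => r • z) = ch ℚ n G 0 := by rw [h1, map_zero]
        rw [cl_congr h3, map_zero]
      have h4 : lam (cl ℚ n G (q.sum fun z r => r • z)) = q.sum fun z r => r * lam (cl ℚ n G z) := by
        unfold Finsupp.sum
        rw [map_sum, map_sum]
        refine Finset.sum_congr rfl fun z _ => ?_
        rw [map_smul, map_smul, smul_eq_mul]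
      rw [← h4, h2, map_zero])
  refine ⟨f0, h0, fun y => ?_⟩
  obtain ⟨z, h1, h2⟩ := exists_bdry y
  rw [← h1, h0, h2, map_zero]

/-- The homogeneous cochain of `f0`. -/
def af (f0 : IC ℚ n G →ₗ[ℚ] ℚ) (Y : Fin (n + 1) → G) : ℚ :=
  f0 (phi ℚ n G (Finsupp.single Y 1))

theorem af_smul (f0 : IC ℚ n G →ₗ[ℚ] ℚ) (g : G) (Y : Fin (n + 1) → G) :
    af f0 (fun i => g * Y i) = af f0 Y := by
  unfold af
  rw [FJA.phi_single, FJA.phi_single, quo_mul]

theorem af_coc {f0 : IC ℚ n G →ₗ[ℚ] ℚ} (h0 : ∀ y, f0 (dI ℚ n G y) = 0) (Y : Fin (n + 2) → G) :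
    ∑ i : Fin (n + 2), (-1 : ℚ) ^ (i : ℕ) * af f0 (fun j => Y (i.succAbove j)) = 0 := by
  have h1 := congrArg f0 (phi_bd (k := ℚ) n (Finsupp.single Y 1))
  rw [h0, bd_single, map_sum, map_sum] at h1
  rw [← h1]
  refine Finset.sum_congr rfl fun i _ => ?_
  rw [map_smul, map_smul, smul_eq_mul]
  rfl

/-- The second component as an integer. -/
def kk (x : G × Multiplicative ℤ) : ℤ := Multiplicative.toAdd x.2

/-- The product with the generator of `H^1(ℤ)`. -/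
def kap (f0 : IC ℚ n G →ₗ[ℚ] ℚ) (X : Fin (n + 2) → G × Multiplicative ℤ) : ℚ :=
  (-1 : ℚ) ^ n * af f0 (fun i => (X i.castSucc).1) *
    ((kk (X (Fin.last (n + 1))) - kk (X (Fin.last n).castSucc) : ℤ) : ℚ)

theorem kap_smul (f0 : IC ℚ n G →ₗ[ℚ] ℚ) (g : G × Multiplicative ℤ)
    (X : Fin (n + 2) → G × Multiplicative ℤ) : kap f0 (fun i => g * X i) = kap f0 X := by
  unfold kap
  have h1 : (fun i : Fin (n + 1) => (g * X i.castSucc).1) = fun i => g.1 * (X i.castSucc).1 := rfl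
  have h2 : ∀ x : G × Multiplicative ℤ, kk (g * x) = kk g + kk x := fun x => rfl
  rw [h1, af_smul, h2, h2]
  congr 2
  ring

theorem kap_coc {f0 : IC ℚ n G →ₗ[ℚ] ℚ} (h0 : ∀ y, f0 (dI ℚ n G y) = 0)
    (X : Fin (n + 3) → G × Multiplicative ℤ) :
    ∑ i : Fin (n + 3), (-1 : ℚ) ^ (i : ℕ) * kap f0 (fun j => X (i.succAbove j)) = 0 := by
  set Y : Fin (n + 2) → G := fun i => (X i.castSucc).1 with hY
  set k2 : ℤ := kk (X (Fin.last (n + 2))) with hk2
  set k1 : ℤ := kk (X (Fin.last (n + 1)).castSucc) with hk1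
  set k0 : ℤ := kk (X (Fin.last n).castSucc.castSucc) with hk0
  have hf : ∀ i : Fin (n + 2),
      (fun j : Fin (n + 1) => (X (i.castSucc.succAbove j.castSucc)).1) =
        fun j => Y (i.succAbove j) := by
    intro i
    funext j
    rw [Fin.castSucc_succAbove_castSucc]
  have hl : ∀ i : Fin (n + 2), i.castSucc.succAbove (Fin.last (n + 1)) = Fin.last (n + 2) :=
    fun i => Fin.succAbove_ne_last_last (Fin.castSucc_lt_last i).ne
  have e1 : ∀ j : Fin (n + 1), kap f0 (fun l => X (j.castSucc.castSucc.succAbove l)) =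
      (-1 : ℚ) ^ n * af f0 (fun l => Y (j.castSucc.succAbove l)) * ((k2 - k1 : ℤ) : ℚ) := by
    intro j
    unfold kap
    rw [hf]
    beta_reduce
    rw [hl, Fin.castSucc_succAbove_castSucc,
      Fin.succAbove_ne_last_last (Fin.castSucc_lt_last j).ne]
  have e2 : kap f0 (fun l => X ((Fin.last (n + 1)).castSucc.succAbove l)) =
      (-1 : ℚ) ^ n * af f0 (fun l => Y ((Fin.last (n + 1)).succAbove l)) *
        ((k2 - k0 : ℤ) : ℚ) := by
    unfold kap
    rw [hf]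
    beta_reduce
    rw [hl, Fin.castSucc_succAbove_castSucc, Fin.succAbove_last_apply]
  have e3 : kap f0 (fun l => X ((Fin.last (n + 2)).succAbove l)) =
      (-1 : ℚ) ^ n * af f0 (fun l => Y ((Fin.last (n + 1)).succAbove l)) *
        ((k1 - k0 : ℤ) : ℚ) := by
    unfold kap
    simp only [Fin.succAbove_last_apply]
    rfl
  have h1 := af_coc h0 Y
  rw [Fin.sum_univ_castSucc] at h1
  rw [Fin.sum_univ_castSucc, Fin.sum_univ_castSucc, e2, e3]
  simp only [e1, Fin.val_castSucc, Fin.val_last] at h1 ⊢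
  have h2 : ∑ x : Fin (n + 1), (-1 : ℚ) ^ (x : ℕ) *
      ((-1 : ℚ) ^ n * af f0 (fun l => Y (x.castSucc.succAbove l)) * ((k2 - k1 : ℤ) : ℚ)) =
      (-1 : ℚ) ^ n * ((k2 - k1 : ℤ) : ℚ) * ∑ x : Fin (n + 1), (-1 : ℚ) ^ (x : ℕ) *
        af f0 (fun l => Y (x.castSucc.succAbove l)) := by
    rw [Finset.mul_sum]
    refine Finset.sum_congr rfl fun x _ => ?_
    ring
  rw [h2, eq_neg_of_add_eq_zero_left h1]
  push_cast
  ring

/-- The functional on the homogeneous chains. -/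
def Fh (f0 : IC ℚ n G →ₗ[ℚ] ℚ) : HCh ℚ (G × Multiplicative ℤ) (n + 1) →ₗ[ℚ] ℚ :=
  Finsupp.linearCombination ℚ (kap f0)

theorem Fh_single (f0 : IC ℚ n G →ₗ[ℚ] ℚ) (X : Fin (n + 2) → G × Multiplicative ℤ) (q : ℚ) :
    Fh f0 (Finsupp.single X q) = q * kap f0 X := by
  unfold Fh
  rw [Finsupp.linearCombination_single, smul_eq_mul]

theorem Fh_hdeg (f0 : IC ℚ n G →ₗ[ℚ] ℚ) {w : HCh ℚ (G × Multiplicative ℤ) (n + 1)}
    (hw : w ∈ hdeg ℚ (G × Multiplicative ℤ) (n + 1)) : Fh f0 w = 0 := by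
  have h1 : hdeg ℚ (G × Multiplicative ℤ) (n + 1) ≤ LinearMap.ker (Fh f0) := by
    unfold hdeg
    rw [Submodule.span_le]
    rintro x ⟨g, X, rfl⟩
    change Fh f0 _ = 0
    rw [map_sub, Fh_single, Fh_single, kap_smul, sub_self]
  exact h1 hw

theorem Fh_bd {f0 : IC ℚ n G →ₗ[ℚ] ℚ} (h0 : ∀ y, f0 (dI ℚ n G y) = 0)
    (w : HCh ℚ (G × Multiplicative ℤ) (n + 2)) :
    Fh f0 (bd ℚ (G × Multiplicative ℤ) (n + 2) w) = 0 := by
  induction w using Finsupp.induction_linear with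
  | zero => rw [map_zero, map_zero]
  | add a b ha hb => rw [map_add, map_add, ha, hb, add_zero]
  | single X q =>
    rw [bd_single, map_sum]
    have h1 : ∀ i : Fin (n + 3), Fh f0 ((-1 : ℚ) ^ (i : ℕ) •
        Finsupp.single (fun j => X (i.succAbove j)) q) =
        q * ((-1 : ℚ) ^ (i : ℕ) * kap f0 (fun j => X (i.succAbove j))) := by
      intro i
      rw [map_smul, Fh_single, smul_eq_mul]
      ring
    rw [Finset.sum_congr rfl fun i _ => h1 i, ← Finset.mul_sum, kap_coc h0, mul_zero]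

theorem Fh_dI {f0 : IC ℚ n G →ₗ[ℚ] ℚ} (h0 : ∀ y, f0 (dI ℚ n G y) = 0)
    (y : IC ℚ (n + 2) (G × Multiplicative ℤ)) :
    (Fh f0 ∘ₗ psi ℚ (n + 1) (G × Multiplicative ℤ)) (dI ℚ (n + 1) _ y) = 0 := by
  have h1 := Fh_hdeg f0 (psi_d (k := ℚ) (P := G × Multiplicative ℤ) (n + 1) y)
  rw [map_sub, Fh_bd h0, zero_sub, neg_eq_zero] at h1
  exact h1

/-- The functional on the homology. -/
def lt {f0 : IC ℚ n G →ₗ[ℚ] ℚ} (h0 : ∀ y, f0 (dI ℚ n G y) = 0) :
    Hk ℚ (n + 1) (G × Multiplicative ℤ) →ₗ[ℚ] ℚ :=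
  Hk.lift (Fh f0 ∘ₗ psi ℚ (n + 1) (G × Multiplicative ℤ)) (Fh_dI h0)

theorem lt_cl {f0 : IC ℚ n G →ₗ[ℚ] ℚ} (h0 : ∀ y, f0 (dI ℚ n G y) = 0)
    (z : ZC ℚ (n + 1) (G × Multiplicative ℤ)) :
    lt h0 (cl ℚ (n + 1) _ z) = Fh f0 (psi ℚ (n + 1) _ (ch ℚ (n + 1) _ z)) :=
  Hk.lift_cl _ _ z

theorem lt_inl {f0 : IC ℚ n G →ₗ[ℚ] ℚ} (h0 : ∀ y, f0 (dI ℚ n G y) = 0) (c : Hk ℚ (n + 1) G) :
    lt h0 (Hk.map ℚ (n + 1) (MonoidHom.inl G (Multiplicative ℤ)) c) = 0 := by
  obtain ⟨z, rfl⟩ := exists_cl c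
  obtain ⟨y, h1, h2⟩ := Hk.map_cl (MonoidHom.inl G (Multiplicative ℤ)) z
  rw [h1, lt_cl, h2, psi_map]
  generalize psi ℚ (n + 1) G (ch ℚ (n + 1) G z) = w
  induction w using Finsupp.induction_linear with
  | zero => rw [map_zero, map_zero]
  | add a b ha hb => rw [map_add, map_add, ha, hb, add_zero]
  | single X q =>
    have h3 : hmap ℚ (MonoidHom.inl G (Multiplicative ℤ)) (n + 1 + 1) (Finsupp.single X q) =
        Finsupp.single (fun i => MonoidHom.inl G (Multiplicative ℤ) (X i)) q :=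
      Finsupp.mapDomain_single
    rw [h3, Fh_single]
    unfold kap
    have h4 : ∀ x : G, kk (MonoidHom.inl G (Multiplicative ℤ) x) = 0 := fun x => rfl
    rw [h4, h4, sub_zero, Int.cast_zero, mul_zero, mul_zero]

/-- The value on a prism. -/
theorem Fh_prism (f0 : IC ℚ n G →ₗ[ℚ] ℚ) (w : HCh ℚ G n) :
    Fh f0 (prism ℚ (MonoidHom.inl G (Multiplicative ℤ))
      (fun z => MonoidHom.inl G (Multiplicative ℤ) z * ((1 : G), Multiplicative.ofAdd (1 : ℤ)))
      (n + 1) w) = f0 (phi ℚ n G w) := by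
  induction w using Finsupp.induction_linear with
  | zero => rw [map_zero, map_zero, map_zero, map_zero]
  | add a b ha hb => rw [map_add, map_add, map_add, map_add, ha, hb]
  | single v q =>
    rw [CRS.prism_single, map_sum]
    have hg : ∀ x : G, kk (MonoidHom.inl G (Multiplicative ℤ) x) = 0 := fun x => rfl
    have hg' : ∀ x : G, kk (MonoidHom.inl G (Multiplicative ℤ) x *
        ((1 : G), Multiplicative.ofAdd (1 : ℤ))) = 1 := fun x => rfl
    have hlast : ∀ i : Fin (n + 1), kk (mix (MonoidHom.inl G (Multiplicative ℤ))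
        (fun z => MonoidHom.inl G (Multiplicative ℤ) z * ((1 : G), Multiplicative.ofAdd (1 : ℤ)))
        v i (Fin.last (n + 1))) = 1 := by
      intro i
      rw [CRS.mix_gt _ _ v i (Fin.last (n + 1)) (Fin.last n) (by
        rw [Fin.val_last]
        exact i.2) (by rw [Fin.val_last, Fin.val_last])]
      exact hg' _
    rw [Fin.sum_univ_castSucc]
    have h1 : ∀ i : Fin n, Fh f0 (Finsupp.single (mix (MonoidHom.inl G (Multiplicative ℤ))
        (fun z => MonoidHom.inl G (Multiplicative ℤ) z * ((1 : G), Multiplicative.ofAdd (1 : ℤ)))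
        v i.castSucc) ((-1 : ℚ) ^ ((i.castSucc : Fin (n + 1)) : ℕ) * q)) = 0 := by
      intro i
      rw [Fh_single]
      unfold kap
      rw [hlast]
      have hn : 0 < n := lt_of_le_of_lt (Nat.zero_le _) i.2
      rw [CRS.mix_gt _ _ v i.castSucc (Fin.last n).castSucc ⟨n - 1, by omega⟩ (by
        rw [Fin.val_castSucc, Fin.val_castSucc, Fin.val_last]
        exact i.2) (by
        rw [Fin.val_castSucc, Fin.val_last]
        exact Nat.sub_add_cancel hn), hg', sub_self, Int.cast_zero, mul_zero, mul_zero]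
    rw [Finset.sum_congr rfl fun i _ => h1 i, Finset.sum_const_zero, zero_add, Fh_single]
    unfold kap
    rw [hlast, CRS.mix_le _ _ v (Fin.last n) (Fin.last n).castSucc (Fin.last n) (by
      rw [Fin.val_castSucc]) (by rw [Fin.val_castSucc]), hg, sub_zero, Int.cast_one, mul_one]
    have h2 : (fun i : Fin (n + 1) => (mix (MonoidHom.inl G (Multiplicative ℤ))
        (fun z => MonoidHom.inl G (Multiplicative ℤ) z * ((1 : G), Multiplicative.ofAdd (1 : ℤ)))
        v (Fin.last n) i.castSucc).1) = v := by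
      funext i
      rw [CRS.mix_le _ _ v (Fin.last n) i.castSucc i (by
        rw [Fin.val_castSucc, Fin.val_last]
        exact Nat.lt_succ_iff.1 i.2) (by rw [Fin.val_castSucc])]
      rfl
    rw [h2, Fin.val_last]
    have h3 : f0 (FJA.phi ℚ n G (Finsupp.single v q)) = q * af f0 v := by
      have h4 : (Finsupp.single v q : HCh ℚ G n) = q • Finsupp.single v 1 := by
        rw [Finsupp.smul_single, smul_eq_mul, mul_one]
      rw [h4, map_smul, map_smul, smul_eq_mul]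
      rfl
    rw [h3]
    have h5 : (-1 : ℚ) ^ n * (-1 : ℚ) ^ n = 1 := by
      rw [← mul_pow]
      norm_num
    calc (-1 : ℚ) ^ n * q * ((-1 : ℚ) ^ n * af f0 v) =
        ((-1 : ℚ) ^ n * (-1 : ℚ) ^ n) * (q * af f0 v) := by ring
      _ = q * af f0 v := by rw [h5, one_mul]

end

end KUN

open KUN in
/-- A functional on `H_n(G; ℚ)` extends to `H_{n+1}(G × ℤ; ℚ)`. -/
theorem t_KUN {G : Type} [Group G] {n : ℕ} (lam : Hk ℚ n G →ₗ[ℚ] ℚ) :
    ∃ lt : Hk ℚ (n + 1) (G × Multiplicative ℤ) →ₗ[ℚ] ℚ,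
      (∀ c, lt (Hk.map ℚ (n + 1) (MonoidHom.inl G (Multiplicative ℤ)) c) = 0) ∧
      ∀ z : ZC ℚ n G, ∃ z' : ZC ℚ (n + 1) (G × Multiplicative ℤ),
        ch ℚ (n + 1) _ z' = insL n ((1 : G), Multiplicative.ofAdd (1 : ℤ))
          (IC.map ℚ n (MonoidHom.inl G (Multiplicative ℤ)) (ch ℚ n G z)) ∧
        lt (cl ℚ (n + 1) _ z') = lam (cl ℚ n G z) := by
  obtain ⟨f0, h1, h0⟩ := exists_f0 lam
  have hc : ∀ z, ((1 : G), Multiplicative.ofAdd (1 : ℤ)) * MonoidHom.inl G (Multiplicative ℤ) z =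
      MonoidHom.inl G (Multiplicative ℤ) z * ((1 : G), Multiplicative.ofAdd (1 : ℤ)) := fun z => by
    apply Prod.ext
    · change 1 * z = z * 1
      rw [one_mul, mul_one]
    · exact mul_comm _ _
  obtain ⟨hp, X, hX⟩ := (t_CRS t_PRI t_BD) G (G × Multiplicative ℤ)
    (MonoidHom.inl G (Multiplicative ℤ)) ((1 : G), Multiplicative.ofAdd (1 : ℤ)) hc n
  refine ⟨lt h0, lt_inl h0, fun z => ?_⟩
  obtain ⟨z', h2, -⟩ := hX z
  refine ⟨z', h2, ?_⟩
  rw [lt_cl, h2, hp, Fh_prism, phi_psi, h1]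

end Pool.Agent.FJB
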