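import Pool.Agent.AUK.FJA.FinF1
import Pool.Agent.AUK.FJB.FinB
import Pool.Agent.AUK.FJB.P_KUN
import Pool.Agent.FJB.P_WHF
import Pool.Agent.AUK.FJB.P_WHX

/-!
# DUA: the dual form
-/

set_option autoImplicit false
set_option linter.unusedSectionVars false

open Matrix Pool.Agent.WhK Pool.Agent.Lib25 CategoryTheory Pool.Agent.FJA

noncomputable section

namespace Pool.Agent.FJB

namespace DUA

/-! ## Extension of functionals -/

theorem exists_ext {V K : Type} [AddCommGroup V] [Module ℚ V] [AddCommGroup K] [Module ℚ K]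
    (T : V →ₗ[ℚ] K) (θ : V →ₗ[ℚ] ℚ) (h : ∀ w, T w = 0 → θ w = 0) :
    ∃ Φ : K →ₗ[ℚ] ℚ, ∀ w, Φ (T w) = θ w := by
  refine exists_fun (J := V) T θ fun q hq => ?_
  have h1 : T (q.sum fun w r => r • w) = 0 := by
    rw [← hq]
    unfold Finsupp.sum
    rw [map_sum]
    exact Finset.sum_congr rfl fun z _ => map_smul _ _ _
  have h2 := h _ h1
  rw [← h2]
  unfold Finsupp.sum
  rw [map_sum]
  refine Finset.sum_congr rfl fun z _ => ?_
  beta_reduce
  rw [map_smul, smul_eq_mul]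

/-! ## Dictionary -/

section dict

variable {m : ℕ} {Γ Δ : Type} [Group Γ] [Group Δ]

theorem cls_iff (x : IC ℚ m Γ) (c : Hk ℚ m Γ) :
    Dl.Cls x c ↔ ∃ z : ZC ℚ m Γ, ch ℚ m Γ z = x ∧ cl ℚ m Γ z = c := Iff.rfl

theorem cls_ch (z : ZC ℚ m Γ) : Dl.Cls (ch ℚ m Γ z) (cl ℚ m Γ z) := ⟨z, rfl, rfl⟩

theorem ev_pull (u : Γ →* Δ) (f : Dl.Coh m Δ) (c : Hk ℚ m Γ) :
    (f.pull u).ev c = f.ev (Hk.map ℚ m u c) := rfl

theorem ext_ev {f g : Dl.Coh m Γ} (h : ∀ c, f.ev c = g.ev c) : f = g := LinearMap.ext h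

theorem ev_add (f g : Dl.Coh m Γ) (c : Hk ℚ m Γ) : (f + g).ev c = f.ev c + g.ev c := rfl

theorem ev_zero (c : Hk ℚ m Γ) : (0 : Dl.Coh m Γ).ev c = 0 := rfl

theorem ev_add' (f : Dl.Coh m Γ) (c c' : Hk ℚ m Γ) : f.ev (c + c') = f.ev c + f.ev c' :=
  LinearMap.map_add _ c c'

theorem ev_smul' (f : Dl.Coh m Γ) (q : ℚ) (c : Hk ℚ m Γ) : f.ev (q • c) = q * f.ev c :=
  LinearMap.map_smul _ q c

theorem ev_zero' (f : Dl.Coh m Γ) : f.ev 0 = 0 := LinearMap.map_zero _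

theorem isInt_iff (f : Dl.Coh m Γ) :
    Dl.IsInt f ↔ FJA.IsInt m Γ (show HQ m Γ →ₗ[ℚ] ℚ from f) := by
  constructor
  · intro h z hz
    exact h _ _ (cls_ch z) hz
  · rintro h x c ⟨z, rfl, rfl⟩ hx
    exact h z hx

theorem det_und {f : Dl.Coh m Γ} (h : Dl.Det f) {c : HQ m Γ} (hc : Und m Γ c) :
    f.ev c = 0 := by
  rcases h with h | h | h
  · rw [und_fin (Or.inl h) c hc]
    exact ev_zero' f
  · rw [und_fin (Or.inr h) c hc]
    exact ev_zero' f
  · exact h c fun g hg => hc _ ((isInt_iff g).1 hg)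

theorem adm_iff {G : Type} [Group G] (h : G) (u : (MonoidAlgebra ℤ G)ˣ) :
    Dl.Adm h u ↔ Adm1 h u := by
  refine and_congr_right fun _ => ⟨?_, ?_⟩
  · rintro ⟨v, hv⟩
    exact ⟨v, Units.ext hv⟩
  · rintro ⟨v, rfl⟩
    exact ⟨v, rfl⟩

theorem gu_eq {G : Type} [Group G] (g : G) : Dl.gu g = gU G g := rfl

theorem ins_eq (m : ℕ) {Q : Type} (g : Q) (x : (Fin m → Q) →₀ ℚ) : Dl.ins m g x = insL m g x :=
  rfl

end dict

/-! ## The functional on the part with coefficients `K_{-1}` -/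

theorem adm_conj {G : Type} [Group G] {p : ℕ} {h : G} (x : G) :
    FJA.Adm p (x * h * x⁻¹) ↔ FJA.Adm p h := by
  unfold FJA.Adm
  rw [orderOf_conj, ← orderOf_pos_iff, ← orderOf_pos_iff, orderOf_conj]

theorem zp_eq {G : Type} [Group G] {h h' : G} (h1 : h' ∈ Subgroup.zpowers h)
    (h2 : h ∈ Subgroup.zpowers h') : Subgroup.zpowers h' = Subgroup.zpowers h :=
  le_antisymm (Subgroup.zpowers_le.2 h1) (Subgroup.zpowers_le.2 h2)

theorem exists_L {n : ℕ} {G : Type} [Group G] {L : ∀ (_ : ℕ) (h : G), Dl.Coh (n + 1) (Cen h)}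
    (hL : Dl.IsL L) : ∃ Λ : Src n G →ₗ[ℚ] ℚ, ∀ (p : ℕ) (h : G) (c : HQ (n + 1) (Cen h)),
      Λ (sym p h c) = by classical exact if FJA.Adm p h then (L p h).ev c else 0 := by
  classical
  let A0 : (Sym n G →₀ ℚ) →ₗ[ℚ] ℚ :=
    Finsupp.linearCombination ℚ (fun s => if FJA.Adm s.p s.h then (L s.p s.h).ev s.c else 0)
  have hA0 : ∀ (p : ℕ) (h : G) (c : HQ (n + 1) (Cen h)),
      A0 (sg p h c) = if FJA.Adm p h then (L p h).ev c else 0 := by
    intro p h c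
    unfold sg
    exact (Finsupp.linearCombination_single ℚ _ _).trans (one_smul _ _)
  have hrel : ∀ x, Rel n G x → A0 x = 0 := by
    intro x hx
    cases hx with
    | invalid p h c hv => rw [hA0, if_neg hv]
    | add p h c c' =>
      rw [map_sub, map_sub, hA0, hA0, hA0]
      split_ifs
      · rw [ev_add']
        ring
      · ring
    | smul p h q c =>
      rw [map_sub, map_smul, hA0, hA0]
      split_ifs
      · rw [ev_smul', smul_eq_mul]
        ring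
      · rw [smul_zero, sub_zero]
    | conj p h x c =>
      rw [map_sub, hA0, hA0, sub_eq_zero]
      by_cases hv : FJA.Adm p h
      · rw [if_pos hv, if_pos ((adm_conj x).2 hv)]
        have h1 := hL.1 p h (x * h * x⁻¹) x 0 0 (cHom x (cHom_conj x h)) hv.1 hv.2.1 hv.2.2 rfl rfl
          (fun z => rfl)
        rw [← h1]
        rfl
      · rw [if_neg hv, if_neg (fun H => hv ((adm_conj x).1 H))]
    | frob p h h' hh j k c hv hh' hjk =>
      rw [map_sub, hA0, hA0, sub_eq_zero, if_pos hv]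
      have hz : Subgroup.zpowers h' = Subgroup.zpowers h := zp_eq hh hh'
      have ho : orderOf h' = orderOf h := by
        rw [← Nat.card_zpowers, hz, Nat.card_zpowers]
      have hv' : FJA.Adm p h' := ⟨hv.1, by
        rw [← orderOf_pos_iff, ho, orderOf_pos_iff]
        exact hv.2.1, by
        rw [ho]
        exact hv.2.2⟩
      rw [if_pos hv']
      have h1 := hL.1 p h h' 1 j k (cHom 1 (cHom_pow h hh)) hv.1 hv.2.1 hv.2.2 (by
        rw [one_mul, inv_one, mul_one, hz]) (by rw [one_mul, inv_one, mul_one, hjk]) (fun z => rfl)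
      rw [← h1]
      rfl
    | sum h c hf =>
      rw [map_sum]
      have h1 := hL.2 h (fun a => cHom 1 (cHom_pow h (Subgroup.pow_mem _
        (Subgroup.mem_zpowers h) a))) hf (fun a z => rfl)
      have h2 := congrArg (fun g : Dl.Coh (n + 1) (Cen h) => g.ev c) h1
      have h3 : ∀ (s : Finset ℕ) (g : ℕ → Dl.Coh (n + 1) (Cen h)),
          (∑ i ∈ s, g i).ev c = ∑ i ∈ s, (g i).ev c := by
        intro s g
        exact LinearMap.sum_apply s g c
      change (∑ p ∈ (orderOf h).primeFactors, ∑ a ∈ (Finset.range (orderOf h)).filter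
        (fun a => a.Coprime (orderOf h)), (L p (h ^ a)).pull (cHom 1 (cHom_pow h (Subgroup.pow_mem _
        (Subgroup.mem_zpowers h) a)))).ev c = 0 at h2
      rw [h3] at h2
      rw [← h2]
      refine Finset.sum_congr rfl fun p hp => ?_
      rw [h3, map_sum]
      refine Finset.sum_congr rfl fun a ha => ?_
      rw [hA0]
      have hco := (Finset.mem_filter.1 ha).2
      have ho : orderOf (h ^ a) = orderOf h := Nat.Coprime.orderOf_pow hco.symm
      rw [if_pos (show FJA.Adm p (h ^ a) from ⟨Nat.prime_of_mem_primeFactors hp, hf.pow, by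
        rw [ho]
        exact Nat.dvd_of_mem_primeFactors hp⟩)]
      rfl
  let Λ : Src n G →ₗ[ℚ] ℚ := (Submodule.span ℚ {x | Rel n G x}).liftQ A0 (by
    rw [Submodule.span_le]
    intro x hx
    exact hrel x hx)
  refine ⟨Λ, fun p h c => ?_⟩
  have h1 : Λ (sym p h c) = A0 (sg p h c) := rfl
  rw [h1, hA0]

/-! ## The functional on the part with coefficients `K_1` -/

theorem exists_M {m : ℕ} {G : Type} [Group G]
    {M : ∀ (h : G) (_ : (MonoidAlgebra ℤ G)ˣ), Dl.Coh m (Cen h)}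
    (hM : Dl.IsM M) : ∃ Λ : Src1 m G →ₗ[ℚ] ℚ,
      ∀ (h : G) (c : HQ m (Cen h)) (u : (MonoidAlgebra ℤ G)ˣ),
        Λ (sym1 h c u) = by classical exact if Adm1 h u then (M h u).ev c else 0 := by
  classical
  let A0 : (Sym1 m G →₀ ℚ) →ₗ[ℚ] ℚ :=
    Finsupp.linearCombination ℚ (fun s => if Adm1 s.h s.u then (M s.h s.u).ev s.c else 0)
  have hA0 : ∀ (h : G) (c : HQ m (Cen h)) (u : (MonoidAlgebra ℤ G)ˣ),
      A0 (sg1 h c u) = if Adm1 h u then (M h u).ev c else 0 := by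
    intro h c u
    unfold sg1
    exact (Finsupp.linearCombination_single ℚ _ _).trans (one_smul _ _)
  have hrel : ∀ x, Rel1 m G x → A0 x = 0 := by
    intro x hx
    cases hx with
    | invalid h c u hv => rw [hA0, if_neg hv]
    | add h c c' u =>
      rw [map_sub, map_sub, hA0, hA0, hA0]
      split_ifs
      · rw [ev_add']
        ring
      · ring
    | smul h q c u =>
      rw [map_sub, map_smul, hA0, hA0]
      split_ifs
      · rw [ev_smul', smul_eq_mul]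
        ring
      · rw [smul_zero, sub_zero]
    | mul h c u v hu hv =>
      rw [map_sub, map_sub, hA0, hA0, hA0, if_pos hu, if_pos hv, if_pos (hu.mul hv),
        hM.1 h u v ((adm_iff h u).2 hu) ((adm_iff h v).2 hv), ev_add]
      ring
    | conj h x c u =>
      rw [map_sub, hA0, hA0, sub_eq_zero]
      by_cases hv : Adm1 h u
      · rw [if_pos hv, if_pos ((AS1.adm1_conj_iff x).2 hv)]
        have h1 := hM.2 h (x * h * x⁻¹) x u (cHom x (cHom_conj x h)) hv.1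
          (Subgroup.mem_zpowers _) ((adm_iff _ _).2 ((AS1.adm1_conj_iff x).2 hv)) (fun z => rfl)
        rw [← h1]
        rfl
      · rw [if_neg hv, if_neg (fun H => hv ((AS1.adm1_conj_iff x).1 H))]
    | res h h' hh c u hfin hv =>
      rw [map_sub, hA0, hA0, sub_eq_zero, if_pos hv,
        if_pos (show Adm1 h u from ⟨hfin, unS_mono hh hv.2⟩)]
      have hu : Dl.gu (1 : G) * u * (Dl.gu (1 : G))⁻¹ = u := by
        rw [gu_eq, map_one, one_mul, inv_one, mul_one]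
      have h1 := hM.2 h h' 1 u (cHom 1 (cHom_pow h hh)) hfin (by
        rw [one_mul, inv_one, mul_one]
        exact hh) (by
        rw [hu]
        exact (adm_iff _ _).2 hv) (fun z => rfl)
      rw [hu] at h1
      rw [← h1]
      rfl
  let Λ : Src1 m G →ₗ[ℚ] ℚ := (RelT m G).liftQ A0 (by
    unfold RelT
    rw [Submodule.span_le]
    intro x hx
    exact hrel x hx)
  refine ⟨Λ, fun h c u => ?_⟩
  have h1 : Λ (sym1 h c u) = A0 (sg1 h c u) := rfl
  rw [h1, hA0]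

/-! ## The functional on the target -/

section target

variable {n : ℕ} {G : Type} [Group G]

/-- The family of classes of a functional on `KB n ℤ[G]`. -/
def fam (Φ : KB n (MonoidAlgebra ℤ G) →ₗ[ℚ] ℚ) (r : ℕ) :
    Dl.Coh (n + 1) (Dl.GLr (Dl.LG G) r) :=
  Φ ∘ₗ KB.mk n (MonoidAlgebra ℤ G) r

theorem mk_im {R : Type} [Ring R] (f : Polynomial R →+* LaurentPolynomial R)
    (hf : f = posIncl R ∨ f = negIncl R) (r : ℕ) (c : HQ (n + 1) (GLn (Polynomial R) r)) :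
    KB.mk n R r (HQ.map (n + 1) (glm f r) c) = 0 := by
  unfold KB.mk
  rw [LinearMap.comp_apply, Submodule.mkQ_apply, Submodule.Quotient.mk_eq_zero]
  rcases hf with rfl | rfl
  · exact Submodule.mem_sup_left (Submodule.subset_span ⟨r, c, rfl⟩)
  · exact Submodule.mem_sup_right (Submodule.subset_span ⟨r, c, rfl⟩)

theorem pos_C {R : Type} [Ring R] (x : R) : posIncl R (Polynomial.C x) = LaurentPolynomial.C x :=
  Polynomial.toLaurent_C x

theorem pos_X {R : Type} [Ring R] : posIncl R Polynomial.X = LaurentPolynomial.T 1 :=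
  Polynomial.toLaurent_X

theorem neg_C {R : Type} [Ring R] (x : R) :
    negIncl R (Polynomial.C x) = LaurentPolynomial.C x := by
  change flipT R (Polynomial.toLaurent (Polynomial.C x)) = _
  rw [Polynomial.toLaurent_C]
  change flipT R (AddMonoidAlgebra.single (0 : ℤ) x) = AddMonoidAlgebra.single (0 : ℤ) x
  rw [flipT_single, neg_zero]

theorem neg_X {R : Type} [Ring R] : negIncl R Polynomial.X = LaurentPolynomial.T (-1) := by
  change flipT R (Polynomial.toLaurent Polynomial.X) = _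
  rw [Polynomial.toLaurent_X]
  change flipT R (AddMonoidAlgebra.single (1 : ℤ) (1 : R)) =
    AddMonoidAlgebra.single (-1 : ℤ) (1 : R)
  rw [flipT_single]

theorem isKn_fam (Φ : KB n (MonoidAlgebra ℤ G) →ₗ[ℚ] ℚ) : Dl.IsKn (fam Φ) := by
  refine ⟨fun a b => ⟨bsumHom (LaurentPolynomial (MonoidAlgebra ℤ G)) a b, fun X => rfl, ?_⟩,
    ?_⟩
  · refine ext_ev fun c => ?_
    rw [ev_add, ev_pull, ev_pull, ev_pull]
    have h1 := congrArg Φ (WHX.KB_block n a b c)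
    rw [map_add] at h1
    exact h1
  · rintro k (rfl | rfl)
    · refine ⟨posIncl (MonoidAlgebra ℤ G), RingHom.ext fun x => pos_C x, pos_X,
        fun r => ext_ev fun c => ?_⟩
      rw [ev_pull, ev_zero]
      exact (congrArg Φ (mk_im _ (Or.inl rfl) r c)).trans (map_zero Φ)
    · refine ⟨negIncl (MonoidAlgebra ℤ G), RingHom.ext fun x => neg_C x, neg_X,
        fun r => ext_ev fun c => ?_⟩
      rw [ev_pull, ev_zero]
      exact (congrArg Φ (mk_im _ (Or.inr rfl) r c)).trans (map_zero Φ)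

end target

/-! ## The three extension properties -/

section ext

variable {G : Type} [Group G]

theorem uu_eq (u : (MonoidAlgebra ℤ G)ˣ) : Dl.uu u = uL G u := by
  apply Units.ext
  change (Matrix.scalar (Fin 1) (u : MonoidAlgebra ℤ G)).map
      (LaurentPolynomial.C : MonoidAlgebra ℤ G →+* LaurentPolynomial (MonoidAlgebra ℤ G)) =
    Matrix.diagonal fun _ => LaurentPolynomial.C (u : MonoidAlgebra ℤ G)
  rw [Matrix.scalar_apply, Matrix.diagonal_map (map_zero _)]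

theorem tt_eq : (show Dl.GLr (Dl.LG G) 1 from tL G).mat =
    Matrix.scalar (Fin 1) (Dl.tk G 1) := by
  change (Matrix.diagonal fun _ => AddMonoidAlgebra.single (1 : ℤ) (MonoidAlgebra.of ℤ G 1)) =
    Matrix.scalar (Fin 1) (LaurentPolynomial.T 1 : LaurentPolynomial (MonoidAlgebra ℤ G))
  rw [map_one]
  rfl

theorem extZ {n : ℕ} (f : Dl.Coh n G) (Φ : KB n (MonoidAlgebra ℤ G) →ₗ[ℚ] ℚ)
    (lt : Hk ℚ (n + 1) (G × Multiplicative ℤ) →ₗ[ℚ] ℚ)
    (h1 : ∀ z : ZC ℚ n G, ∃ z' : ZC ℚ (n + 1) (G × Multiplicative ℤ),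
        ch ℚ (n + 1) _ z' = insL n ((1 : G), Multiplicative.ofAdd (1 : ℤ))
          (IC.map ℚ n (MonoidHom.inl G (Multiplicative ℤ)) (ch ℚ n G z)) ∧
        lt (cl ℚ (n + 1) _ z') = (show Hk ℚ n G →ₗ[ℚ] ℚ from f) (cl ℚ n G z))
    (h2 : ∀ a, Φ (FJA.tau n G a) = lt a) : Dl.ExtZ f (fam Φ 1) := by
  refine ⟨tL G, tt_eq, ?_⟩
  rintro x c ⟨z, rfl, rfl⟩
  obtain ⟨z', h3, h4⟩ := h1 z
  obtain ⟨y, h5, h6⟩ := Hk.map_cl (gl1 mon) z'
  refine ⟨cl ℚ (n + 1) _ y, ⟨y, ?_, rfl⟩, ?_⟩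
  · have h7 : ch ℚ (n + 1) _ y = insL n (tL G) (IC.map ℚ n (fun g => uL G (gU G g)) (ch ℚ n G z)) := by
      rw [h6, h3, AS1.map_insL, IC.map_map]
      rfl
    refine Eq.trans h7 ?_
    have h9 : (fun g : G => uL G (gU G g)) = fun g : G => Dl.uu (Dl.gu g) := by
      funext g
      rw [uu_eq]
      rfl
    rw [h9]
    rfl
  · have h8 : Φ (FJA.tau n G (cl ℚ (n + 1) _ z')) = Φ (KB.mk n (MonoidAlgebra ℤ G) 1
        (cl ℚ (n + 1) _ y)) := by
      rw [← h5]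
      rfl
    refine Eq.trans h8.symm ?_
    rw [h2, h4]
    rfl

theorem rho_mat {N : ℕ} (e : IdemMat (LaurentPolynomial (MonoidAlgebra ℤ (FJA.Cyc N))))
    (φ : FJA.Cyc N →* G) (z : Cen (φ (FJA.gen N))) :
    (rhoC e φ z).val = FJA.elt (z : G) • (e.mat.map (gmap φ)) + (1 - e.mat.map (gmap φ)) := rfl

theorem extN {n : ℕ} {ε : ∀ N : ℕ, ℕ → IdemMat (LaurentPolynomial (MonoidAlgebra ℤ (FJA.Cyc N)))}
    {A : Src n G →ₗ[ℚ] KB n (MonoidAlgebra ℤ G)} (hA : IsAssembly ε A)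
    {L : ∀ (_ : ℕ) (h : G), Dl.Coh (n + 1) (Cen h)} {Λ : Src n G →ₗ[ℚ] ℚ}
    (hΛ : ∀ (p : ℕ) (h : G) (c : HQ (n + 1) (Cen h)), FJA.Adm p h → Λ (sym p h c) = (L p h).ev c)
    (Φ : KB n (MonoidAlgebra ℤ G) →ₗ[ℚ] ℚ) (h2 : ∀ x, Φ (A x) = Λ x) :
    Dl.ExtN (r := fun N p => (ε N p).n) (fun N p => (ε N p).mat) L (fam Φ) := by
  intro N p φ hN hp hpN hφ
  refine ⟨rhoC (ε N p) φ, fun z => rfl, ?_⟩
  refine ext_ev fun c => ?_
  rw [ev_pull]
  have h3 := hA N p φ c hN hp hpN hφ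
  have h4 : FJA.Adm p (φ (FJA.gen N)) := by
    have ho : orderOf (φ (FJA.gen N)) = N := orderOf_cyc hN φ hφ
    refine ⟨hp, ?_, ?_⟩
    · rw [← orderOf_pos_iff, ho]
      exact hN
    · rw [ho]
      exact hpN
  refine Eq.trans (congrArg Φ h3.symm) ?_
  rw [h2, hΛ p _ c h4]

theorem extO {m : ℕ} {B : Src1 m G →ₗ[ℚ] KB (m + 1) (MonoidAlgebra ℤ G)} (hB : IsA1 B)
    {M : ∀ (h : G) (_ : (MonoidAlgebra ℤ G)ˣ), Dl.Coh m (Cen h)} {Λ : Src1 m G →ₗ[ℚ] ℚ}
    (hΛ : ∀ (h : G) (c : HQ m (Cen h)) (u : (MonoidAlgebra ℤ G)ˣ), Adm1 h u →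
      Λ (sym1 h c u) = (M h u).ev c)
    (Φ : KB (m + 1) (MonoidAlgebra ℤ G) →ₗ[ℚ] ℚ) (h2 : ∀ x, Φ (B x) = Λ x) :
    Dl.ExtO (m + 1) M (fam Φ 1) := by
  refine ⟨tL G, tt_eq, ?_⟩
  rintro h u x c hu ⟨z, rfl, rfl⟩
  have hu' : Adm1 h u := (adm_iff h u).1 hu
  obtain ⟨z', h3, h4⟩ := hB h u z hu'
  refine ⟨cl ℚ (m + 2) _ z', ⟨z', ?_, rfl⟩, ?_⟩
  · refine Eq.trans h3 ?_
    have h9 : (fun z : Cen h => uL G (gU G (z : G))) =
        fun z : Cen h => Dl.uu (Dl.gu (z : G)) := by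
      funext g
      rw [uu_eq]
      rfl
    rw [AS1.chU_eq, uu_eq]
    change insL (m + 1) (tL G) (insL m (uL G u) (IC.map ℚ m (fun z : Cen h => uL G (gU G (z : G)))
      (ch ℚ m (Cen h) z))) = _
    rw [h9]
    rfl
  · have h5 : B (sym1 h (cl ℚ m (Cen h) z) u) =
      KB.mk (m + 1) (MonoidAlgebra ℤ G) 1 (cl ℚ (m + 2) _ z') := h4
    refine Eq.trans (congrArg Φ h5.symm) ?_
    rw [h2, hΛ _ _ _ hu']
    rfl

end ext

/-! ## Undetected symbols -/

theorem L_ud {n : ℕ} {G : Type} [Group G] {L : ∀ (_ : ℕ) (h : G), Dl.Coh (n + 1) (Cen h)}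
    (hd : ∀ (p : ℕ) (h : G), IsOfFinOrder h → h ≠ 1 → Dl.Det (L p h)) {Λ : Src n G →ₗ[ℚ] ℚ}
    (hΛ : ∀ (p : ℕ) (h : G) (c : HQ (n + 1) (Cen h)), FJA.Adm p h → Λ (sym p h c) = (L p h).ev c)
    (x : Src n G) (hx : x ∈ UdSrc n G) : Λ x = 0 := by
  unfold UdSrc at hx
  induction hx using Submodule.span_induction with
  | mem x hx =>
    obtain ⟨p, h, c, hadm, hc, rfl⟩ := hx
    rw [hΛ p h c hadm]
    refine det_und (hd p h hadm.2.1 ?_) ((und_iff c).2 hc)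
    rintro rfl
    have h1 := hadm.2.2
    rw [orderOf_one] at h1
    exact hadm.1.one_lt.ne' (Nat.dvd_one.1 h1)
  | zero => exact map_zero Λ
  | add x y _ _ hx hy => rw [map_add, hx, hy, add_zero]
  | smul q x _ hx => rw [map_smul, hx, smul_zero]

theorem M_ud {m : ℕ} {G : Type} [Group G]
    {M : ∀ (h : G) (_ : (MonoidAlgebra ℤ G)ˣ), Dl.Coh m (Cen h)}
    (hd : ∀ (h : G) (u : (MonoidAlgebra ℤ G)ˣ), IsOfFinOrder h → h ≠ 1 → Dl.Det (M h u))
    {Λ : Src1 m G →ₗ[ℚ] ℚ}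
    (hΛ : ∀ (h : G) (c : HQ m (Cen h)) (u : (MonoidAlgebra ℤ G)ˣ), Adm1 h u →
      Λ (sym1 h c u) = (M h u).ev c)
    (y : Src1 m G) (hy : y ∈ UdSrc1 m G) : Λ y = 0 := by
  have hy' := udSrc1_le m G hy
  clear hy
  unfold Und1 at hy'
  induction hy' using Submodule.span_induction with
  | mem x hx =>
    obtain ⟨h, c, u, h1, h2, h3, rfl⟩ := hx
    by_cases hu : Adm1 h u
    · rw [hΛ h c u hu]
      exact det_und (hd h u h1 h2) h3
    · rw [sym1_invalid h c u hu, map_zero]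
  | zero => exact map_zero Λ
  | add x y _ _ hx hy => rw [map_add, hx, hy, add_zero]
  | smul q x _ hx => rw [map_smul, hx, smul_zero]

section res

variable {n : ℕ} {G : Type} [Group G]

theorem hom_ext {R : Type} [Ring R] {a b : ℕ}
    {s : Dl.GLr R a × Dl.GLr R b →* Dl.GLr R (a + b)} (h : ∀ X, Dl.Blk X.1 X.2 (s X)) :
    s = bsumHom R a b :=
  MonoidHom.ext fun X => Units.ext (h X)

theorem poly_ext {R S : Type} [Ring R] [Ring S] {f g : Polynomial R →+* S}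
    (h1 : f.comp Polynomial.C = g.comp Polynomial.C) (h2 : f Polynomial.X = g Polynomial.X) :
    f = g :=
  Polynomial.ringHom_ext (fun a => RingHom.congr_fun h1 a) h2

theorem exists_Phi {F : ∀ r : ℕ, Dl.Coh (n + 1) (Dl.GLr (Dl.LG G) r)} (hF : Dl.IsKn F) :
    ∃ Φ : KB n (MonoidAlgebra ℤ G) →ₗ[ℚ] ℚ, ∀ r, fam Φ r = F r := by
  let R := MonoidAlgebra ℤ G
  let F' : ∀ r : ℕ, HQ (n + 1) (GLn (LaurentPolynomial R) r) →ₗ[ℚ] ℚ := F
  let Φ0 : HGL (n + 1) (LaurentPolynomial R) →ₗ[ℚ] ℚ := DirectSum.toModule ℚ ℕ ℚ F'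
  have h0 : ∀ (r : ℕ) (c : HQ (n + 1) (GLn (LaurentPolynomial R) r)),
      Φ0 (HGL.of (n + 1) (LaurentPolynomial R) r c) = (F r).ev c := fun r c =>
    DirectSum.toModule_lof (M := fun r => HQ (n + 1) (GLn (LaurentPolynomial R) r)) (φ := F') ℚ r c
  have hle0 : blockRel (n + 1) (LaurentPolynomial R) ≤ LinearMap.ker Φ0 := by
    unfold blockRel
    rw [Submodule.span_le]
    rintro _ ⟨a, b, c, rfl⟩
    rw [SetLike.mem_coe, LinearMap.mem_ker, map_sub, map_sub, h0, h0, h0, sub_sub, sub_eq_zero]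
    obtain ⟨s, h1, h2⟩ := hF.1 a b
    rw [hom_ext h1] at h2
    have h3 := congrArg (fun g : Dl.Coh (n + 1) (Dl.GLr (Dl.LG G) a ×
      Dl.GLr (Dl.LG G) b) => g.ev c) h2
    exact h3
  let Φ1 : KQ (n + 1) (LaurentPolynomial R) →ₗ[ℚ] ℚ :=
    (blockRel (n + 1) (LaurentPolynomial R)).liftQ Φ0 hle0
  have h1 : ∀ (r : ℕ) (c : HQ (n + 1) (GLn (LaurentPolynomial R) r)),
      Φ1 (KQ.mk (n + 1) (LaurentPolynomial R) r c) = (F r).ev c := h0
  have him : ∀ (k : ℤ) (f : Polynomial R →+* LaurentPolynomial R), (k = 1 ∨ k = -1) →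
      f.comp Polynomial.C = Dl.cc → f Polynomial.X = Dl.tk G k →
      KQ.im (n + 1) f ≤ LinearMap.ker Φ1 := by
    intro k f hk hf1 hf2
    unfold KQ.im
    rw [Submodule.span_le]
    rintro _ ⟨r, c, rfl⟩
    rw [SetLike.mem_coe, LinearMap.mem_ker, h1]
    obtain ⟨j, hj1, hj2, hj3⟩ := hF.2 k hk
    have h2 : f = j := poly_ext (hf1.trans hj1.symm) (hf2.trans hj2.symm)
    have h3 := congrArg (fun g : Dl.Coh (n + 1) (Dl.GLr (Polynomial R) r) => g.ev c) (hj3 r)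
    rw [← h2] at h3
    exact h3
  have hle1 : KQ.im (n + 1) (posIncl R) ⊔ KQ.im (n + 1) (negIncl R) ≤ LinearMap.ker Φ1 :=
    sup_le (him 1 _ (Or.inl rfl) (RingHom.ext fun x => pos_C x) pos_X)
      (him (-1) _ (Or.inr rfl) (RingHom.ext fun x => neg_C x) neg_X)
  refine ⟨(KQ.im (n + 1) (posIncl R) ⊔ KQ.im (n + 1) (negIncl R)).liftQ Φ1 hle1, fun r => ?_⟩
  exact ext_ev fun c => h1 r c

/-- The composition of a functional with the map on the part with coefficients `K_{-1}`. -/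
def resL (Λ : Src n G →ₗ[ℚ] ℚ) (p : ℕ) (h : G) : Dl.Coh (n + 1) (Cen h) :=
  (show HQ (n + 1) (Cen h) →ₗ[ℚ] ℚ from
    { toFun := fun c => Λ (sym p h c)
      map_add' := fun c c' => by rw [sym_add, map_add]
      map_smul' := fun q c => by rw [sym_smul, map_smul, RingHom.id_apply] })

theorem resL_ev (Λ : Src n G →ₗ[ℚ] ℚ) (p : ℕ) (h : G) (c : HQ (n + 1) (Cen h)) :
    (resL Λ p h).ev c = Λ (sym p h c) := rfl

theorem cj_eq {h h' x : G} {u : Cen h →* Cen h'} (hu : Dl.Cj x u)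
    {H : ∀ z ∈ Cen h, x * z * x⁻¹ ∈ Cen h'} : u = cHom x H :=
  MonoidHom.ext fun z => Subtype.ext (hu z)

theorem isL_resL (Λ : Src n G →ₗ[ℚ] ℚ) : Dl.IsL (resL Λ) := by
  refine ⟨fun p h h' x j k u hp hf hd hz hjk hu => ?_, fun h u hf hu => ?_⟩
  · refine ext_ev fun c => ?_
    rw [ev_pull, resL_ev, resL_ev, ← sym_conj p h x c]
    have hz1 : h' ∈ Subgroup.zpowers (x * h * x⁻¹) := hz ▸ Subgroup.mem_zpowers h'
    have hz2 : x * h * x⁻¹ ∈ Subgroup.zpowers h' := hz ▸ Subgroup.mem_zpowers (x * h * x⁻¹)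
    have hadm : FJA.Adm p (x * h * x⁻¹) := (adm_conj x).2 ⟨hp, hf, hd⟩
    have h1 := sym_frob p (x * h * x⁻¹) h' hz1 j k (HQ.map (n + 1) (cHom x (cHom_conj x h)) c)
      hadm hz2 hjk
    rw [← h1]
    congr 2
    rw [HQ_map_eq, HQ_map_eq, ← Hk.map_comp]
    congr 2
    refine MonoidHom.ext fun z => Subtype.ext ((hu z).trans ?_)
    change x * (z : G) * x⁻¹ = 1 * (x * (z : G) * x⁻¹) * 1⁻¹
    rw [one_mul, inv_one, mul_one]
  · refine ext_ev fun c => ?_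
    have h3 : ∀ (s : Finset ℕ) (g : ℕ → Dl.Coh (n + 1) (Cen h)),
        (∑ i ∈ s, g i).ev c = ∑ i ∈ s, (g i).ev c := by
      intro s g
      exact LinearMap.sum_apply s g c
    rw [h3, ev_zero]
    have h1 := congrArg Λ (sym_sum h c hf)
    rw [map_sum, map_zero] at h1
    rw [← h1]
    refine Finset.sum_congr rfl fun p _ => ?_
    rw [h3, map_sum]
    refine Finset.sum_congr rfl fun a _ => ?_
    rw [ev_pull, resL_ev, cj_eq (hu a) (H := cHom_pow h (Subgroup.pow_mem _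
      (Subgroup.mem_zpowers h) a))]
    rfl

/-- The composition of a functional with the map on the part with coefficients `K_1`. -/
def resM {m : ℕ} (Λ : Src1 m G →ₗ[ℚ] ℚ) (h : G) (u : (MonoidAlgebra ℤ G)ˣ) :
    Dl.Coh m (Cen h) :=
  (show HQ m (Cen h) →ₗ[ℚ] ℚ from
    { toFun := fun c => Λ (sym1 h c u)
      map_add' := fun c c' => by rw [sym1_add, map_add]
      map_smul' := fun q c => by rw [sym1_smul, map_smul, RingHom.id_apply] })

theorem resM_ev {m : ℕ} (Λ : Src1 m G →ₗ[ℚ] ℚ) (h : G) (u : (MonoidAlgebra ℤ G)ˣ)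
    (c : HQ m (Cen h)) : (resM Λ h u).ev c = Λ (sym1 h c u) := rfl

theorem isM_resM {m : ℕ} (Λ : Src1 m G →ₗ[ℚ] ℚ) : Dl.IsM (resM Λ) := by
  refine ⟨fun h u v hu hv => ?_, fun h h' x u w hf hz hu hw => ?_⟩
  · refine ext_ev fun c => ?_
    rw [ev_add, resM_ev, resM_ev, resM_ev,
      sym1_mul h c u v ((adm_iff h u).1 hu) ((adm_iff h v).1 hv), map_add]
  · refine ext_ev fun c => ?_
    rw [ev_pull, resM_ev, resM_ev, ← sym1_conj h x c u]
    have hf' : IsOfFinOrder (x * h * x⁻¹) := by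
      rw [← orderOf_pos_iff, orderOf_conj, orderOf_pos_iff]
      exact hf
    have h1 := sym1_res (x * h * x⁻¹) h' hz (HQ.map m (cHom x (cHom_conj x h)) c)
      (gU G x * u * (gU G x)⁻¹) hf' ((adm_iff _ _).1 hu)
    rw [← h1]
    congr 2
    rw [HQ_map_eq, HQ_map_eq, ← Hk.map_comp]
    congr 2
    refine MonoidHom.ext fun z => Subtype.ext ((hw z).trans ?_)
    change x * (z : G) * x⁻¹ = 1 * (x * (z : G) * x⁻¹) * 1⁻¹
    rw [one_mul, inv_one, mul_one]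

theorem tL_comm (g : G) : tL G * uL G (gU G g) = uL G (gU G g) * tL G := by
  have h1 := WHX.tI_comm (R := MonoidAlgebra ℤ G) 1 (uL G (gU G g))
  rw [WHX.tI_tL] at h1
  exact h1

theorem res_f (Φ : KB n (MonoidAlgebra ℤ G) →ₗ[ℚ] ℚ) :
    ∃ f : Dl.Coh n G, Dl.ExtZ f (fam Φ 1) := by
  obtain ⟨X, hX⟩ := WHX.exists_isCr n ((uL G).comp (gU G)) (tL G) tL_comm
  refine ⟨(show Hk ℚ n G →ₗ[ℚ] ℚ from (Φ ∘ₗ KB.mk n (MonoidAlgebra ℤ G) 1) ∘ₗ X), tL G, tt_eq, ?_⟩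
  rintro x c ⟨z, rfl, rfl⟩
  obtain ⟨z', h1, h2⟩ := hX z
  refine ⟨cl ℚ (n + 1) _ z', ⟨z', ?_, rfl⟩, ?_⟩
  · refine Eq.trans h1 ?_
    have h9 : ((uL G).comp (gU G) : G → GLn (LaurentPolynomial (MonoidAlgebra ℤ G)) 1) =
        fun g : G => Dl.uu (Dl.gu g) := by
      funext g
      rw [uu_eq]
      rfl
    rw [h9]
    rfl
  · change Φ (KB.mk n (MonoidAlgebra ℤ G) 1 (cl ℚ (n + 1) _ z')) =
      Φ (KB.mk n (MonoidAlgebra ℤ G) 1 (X (cl ℚ n G z)))
    rw [h2]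

end res

end DUA

open DUA in
/-- The theorem in dual form. -/
theorem t_DUA (h : S_ALL8 (fun G _ => ∀ p : ℕ, p.Prime → TorP G p)) : Dl.Main := by
  classical
  obtain ⟨ε, hε⟩ := h
  refine ⟨fun G _ => t_WHF G, fun N p => (ε N p).n, fun N p => (ε N p).mat,
    fun N p => (ε N p).idem, fun G _ n => ⟨fun F hF => ?_, fun hn s hs => ?_⟩⟩
  · obtain ⟨A, B, hA, hB, -, -, -⟩ := hε G
    obtain ⟨Φ, hΦ⟩ := exists_Phi hF
    obtain rfl : fam Φ = F := funext hΦ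
    obtain ⟨f, hf⟩ := res_f Φ
    cases n with
    | zero =>
      refine ⟨⟨f, resL (Φ ∘ₗ A 0), fun _ _ => 0, isL_resL _, ⟨fun h u v _ _ => ?_,
        fun h h' x u w _ _ _ _ => ?_⟩⟩, hf,
        extN (Λ := Φ ∘ₗ A 0) (hA 0) (fun p h c _ => rfl) Φ (fun x => rfl),
        trivial⟩
      · exact (add_zero _).symm
      · exact ext_ev fun c => rfl
    | succ m =>
      exact ⟨⟨f, resL (Φ ∘ₗ A (m + 1)), resM (Φ ∘ₗ B m), isL_resL _, isM_resM _⟩, hf,
        extN (Λ := Φ ∘ₗ A (m + 1)) (hA (m + 1)) (fun p h c _ => rfl) Φ (fun x => rfl),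
        extO (Λ := Φ ∘ₗ B m) (hB m) (fun h c u _ => rfl) Φ (fun x => rfl)⟩
  obtain ⟨f, L, M, hL, hM⟩ := s
  have hdL : ∀ (p : ℕ) (h : G), IsOfFinOrder h → h ≠ 1 → Dl.Det (L p h) :=
    fun p h h1 h2 => (hs h h1 h2).1 p
  have hdM : ∀ (h : G) (u : (MonoidAlgebra ℤ G)ˣ), IsOfFinOrder h → h ≠ 1 → Dl.Det (M h u) :=
    fun h u h1 h2 => (hs h h1 h2).2 u
  change ∃ F : ∀ r : ℕ, Dl.Coh (n + 1) (Dl.GLr (Dl.LG G) r), Dl.IsKn F ∧
    Dl.ExtZ f (F 1) ∧ Dl.ExtN _ L F ∧ Dl.ExtO n M (F 1)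
  obtain ⟨A, B, hA, hB, htau, h0, h1⟩ := hε G
  obtain ⟨lt, hlt0, hlt⟩ := t_KUN (show Hk ℚ n G →ₗ[ℚ] ℚ from f)
  obtain ⟨ΛL, hΛ0⟩ := exists_L hL
  have hΛL : ∀ (p : ℕ) (h : G) (c : HQ (n + 1) (Cen h)), FJA.Adm p h →
      ΛL (sym p h c) = (L p h).ev c := fun p h c hp => by rw [hΛ0, if_pos hp]
  have hlin : ∀ a ∈ inG n G, lt a = 0 := by
    rintro _ ⟨c, rfl⟩
    exact hlt0 c
  cases n with
  | zero =>
    obtain ⟨Φ, hΦ⟩ := exists_ext ((FJA.tau 0 G).coprod (A 0)) (LinearMap.coprod lt ΛL) (by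
      rintro ⟨a, x⟩ hw
      obtain ⟨h2, h3⟩ := h0 a x hw
      change lt a + ΛL x = 0
      rw [hlin a h2, L_ud hdL hΛL x h3, add_zero])
    refine ⟨fam Φ, isKn_fam Φ, extZ f Φ lt hlt (fun a => ?_), extN (hA 0) hΛL Φ (fun x => ?_),
      trivial⟩
    · have h2 := hΦ (a, 0)
      simp only [LinearMap.coprod_apply, map_zero, add_zero] at h2
      exact h2
    · have h2 := hΦ (0, x)
      simp only [LinearMap.coprod_apply, map_zero, zero_add] at h2
      exact h2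
  | succ m =>
    obtain ⟨ΛM, hΛ1⟩ := exists_M (m := m) hM
    have hΛM : ∀ (h : G) (c : HQ m (Cen h)) (u : (MonoidAlgebra ℤ G)ˣ), Adm1 h u →
        ΛM (sym1 h c u) = (M h u).ev c := fun h c u hu => by rw [hΛ1, if_pos hu]
    obtain ⟨Φ, hΦ⟩ := exists_ext ((FJA.tau (m + 1) G).coprod ((A (m + 1)).coprod (B m)))
      (LinearMap.coprod lt (LinearMap.coprod ΛL ΛM)) (by
        rintro ⟨a, x, y⟩ hw
        have hw' : FJA.tau (m + 1) G a + A (m + 1) x + B m y = 0 := by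
          rw [add_assoc]
          exact hw
        obtain ⟨h2, h3, h4⟩ := h1 m (hn.elim (fun h => Or.inr (by omega)) Or.inl) a x y hw'
        change lt a + (ΛL x + ΛM y) = 0
        rw [hlin a h2, L_ud hdL hΛL x h3, M_ud hdM hΛM y h4, add_zero, add_zero])
    refine ⟨fam Φ, isKn_fam Φ, extZ f Φ lt hlt (fun a => ?_),
      extN (hA (m + 1)) hΛL Φ (fun x => ?_), extO (hB m) hΛM Φ (fun y => ?_)⟩
    · have h2 := hΦ (a, 0, 0)
      simp only [LinearMap.coprod_apply, map_zero, add_zero] at h2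
      exact h2
    · have h2 := hΦ (0, x, 0)
      simp only [LinearMap.coprod_apply, map_zero, add_zero, zero_add] at h2
      exact h2
    · have h2 := hΦ (0, 0, y)
      simp only [LinearMap.coprod_apply, map_zero, add_zero, zero_add] at h2
      exact h2

end Pool.Agent.FJB
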