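import Pool.Agent.AUK.FJA.P_AVS
import Pool.Agent.AUK.FJB.St

/-!
# EGL: the Gauss congruence for the null functions of CULPd
-/

set_option autoImplicit false

open Matrix Pool.Agent.WhK Pool.Agent.Lib25 CategoryTheory Pool.Agent.FJA

noncomputable section

namespace Pool.Agent.FJB

namespace EGL

/-- the functional on the chain of a formal combination of symbols -/
theorem TS_chn1 (k : Type) [Field k] [CharZero k] {G : Type} [Group G] {m : ℕ}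
    (η : Rec (G × Multiplicative ℤ) (Fin (m + 3)) → ℚ) (K : ℕ) (D : Sy1 m G →₀ ℚ) :
    TS k η K (chn1 m G D) = ∑ x ∈ D.support, ((D x : ℚ) : k) * TS k η K x.chn := by
  have h : chn1 m G D = ∑ x ∈ D.support, D x • x.chn := rfl
  rw [h, map_sum]
  refine Finset.sum_congr rfl fun x _ => ?_
  rw [map_smul, Rat.smul_def]

/-- the recorded paths of a balanced path are balanced -/
theorem twX_bal {G : Type} [Group G] {N : ℕ} (φ : Cyc N →* G) {M r : ℕ}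
    (X : Fin M → PZ (φ (gen N)) × Fin r) {μ : Rec (Cyc N) (Fin r)} (h : μ ∈ Bal (Cyc N) (Fin r)) :
    twX φ X μ ∈ Bal (G × Multiplicative ℤ) (Fin M) := by
  obtain ⟨n, hn⟩ := h
  exact ⟨n, fun i => by
    change ((μ.lst (X i).2).map _).length = n
    rw [List.length_map, hn]⟩

theorem norm_nat_le_one (ℓ : ℕ) [Fact ℓ.Prime] (n : ℕ) : ‖(n : ℚ_[ℓ])‖ ≤ 1 := by
  have := Padic.norm_int_le_one (p := ℓ) (n : ℤ)
  rwa [Int.cast_natCast] at this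

end EGL

/-- EGL. -/
theorem t_EGL (hGSE : S_GSE) (hGHT : S_GHT) (hPTC : S_PTC) : S_EGL := by
  classical
  intro ℓ _ G _ m Pt dl hP D
  obtain ⟨hSec, hRot, -⟩ := t_AVS (G × Multiplicative ℤ) Pt dl hP
  choose W hW hWb using fun x : Sy1 m G => hGSE ℓ G x.N m x.φ x.u x.w
  have hNp : ∀ x : Sy1 m G, 0 < x.N := fun x => Nat.pos_of_ne_zero x.pos.out
  have hcp : ∀ x : Sy1 m G, 0 < W x * x.N ^ (m + 2) * (D x).den := fun x =>
    Nat.mul_pos (Nat.mul_pos (hW x) (pow_pos (hNp x) _)) (D x).pos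
  refine ⟨∏ x ∈ D.support, (W x * x.N ^ (m + 2) * (D x).den),
    Finset.prod_pos fun x _ => hcp x, ?_⟩
  intro A L hA htr hden k
  -- one symbol
  have hone : ∀ x : Sy1 m G, ‖((W x * (A * x.N ^ (m + 2)) : ℕ) : ℚ_[ℓ]) *
      (TS ℚ_[ℓ] L (ℓ ^ (k + 1)) x.chn - TS ℚ_[ℓ] (fun μ => L (μ ^ ℓ)) (ℓ ^ k) x.chn)‖ ≤
      (ℓ : ℝ) ^ (-(k + 1 : ℤ)) := by
    intro x
    refine hWb x (A * x.N ^ (m + 2)) L (Nat.mul_pos hA (pow_pos (hNp x) _)) ?_ ?_ k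
    · intro X μ hμ ν hν
      have hm : ∀ μ ν : Rec (Cyc x.N) (Fin 2), twX x.φ X (μ * ν) = twX x.φ X μ * twX x.φ X ν :=
        fun μ ν => (hGHT G x.N x.φ (m + 3) 2 (fun _ _ => 0) (fun _ _ _ => rfl) (avS Pt) hSec hRot
          X μ ν).1
      rw [hm, hm]
      exact htr _ (EGL.twX_bal x.φ X hμ) _ (EGL.twX_bal x.φ X hν)
    · intro X μ hμ
      obtain ⟨z, hz⟩ := hden x.N (twX x.φ X μ) (hNp x) (fun h1 _ i =>
        (hPTC G x.N x.φ Pt dl hP (m + 3) 2 X μ i (h1 i)).2)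
      exact ⟨z, hz⟩
  rw [EGL.TS_chn1, EGL.TS_chn1, ← Finset.sum_sub_distrib, Finset.mul_sum]
  refine IsUltrametricDist.norm_sum_le_of_forall_le_of_nonneg (by positivity) ?_
  intro x hx
  have hsplit : ((∏ x ∈ D.support, (W x * x.N ^ (m + 2) * (D x).den)) * A : ℕ) =
      (∏ y ∈ D.support.erase x, (W y * y.N ^ (m + 2) * (D y).den)) *
        ((D x).den * (W x * (A * x.N ^ (m + 2)))) := by
    rw [← Finset.mul_prod_erase _ _ hx]
    ring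
  have hDx : (((D x).den : ℕ) : ℚ_[ℓ]) * ((D x : ℚ) : ℚ_[ℓ]) = (((D x).num : ℤ) : ℚ_[ℓ]) := by
    have h := Rat.den_mul_eq_num (D x)
    exact_mod_cast congrArg (fun r : ℚ => ((r : ℚ) : ℚ_[ℓ])) h
  have heq : (((∏ x ∈ D.support, (W x * x.N ^ (m + 2) * (D x).den)) * A : ℕ) : ℚ_[ℓ]) *
      (((D x : ℚ) : ℚ_[ℓ]) * TS ℚ_[ℓ] L (ℓ ^ (k + 1)) x.chn -
        ((D x : ℚ) : ℚ_[ℓ]) * TS ℚ_[ℓ] (fun μ => L (μ ^ ℓ)) (ℓ ^ k) x.chn) =
      ((∏ y ∈ D.support.erase x, (W y * y.N ^ (m + 2) * (D y).den) : ℕ) : ℚ_[ℓ]) *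
        ((((D x).num : ℤ) : ℚ_[ℓ]) * (((W x * (A * x.N ^ (m + 2)) : ℕ) : ℚ_[ℓ]) *
      (TS ℚ_[ℓ] L (ℓ ^ (k + 1)) x.chn - TS ℚ_[ℓ] (fun μ => L (μ ^ ℓ)) (ℓ ^ k) x.chn))) := by
    rw [hsplit, ← hDx]
    push_cast
    ring
  rw [heq, norm_mul, norm_mul]
  calc _ ≤ 1 * (1 * (ℓ : ℝ) ^ (-(k + 1 : ℤ))) := by
        refine mul_le_mul (EGL.norm_nat_le_one ℓ _) ?_ (by positivity) zero_le_one
        exact mul_le_mul (Padic.norm_int_le_one _) (hone x) (norm_nonneg _) zero_le_one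
    _ = _ := by rw [one_mul, one_mul]

end Pool.Agent.FJB
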