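import Pool.Agent.AUK.FJA.P_ADD
import Pool.Agent.AUK.FJA.P_SUP
import Pool.Agent.AUK.FJA.P_TWI
import Pool.Agent.AUK.FJA.Step7
import Pool.Agent.AUK.FJB.St

/-!
# Module GSE: the Gauss congruence on the chain `E1`
-/

set_option autoImplicit false

open Matrix Pool.Agent.WhK Pool.Agent.Lib25 CategoryTheory Pool.Agent.FJA

noncomputable section

namespace Pool.Agent.FJB

namespace GSE

variable {G : Type} [Group G] {N : ℕ}

/-- The vertices commute with the image of `ffC φ`. -/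
theorem emb_comm (φ : Cyc N →* G) (z : PZ (φ (gen N))) (x : Cyc N) :
    Commute (emb (φ (gen N)) z) (ffC φ x) := by
  refine Prod.ext ?_ ?_
  · exact commute_cyc φ z.1 x
  · exact mul_comm _ _

/-- `twX φ X` is multiplicative. -/
theorem twX_mul (φ : Cyc N →* G) {M r : ℕ} (X : Fin M → PZ (φ (gen N)) × Fin r)
    (μ ν : Rec (Cyc N) (Fin r)) : twX φ X (μ * ν) = twX φ X μ * twX φ X ν := by
  unfold twX
  rw [map_mul]
  exact (TWI.twH (ffC φ) (fun l => emb (φ (gen N)) (X l).1)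
    (fun l x => emb_comm φ (X l).1 x)).map_mul _ _

theorem twX_one (φ : Cyc N →* G) {M r : ℕ} (X : Fin M → PZ (φ (gen N)) × Fin r) :
    twX φ X (1 : Rec (Cyc N) (Fin r)) = 1 := by
  unfold twX
  rw [map_one]
  exact (TWI.twH (ffC φ) (fun l => emb (φ (gen N)) (X l).1)
    (fun l x => emb_comm φ (X l).1 x)).map_one

theorem twX_pow (φ : Cyc N →* G) {M r : ℕ} (X : Fin M → PZ (φ (gen N)) × Fin r)
    (μ : Rec (Cyc N) (Fin r)) (e : ℕ) : twX φ X (μ ^ e) = twX φ X μ ^ e := by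
  induction e with
  | zero => rw [pow_zero, pow_zero, twX_one]
  | succ e ih => rw [pow_succ, pow_succ, twX_mul, ih]

/-- A common denominator. -/
theorem den {A : Type} (κ : A →₀ ℚ) : ∃ W : ℕ, 0 < W ∧ ∀ x, ∃ z : ℤ, (W : ℚ) * κ x = z := by
  classical
  refine ⟨∏ x ∈ κ.support, (κ x).den, Finset.prod_pos fun x _ => (κ x).den_pos, fun x => ?_⟩
  by_cases hx : x ∈ κ.support
  · rw [← Finset.mul_prod_erase _ _ hx]
    refine ⟨((∏ y ∈ κ.support.erase x, (κ y).den : ℕ) : ℤ) * (κ x).num, ?_⟩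
    push_cast
    have h1 : ((κ x).den : ℚ) * κ x = (κ x).num := by
      rw [mul_comm]
      exact Rat.mul_den_eq_num _
    rw [mul_comm ((κ x).den : ℚ), mul_assoc, h1]
  · exact ⟨0, by rw [Finsupp.notMem_support_iff.1 hx]; simp⟩

/-- The integral matrices. -/
theorem niu (ℓ : ℕ) [Fact ℓ.Prime] {C : Type} [Group C] (u : (MonoidAlgebra ℤ C)ˣ) :
    NIU (sc (uK ℚ_[ℓ] u)) := by
  refine ADD.niu_sc ?_ ?_
  · intro μ
    change ‖((MonoidAlgebra.mapRingHom C (Int.castRingHom ℚ_[ℓ]))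
      (u : MonoidAlgebra ℤ C)).coeff μ‖ ≤ 1
    rw [MonoidAlgebra.coeff_mapRingHom]
    exact Padic.norm_int_le_one _
  · intro μ
    change ‖((MonoidAlgebra.mapRingHom C (Int.castRingHom ℚ_[ℓ]))
      ((u⁻¹ : (MonoidAlgebra ℤ C)ˣ) : MonoidAlgebra ℤ C)).coeff μ‖ ≤ 1
    rw [MonoidAlgebra.coeff_mapRingHom]
    exact Padic.norm_int_le_one _

end GSE

open GSE in
/-- GSE: the Gauss congruence on the chain `E1`. -/
theorem t_GSE (hsla : S_SLA) : S_GSE := by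
  classical
  intro ℓ _ G _ N _ m φ u w
  obtain ⟨W, hW, hden⟩ := den (k2 m w)
  refine ⟨W, hW, fun D η hD htr hint k => ?_⟩
  have e1 := hsla ℚ_[ℓ] G N m (ℓ ^ (k + 1)) φ u w η
  have e2 := hsla ℚ_[ℓ] G N m (ℓ ^ k) φ u w (fun μ => η (μ ^ ℓ))
  have e3 : SL φ (fun μ => η (μ ^ ℓ)) (k2 m w) = fun ν => SL φ η (k2 m w) (ν ^ ℓ) := by
    funext ν
    unfold SL
    refine Finsupp.sum_congr fun X _ => ?_
    rw [twX_pow]
  rw [e1, e2, e3]
  have hstep := Step7.step t_SUP (ℓ := ℓ) (Bal (Cyc N) (Fin 2)) k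
    (fun ν => ((W * D : ℕ) : ℚ) * SL φ η (k2 m w) ν) ?_ ?_
    ![1, sc (uK ℚ_[ℓ] u)] ?_ ?_
  · have l1 := (t_TXlin ℚ_[ℓ] (Cyc N) (Fin 1) 2 (ℓ ^ (k + 1)) ![1, sc (uK ℚ_[ℓ] u)]).2
      ((W * D : ℕ) : ℚ) (SL φ η (k2 m w))
    have l2 := (t_TXlin ℚ_[ℓ] (Cyc N) (Fin 1) 2 (ℓ ^ k) ![1, sc (uK ℚ_[ℓ] u)]).2
      ((W * D : ℕ) : ℚ) (fun ν => SL φ η (k2 m w) (ν ^ ℓ))
    rw [l1, l2, ← mul_sub] at hstep
    rw [Rat.cast_natCast] at hstep
    exact hstep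
  · intro μ hμ ν hν
    congr 1
    unfold SL
    refine Finsupp.sum_congr fun X _ => ?_
    rw [htr X μ hμ ν hν]
  · intro μ hμ _
    unfold SL
    rw [Finsupp.sum, Finset.mul_sum]
    choose z hz using fun X : Fin (m + 3) → PZ (φ (gen N)) × Fin 2 => hint X μ hμ
    choose z' hz' using hden
    refine ⟨∑ X ∈ (k2 m w).support, z' X * z X, ?_⟩
    push_cast
    refine Finset.sum_congr rfl fun X _ => ?_
    rw [← hz, ← hz']
    ring
  · intro i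
    fin_cases i
    · exact ADD.niu_one
    · exact niu ℓ u
  · intro a b μ hμ
    obtain ⟨T, hT1, hT2⟩ := t_SUP.2.1 ℚ_[ℓ] (Cyc N) (Fin 1) 2 ![1, sc (uK ℚ_[ℓ] u)]
    exact ⟨1, hT1 μ (hT2 a b μ hμ)⟩

end Pool.Agent.FJB
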