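import Pool.Agent.AUK.FJB.St

/-!
# KBD: boundaries of the chain `w × [u] × [t]`
-/

set_option autoImplicit false

open Matrix Pool.Agent.WhK Pool.Agent.Lib25 CategoryTheory Pool.Agent.FJA

noncomputable section

namespace Pool.Agent.FJB

namespace KBD

/-- The slant product as a linear map. -/
def SLl {G : Type} [Group G] {N : ℕ} (φ : Cyc N →* G) {M r : ℕ}
    (η : Rec (G × Multiplicative ℤ) (Fin M) → ℚ) (ν : Rec (Cyc N) (Fin r)) :
    ((Fin M → PZ (φ (gen N)) × Fin r) →₀ ℚ) →ₗ[ℚ] ℚ :=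
  Finsupp.linearCombination ℚ fun X => η (twX φ X ν)

theorem SL_eq {G : Type} [Group G] {N : ℕ} (φ : Cyc N →* G) {M r : ℕ}
    (η : Rec (G × Multiplicative ℤ) (Fin M) → ℚ) (ν : Rec (Cyc N) (Fin r))
    (κ : (Fin M → PZ (φ (gen N)) × Fin r) →₀ ℚ) : SL φ η κ ν = SLl φ η ν κ := rfl

theorem part_a {G : Type} [Group G] {N M r : ℕ} (φ : Cyc N →* G)
    (η : Rec (G × Multiplicative ℤ) (Fin M) → ℚ)
    (κ : (Fin (M + 1) → PZ (φ (gen N)) × Fin r) →₀ ℚ) (ν : Rec (Cyc N) (Fin r)) :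
    SL φ (cobR η) κ ν = SL φ η (bd ℚ _ M κ) ν := by
  rw [SL_eq, SL_eq]
  have h : SLl φ (cobR η) ν = (SLl φ η ν).comp (bd ℚ (PZ (φ (gen N)) × Fin r) M) := by
    apply Finsupp.lhom_ext
    intro X c
    rw [LinearMap.comp_apply, PRI.bd_single, map_smul, map_sum]
    unfold SLl
    rw [Finsupp.linearCombination_single]
    simp only [Finsupp.linearCombination_single, smul_eq_mul]
    rfl
  rw [h]
  rfl

theorem hinv {G : Type} [Group G] {h : G} {M : ℕ} {V : Type} [AddCommGroup V] [Module ℚ V]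
    (Φ : ((Fin M → PZ h × Fin 2) →₀ ℚ) →ₗ[ℚ] V)
    (hΦ : ∀ (g : PZ h) (X : Fin M → PZ h × Fin 2),
      Φ (Finsupp.single (fun i => (g * (X i).1, (X i).2)) 1) = Φ (Finsupp.single X 1))
    (g : PZ h) (x : (Fin M → PZ h × Fin 2) →₀ ℚ) :
    Φ (hmap ℚ (fun v : PZ h × Fin 2 => (g * v.1, v.2)) M x) = Φ x := by
  have h1 : Φ.comp (hmap ℚ (fun v : PZ h × Fin 2 => (g * v.1, v.2)) M) = Φ := by
    apply Finsupp.lhom_ext
    intro X c
    rw [LinearMap.comp_apply, PRI.hmap_single]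
    have e : ∀ Y : Fin M → PZ h × Fin 2, Finsupp.single Y c = c • Finsupp.single Y (1 : ℚ) := by
      intro Y
      rw [Finsupp.smul_single, smul_eq_mul, mul_one]
    rw [e, e X, map_smul, map_smul, hΦ g X]
  exact LinearMap.congr_fun h1 x

theorem mt_eq {G : Type} [Group G] {h : G} {r : ℕ} : (mt : PZ h × Fin r → PZ h × Fin r) =
    fun v => (((1, Multiplicative.ofAdd 1) : PZ h) * v.1, v.2) := by
  funext v
  unfold mt
  congr 1
  exact Prod.ext (by simp) (mul_comm _ _)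

theorem part_b {G : Type} [Group G] {h : G} {m : ℕ} {w : (Fin (m + 1) → Cen h) →₀ ℚ}
    (hw : w ∈ cyc ℚ (Cen h) m) {V : Type} [AddCommGroup V] [Module ℚ V]
    (Φ : ((Fin (m + 2) → PZ h × Fin 2) →₀ ℚ) →ₗ[ℚ] V)
    (hΦ : ∀ (g : PZ h) (X : Fin (m + 2) → PZ h × Fin 2),
      Φ (Finsupp.single (fun i => (g * (X i).1, (X i).2)) 1) = Φ (Finsupp.single X 1)) :
    Φ (bd ℚ _ (m + 2) (k2 m w)) = Φ (k1 m 0 w) - Φ (k1 m 1 w) := by
  have hid : ∀ (M : ℕ) (x : (Fin M → PZ h × Fin 2) →₀ ℚ), hmap ℚ id M x = x := by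
    intro M x
    exact Finsupp.mapDomain_id
  have key : Φ (prism ℚ id mt (m + 1) (prism ℚ (fun z : Cen h => (((z, 1), 0) : PZ h × Fin 2))
      (fun z : Cen h => (((z, 1), 1) : PZ h × Fin 2)) m (bd ℚ (Cen h) m w))) = 0 := by
    cases m with
    | zero => rw [PRI.prism_zero, map_zero, map_zero]
    | succ m =>
      have hw' : bd ℚ (Cen h) (m + 1) w ∈ hdeg ℚ (Cen h) m := hw
      have hle : hdeg ℚ (Cen h) m ≤ LinearMap.ker (Φ.comp ((prism ℚ id mt (m + 1 + 1)).comp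
          (prism ℚ (fun z : Cen h => (((z, 1), 0) : PZ h × Fin 2))
            (fun z : Cen h => (((z, 1), 1) : PZ h × Fin 2)) (m + 1)))) := by
        unfold hdeg
        rw [Submodule.span_le]
        rintro _ ⟨g, X, rfl⟩
        rw [SetLike.mem_coe, LinearMap.mem_ker, map_sub, sub_eq_zero, LinearMap.comp_apply,
          LinearMap.comp_apply, LinearMap.comp_apply, LinearMap.comp_apply]
        have e1 : Finsupp.single (fun i => g * X i) (1 : ℚ) =
            hmap ℚ (fun z : Cen h => g * z) (m + 1) (Finsupp.single X 1) := by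
          rw [PRI.hmap_single]
        rw [e1, PRI.prism_hmap _ _ (fun z : Cen h => g * z)
          (fun v : PZ h × Fin 2 => (((g, 1) : PZ h) * v.1, v.2)),
          PRI.prism_hmap id mt (fun v : PZ h × Fin 2 => (((g, 1) : PZ h) * v.1, v.2))
          (fun v : PZ h × Fin 2 => (((g, 1) : PZ h) * v.1, v.2)), hinv Φ hΦ]
        · intro v
          rfl
        · intro v
          unfold mt
          simp only [mul_assoc]
        · intro z
          simp only [Prod.mk_mul_mk, one_mul]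
        · intro z
          simp only [Prod.mk_mul_mk, one_mul]
      exact hle hw'
  unfold k2 k1
  rw [PRI.main, PRI.main, map_sub, map_sub, map_sub, map_sub, map_sub, map_sub, key, hid]
  have h2 : Φ (hmap ℚ mt (m + 1 + 1) (prism ℚ (fun z : Cen h => (((z, 1), 0) : PZ h × Fin 2))
      (fun z : Cen h => (((z, 1), 1) : PZ h × Fin 2)) (m + 1) w)) =
      Φ (prism ℚ (fun z : Cen h => (((z, 1), 0) : PZ h × Fin 2))
      (fun z : Cen h => (((z, 1), 1) : PZ h × Fin 2)) (m + 1) w) := by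
    rw [mt_eq]
    exact hinv Φ hΦ _ _
  rw [h2]
  abel

end KBD

theorem t_KBD : S_KBD :=
  ⟨fun _ _ _ _ _ φ η κ ν => KBD.part_a φ η κ ν, fun _ _ _ _ _ hw _ _ _ Φ hΦ => KBD.part_b hw Φ hΦ⟩

end Pool.Agent.FJB
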