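import Pool.Agent.AUK.FJA.P_AVS
import Pool.Agent.AUK.FJA.P_PDG
import Pool.Agent.AUK.FJA.P_PER
import Pool.Agent.AUK.FJA.P_PNT
import Pool.Agent.AUK.FJA.P_SUP
import Pool.Agent.AUK.FJB.St

/-!
# PDL: the `ℓ`-adic theorem in low degrees
-/

set_option autoImplicit false

open Matrix Pool.Agent.WhK Pool.Agent.Lib25 CategoryTheory Pool.Agent.FJA

noncomputable section

namespace Pool.Agent.FJB

namespace PDL

open Step7 PDG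

/-- One step. -/
theorem one (hpnt : S_PNT) (havs : S_AVS) (hper : S_PER) (hsup : S_SUP)
    (hlve : S_LVE) (hlsf : S_LSF) (hegh : S_EGH) (hegl : S_EGL) {m : ℕ}
    (hcul : CULPd (m + 2)) {G : Type} [Group G] {n0 : ℕ} (hn0 : 0 < n0) {ℓ : ℕ} [Fact ℓ.Prime]
    {F : (Fin (m + 3) → G) → G → ℚ} (hF : GCoch (m + 2) (fun y => y ^ n0 = 1) F)
    (hF1 : ∀ a, F a 1 = 0)
    (B : KCh ℚ_[ℓ] (G × Multiplicative ℤ) (m + 4)) (hB : ∀ x ∈ B.support, ∀ i, NIU (x.2 i))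
    (D1 : Sy1 m G →₀ ℚ)
    (hnull : ∀ η : Rec (G × Multiplicative ℤ) (Fin (m + 3)) → ℚ, NullFun (sg2 G) η → ∀ N : ℕ,
      0 < N → TK ℚ_[ℓ] η N (bdK _ _ (m + 3) B) = TS ℚ_[ℓ] η N (chn1 m G D1)) :
    TK ℚ_[ℓ] (fst (cup F)) 1 B - T1S ℚ_[ℓ] F D1 =
      TK ℚ_[ℓ] (fst (powF ℓ (cup F))) 1 B - T1S ℚ_[ℓ] (powF ℓ F) D1 := by
  classical
  have hprime : ℓ.Prime := Fact.out
  have hS : ∀ y : G, y ^ n0 = 1 → IsOfFinOrder y := fun y hy =>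
    isOfFinOrder_iff_pow_eq_one.2 ⟨n0, hn0, hy⟩
  have hFc : Coch (sg2 G) (m + 3) (cup F) := (t_CUP G (m + 2) F).2 _ hS hF
  obtain ⟨Pt, dl, hP⟩ := hpnt (G × Multiplicative ℤ)
  obtain ⟨hs, hrot, -⟩ := havs (G × Multiplicative ℤ) Pt dl hP
  obtain ⟨D, hD, hcul⟩ := hcul G Pt dl hP (fun y => y ^ n0 = 1) F hS hF
  obtain ⟨W1, hW1, hegh⟩ := hegh ℓ G m (cup F) hFc Pt dl hP D1
  obtain ⟨W2, hW2, hegl⟩ := hegl ℓ G m Pt dl hP D1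
  have hmex := t_MEX.{0}
  have hevs := t_EVS.{0} hmex
  obtain ⟨e1, -, e3, e4, e5, -, -⟩ := hevs (G × Multiplicative ℤ) (sg2 G) (m + 3) (cup F) (avS Pt)
    hFc hs
  have htr : IsTr (evs (cup F) (avS Pt)) := e1 hrot
  obtain ⟨S, L1, hSB, hInc, hSx⟩ := exists_sub hsup B
  obtain ⟨A, hA⟩ : ∃ A, A = TK ℚ_[ℓ] (fst (cup F)) 1 B - T1S ℚ_[ℓ] F D1 := ⟨_, rfl⟩
  obtain ⟨A', hA'⟩ : ∃ A', A' = TK ℚ_[ℓ] (fst (powF ℓ (cup F))) 1 B -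
    T1S ℚ_[ℓ] (powF ℓ F) D1 := ⟨_, rfl⟩
  have a1 : ∀ K : ℕ, 0 < K → TK ℚ_[ℓ] (evs (cup F) (avS Pt)) K B -
      ∑ x ∈ D1.support, ((D1 x : ℚ) : ℚ_[ℓ]) *
        TS ℚ_[ℓ] (ghR (ffC x.φ) (cup F) (avS Pt)) K x.chn = A := by
    intro K hK
    rw [hA]
    exact (hlve ℚ_[ℓ] G m (fun y => y ^ n0 = 1) F hS hF hF1 B D1 hnull (avS Pt) hs K hK).symm
  have a2 : ∀ K : ℕ, 0 < K → TK ℚ_[ℓ] (fun μ => evs (cup F) (avS Pt) (μ ^ ℓ)) K B -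
      ∑ x ∈ D1.support, ((D1 x : ℚ) : ℚ_[ℓ]) *
        TS ℚ_[ℓ] (fun μ => ghR (ffC x.φ) (cup F) (avS Pt) (μ ^ ℓ)) K x.chn = A' := by
    intro K hK
    have h6 : (fun μ => evs (cup F) (avS Pt) (μ ^ ℓ)) =
        evs (powF ℓ (cup F)) (fun Y y => avS Pt (powL ℓ Y y) (y ^ ℓ)) := by
      funext μ
      exact e4 _ hprime.pos μ
    have h7 : ∀ x : Sy1 m G, (fun μ => ghR (ffC x.φ) (cup F) (avS Pt) (μ ^ ℓ)) =
        ghR (ffC x.φ) (powF ℓ (cup F)) (fun Y y => avS Pt (powL ℓ Y y) (y ^ ℓ)) := by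
      intro x
      funext μ
      exact hlsf.2 _ _ _ _ _ _ _ hprime.pos μ
    have hS' : ∀ y : G, y ^ (ℓ * n0) = 1 → IsOfFinOrder y := fun y hy =>
      isOfFinOrder_iff_pow_eq_one.2 ⟨ℓ * n0, Nat.mul_pos hprime.pos hn0, hy⟩
    have h8 := hlve ℚ_[ℓ] G m (fun y => y ^ (ℓ * n0) = 1) (powF ℓ F) hS' (gcoch_pow hF ℓ)
      (fun a => by
        unfold powF
        rw [one_pow]
        exact hF1 a) B D1 hnull _ (e5 ℓ hprime.pos) K hK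
    rw [← powF_cup F hprime.pos] at h8
    rw [hA', h8, h6]
    unfold UE
    simp only [h7]
  rw [← hA, ← hA']
  have hDn0 : (0 : ℝ) < ‖((W1 * W2 * D * n0 : ℕ) : ℚ_[ℓ])‖ := norm_pos_iff.mpr (by
    exact_mod_cast (Nat.mul_pos (Nat.mul_pos (Nat.mul_pos hW1 hW2) hD) hn0).ne')
  have hℓ0 : (0 : ℝ) < (ℓ : ℝ) := by exact_mod_cast hprime.pos
  have hnat : ∀ a : ℕ, ‖(a : ℚ_[ℓ])‖ ≤ 1 := fun a => by
    have := Padic.norm_int_le_one (p := ℓ) (a : ℤ)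
    rwa [Int.cast_natCast] at this
  have hbound : ∀ i0 : ℕ, ‖((W1 * W2 * D * n0 : ℕ) : ℚ_[ℓ])‖ * ‖A - A'‖ ≤
      ((∑ x ∈ B.support, ‖((B x : ℚ) : ℚ_[ℓ])‖) + 2) * (ℓ : ℝ) ^ (-(i0 : ℤ)) := by
    intro i0
    obtain ⟨k0, hk0, hgood⟩ := hper (G × Multiplicative ℤ) ℓ n0 hn0 L1 i0
    obtain ⟨mm, hmm⟩ : ∃ mm, mm = n0 * ℓ ^ (k0 + 1 - i0) := ⟨_, rfl⟩
    have hmm0 : 0 < mm := by
      rw [hmm]
      exact Nat.mul_pos hn0 (pow_pos hprime.pos _)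
    obtain ⟨L, hLn, hLt, hLs, hLi, hLd⟩ := hcul mm hmm0
    have hgl := hegl (D * mm) L (Nat.mul_pos hD hmm0) hLt hLd k0
    have hgh := hegh k0
    obtain ⟨φ, hφ⟩ : ∃ φ : Rec (G × Multiplicative ℤ) (Fin (m + 4)) → ℚ, φ = fun μ =>
      ((D * mm : ℕ) : ℚ) * (evs (cup F) (avS Pt) μ - cobR L μ) := ⟨_, rfl⟩
    have hφtr : ∀ μ ∈ S, ∀ ν ∈ S, φ (μ * ν) = φ (ν * μ) := by
      intro μ hμ ν hν
      rw [hφ]
      simp only
      have h1 : cobR L (μ * ν) = cobR L (ν * μ) := by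
        unfold cobR
        refine Finset.sum_congr rfl fun i _ => ?_
        rw [map_mul, map_mul, hLt _ (BND.res_bal _ (hSB hμ)) _ (BND.res_bal _ (hSB hν))]
      rw [htr μ ν, h1]
    have hφint : ∀ μ ∈ S, (∀ i, (μ.lst i).length = ℓ ^ (k0 + 1)) → ∃ z : ℤ, φ μ = z := by
      intro μ hμ hl
      have hne : ∀ i, μ.lst i ≠ [] := by
        intro i h
        have h1 := hl i
        rw [h] at h1
        have h2 : 0 < ℓ ^ (k0 + 1) := pow_pos hprime.pos _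
        simp only [List.length_nil] at h1
        omega
      rw [hφ]
      by_cases hy : μ.val ^ n0 = 1
      · refine hLi μ hne fun i => ?_
        rw [hmm]
        exact (hgood (k0 + 1) (by omega) (μ.lst i) μ.val (hl i) hy (hInc μ hμ hne i)).1
      · have hc : ∀ a, cup F a μ.val = 0 := by
          intro a
          by_contra h
          apply hy
          unfold cup at h
          split_ifs at h with h2
          · have h3 := hF.supp (fun i => (a i.castSucc).1) μ.val.1 fun h4 => h (by rw [h4, zero_mul])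
            apply Prod.ext
            · exact h3
            · rw [Prod.pow_snd, h2, one_pow]
              rfl
          · exact absurd rfl h
        have h4 : evs (cup F) (avS Pt) μ = 0 := by
          unfold evs
          split_ifs
          all_goals first
            | rfl
            | (unfold mex
               refine Finset.sum_eq_zero fun x _ => ?_
               simp only [hc, mul_zero])
        have h5 : cobR L μ = 0 := by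
          unfold cobR
          refine Finset.sum_eq_zero fun i _ => ?_
          have h6 : L (Rec.res i.succAbove μ) = 0 := by
            by_contra h7
            obtain ⟨a, ha⟩ := hLs _ h7
            exact ha (hc a)
          rw [h6, mul_zero]
        refine ⟨0, ?_⟩
        simp only
        rw [h4, h5]
        simp
    have hstep : ∀ x ∈ B.support,
        ‖TX φ (ℓ ^ (k0 + 1)) x.2 - TX (fun μ => φ (μ ^ ℓ)) (ℓ ^ k0) x.2‖ ≤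
          (ℓ : ℝ) ^ (-(k0 + 1 : ℤ)) := fun x hx =>
      step hsup S k0 φ hφtr hφint x.2 (hB x hx) (hSx x hx)
    obtain ⟨TL, hTL⟩ : ∃ TL, TL = TS ℚ_[ℓ] L (ℓ ^ (k0 + 1)) (chn1 m G D1) := ⟨_, rfl⟩
    obtain ⟨TL', hTL'⟩ : ∃ TL', TL' = TS ℚ_[ℓ] (fun μ => L (μ ^ ℓ)) (ℓ ^ k0) (chn1 m G D1) :=
      ⟨_, rfl⟩
    obtain ⟨H1, hH1⟩ : ∃ H1, H1 = ∑ x ∈ D1.support, ((D1 x : ℚ) : ℚ_[ℓ]) *
        TS ℚ_[ℓ] (ghR (ffC x.φ) (cup F) (avS Pt)) (ℓ ^ (k0 + 1)) x.chn := ⟨_, rfl⟩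
    obtain ⟨H2, hH2⟩ : ∃ H2, H2 = ∑ x ∈ D1.support, ((D1 x : ℚ) : ℚ_[ℓ]) *
        TS ℚ_[ℓ] (fun μ => ghR (ffC x.φ) (cup F) (avS Pt) (μ ^ ℓ)) (ℓ ^ k0) x.chn := ⟨_, rfl⟩
    rw [← hTL, ← hTL'] at hgl
    rw [← hH1, ← hH2] at hgh
    have b1 := a1 (ℓ ^ (k0 + 1)) (pow_pos hprime.pos _)
    have b2 := a2 (ℓ ^ k0) (pow_pos hprime.pos _)
    rw [← hH1] at b1
    rw [← hH2] at b2
    have hφ1 : TK ℚ_[ℓ] φ (ℓ ^ (k0 + 1)) B = ((D * mm : ℕ) : ℚ_[ℓ]) * (A + H1 - TL) := by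
      rw [hφ, TK_lin, TK_cobR, hnull L hLn _ (pow_pos hprime.pos _), ← hTL, ← b1]
      push_cast
      ring
    have hφ2 : TK ℚ_[ℓ] (fun μ => φ (μ ^ ℓ)) (ℓ ^ k0) B =
        ((D * mm : ℕ) : ℚ_[ℓ]) * (A' + H2 - TL') := by
      have h1 : (fun μ : Rec (G × Multiplicative ℤ) (Fin (m + 4)) => φ (μ ^ ℓ)) = fun μ =>
          ((D * mm : ℕ) : ℚ) * (evs (cup F) (avS Pt) (μ ^ ℓ) - cobR (fun μ => L (μ ^ ℓ)) μ) := by
        funext μ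
        rw [hφ]
        simp only
        rw [cobR_pow]
      rw [h1, TK_lin, TK_cobR, hnull _ (null_pow hLn hprime.pos) _ (pow_pos hprime.pos _), ← hTL',
        ← b2]
      push_cast
      ring
    have h9 : ‖((D * mm : ℕ) : ℚ_[ℓ]) * (A + H1 - TL) -
        ((D * mm : ℕ) : ℚ_[ℓ]) * (A' + H2 - TL')‖ ≤
        (∑ x ∈ B.support, ‖((B x : ℚ) : ℚ_[ℓ])‖) * (ℓ : ℝ) ^ (-(k0 + 1 : ℤ)) := by
      rw [← hφ1, ← hφ2, PDK.TK_apply, PDK.TK_apply, ← Finset.sum_sub_distrib,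
        Finset.sum_mul]
      refine (norm_sum_le _ _).trans (Finset.sum_le_sum fun x hx => ?_)
      rw [← mul_sub, norm_mul]
      exact mul_le_mul_of_nonneg_left (hstep x hx) (norm_nonneg _)
    have hpw : (0 : ℝ) ≤ (ℓ : ℝ) ^ (-(k0 + 1 : ℤ)) := by positivity
    have h10 : ((W1 * W2 * (D * mm) : ℕ) : ℚ_[ℓ]) * (A - A') =
        ((W1 * W2 : ℕ) : ℚ_[ℓ]) * (((D * mm : ℕ) : ℚ_[ℓ]) * (A + H1 - TL) -
          ((D * mm : ℕ) : ℚ_[ℓ]) * (A' + H2 - TL')) +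
        (W1 : ℚ_[ℓ]) * (((W2 * (D * mm) : ℕ) : ℚ_[ℓ]) * (TL - TL')) -
        ((W2 * (D * mm) : ℕ) : ℚ_[ℓ]) * ((W1 : ℚ_[ℓ]) * (H1 - H2)) := by
      push_cast
      ring
    have hmul : ∀ (a : ℕ) (x : ℚ_[ℓ]) (r : ℝ), ‖x‖ ≤ r → ‖(a : ℚ_[ℓ]) * x‖ ≤ r := by
      intro a x r hx
      rw [norm_mul]
      calc ‖(a : ℚ_[ℓ])‖ * ‖x‖ ≤ 1 * ‖x‖ :=
            mul_le_mul_of_nonneg_right (hnat a) (norm_nonneg _)
        _ = ‖x‖ := one_mul _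
        _ ≤ r := hx
    have h11 : ‖((W1 * W2 * (D * mm) : ℕ) : ℚ_[ℓ]) * (A - A')‖ ≤
        ((∑ x ∈ B.support, ‖((B x : ℚ) : ℚ_[ℓ])‖) + 2) * (ℓ : ℝ) ^ (-(k0 + 1 : ℤ)) := by
      rw [h10]
      refine (norm_sub_le _ _).trans ?_
      have i1 := norm_add_le (((W1 * W2 : ℕ) : ℚ_[ℓ]) * (((D * mm : ℕ) : ℚ_[ℓ]) * (A + H1 - TL) -
          ((D * mm : ℕ) : ℚ_[ℓ]) * (A' + H2 - TL')))
        ((W1 : ℚ_[ℓ]) * (((W2 * (D * mm) : ℕ) : ℚ_[ℓ]) * (TL - TL')))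
      have i2 := hmul (W1 * W2) _ _ h9
      have i3 := hmul W1 _ _ hgl
      have i4 := hmul (W2 * (D * mm)) _ _ hgh
      linarith
    have h12 : ((W1 * W2 * (D * mm) : ℕ) : ℚ_[ℓ]) * (A - A') =
        ((W1 * W2 * D * n0 : ℕ) : ℚ_[ℓ]) * (ℓ : ℚ_[ℓ]) ^ (k0 + 1 - i0) * (A - A') := by
      rw [hmm]
      push_cast
      ring
    rw [h12, norm_mul, norm_mul, norm_pow, Padic.norm_p] at h11
    have h13 : (ℓ : ℝ) ^ (k0 + 1 - i0) * ((ℓ : ℝ)⁻¹) ^ (k0 + 1 - i0) = 1 := by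
      rw [← mul_pow, mul_inv_cancel₀ hℓ0.ne', one_pow]
    have h14 : (ℓ : ℝ) ^ (k0 + 1 - i0) * (ℓ : ℝ) ^ (-(k0 + 1 : ℤ)) = (ℓ : ℝ) ^ (-(i0 : ℤ)) := by
      rw [← zpow_natCast, ← zpow_add₀ hℓ0.ne']
      congr 1
      omega
    calc ‖((W1 * W2 * D * n0 : ℕ) : ℚ_[ℓ])‖ * ‖A - A'‖ = (ℓ : ℝ) ^ (k0 + 1 - i0) *
          (‖((W1 * W2 * D * n0 : ℕ) : ℚ_[ℓ])‖ * ((ℓ : ℝ)⁻¹) ^ (k0 + 1 - i0) * ‖A - A'‖) := by
          linear_combination (-(‖((W1 * W2 * D * n0 : ℕ) : ℚ_[ℓ])‖ * ‖A - A'‖)) * h13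
      _ ≤ (ℓ : ℝ) ^ (k0 + 1 - i0) *
          (((∑ x ∈ B.support, ‖((B x : ℚ) : ℚ_[ℓ])‖) + 2) * (ℓ : ℝ) ^ (-(k0 + 1 : ℤ))) :=
          mul_le_mul_of_nonneg_left h11 (by positivity)
      _ = _ := by rw [← h14]; ring
  have hℓ1 : (1 : ℝ) < ℓ := by exact_mod_cast hprime.one_lt
  have hlim : Filter.Tendsto (fun i0 : ℕ => ((∑ x ∈ B.support, ‖((B x : ℚ) : ℚ_[ℓ])‖) + 2) *
      (ℓ : ℝ) ^ (-(i0 : ℤ))) Filter.atTop (nhds 0) := by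
    have h9 : Filter.Tendsto (fun n : ℕ => ((ℓ : ℝ)⁻¹) ^ n) Filter.atTop (nhds 0) :=
      tendsto_pow_atTop_nhds_zero_of_lt_one (by positivity) (inv_lt_one_of_one_lt₀ hℓ1)
    have h10 := h9.const_mul ((∑ x ∈ B.support, ‖((B x : ℚ) : ℚ_[ℓ])‖) + 2)
    rw [mul_zero] at h10
    refine h10.congr fun n => ?_
    congr 1
    rw [inv_pow, _root_.zpow_neg, zpow_natCast]
  have h11 : ‖((W1 * W2 * D * n0 : ℕ) : ℚ_[ℓ])‖ * ‖A - A'‖ ≤ 0 := ge_of_tendsto' hlim hbound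
  have h12 : ‖A - A'‖ ≤ 0 := by
    by_contra h
    rw [not_le] at h
    have := mul_pos hDn0 h
    linarith
  exact sub_eq_zero.mp (norm_le_zero_iff.mp h12)

end PDL

open PDL in
theorem t_PDL (hlve : S_LVE) (hlsf : S_LSF) (hegh : S_EGH) (hegl : S_EGL) : S_PDL := by
  intro m hcul G _ n0 hn0 ℓ _ F hF hF1 B hB D1 hnull e
  have hprime : ℓ.Prime := Fact.out
  induction e with
  | zero =>
    have h1 : powF (ℓ ^ 0) (cup F) = cup F := by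
      funext a y
      unfold powF
      rw [pow_zero, pow_one]
    have h2 : powF (ℓ ^ 0) F = F := by
      funext a y
      unfold powF
      rw [pow_zero, pow_one]
    rw [h1, h2]
  | succ e ih =>
    rw [ih]
    have hp : 0 < ℓ ^ e := pow_pos hprime.pos _
    have h1 := one t_PNT t_AVS t_PER t_SUP hlve hlsf hegh hegl hcul (Nat.mul_pos hp hn0)
      (PDG.gcoch_pow hF (ℓ ^ e)) (fun a => by
        unfold powF
        rw [one_pow]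
        exact hF1 a) B hB D1 hnull
    rw [← PDG.powF_cup F hp, PDG.powF_powF, PDG.powF_powF] at h1
    rw [h1, pow_succ']

end Pool.Agent.FJB
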