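import Pool.Agent.AUK.FJB.St

/-! Module PTC: the number of points of a list in `γ * f C` divides `N`. -/

set_option autoImplicit false

open Matrix Pool.Agent.WhK Pool.Agent.Lib25 CategoryTheory Pool.Agent.FJA

noncomputable section

namespace Pool.Agent.FJB

namespace PTC

theorem cyc_powN {N : ℕ} (c : FJA.Cyc N) : c ^ N = 1 := by
  apply Multiplicative.toAdd.injective
  rw [toAdd_pow, toAdd_one, nsmul_eq_mul, ZMod.natCast_self, zero_mul]

/-- The rotations of a list in `γ * f C`. -/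
theorem mem_rot {Γ C : Type} [Group Γ] [Group C] (f : C →* Γ) (γ : Γ) (hγ : ∀ c, Commute γ (f c))
    (c : C) (Y : List Γ) (hY : ∀ a ∈ Y, ∃ x, a = γ * f x) (e : ℕ) :
    ∀ a ∈ (rotL (f c))^[e] Y, ∃ x, a = γ * f x := by
  induction e with
  | zero => exact hY
  | succ e ih =>
    rw [Function.iterate_succ_apply']
    cases h : (rotL (f c))^[e] Y with
    | nil => intro a ha; simp [rotL] at ha
    | cons b Z =>
      rw [h] at ih
      intro a ha
      simp only [rotL, List.mem_append, List.mem_singleton] at ha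
      rcases ha with ha | rfl
      · exact ih a (List.mem_cons_of_mem _ ha)
      · obtain ⟨x, rfl⟩ := ih b List.mem_cons_self
        refine ⟨c * x, ?_⟩
        rw [map_mul, ← mul_assoc, ← mul_assoc, (hγ c).eq]

theorem main {Γ C : Type} [Group Γ] [Group C] (N : ℕ) (hN : ∀ c : C, c ^ N = 1)
    (f : C →* Γ) (γ : Γ) (hγ : ∀ c, Commute γ (f c)) (c : C) (Y : List Γ) (hne : Y ≠ [])
    (hY : ∀ a ∈ Y, ∃ x, a = γ * f x) (δ : Γ) (e : ℕ) (h : Stb Y (f c) δ e) : δ ^ N = 1 := by
  obtain ⟨-, h2⟩ := h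
  have h3 := mem_rot f γ hγ c Y hY e
  cases h4 : (rotL (f c))^[e] Y with
  | nil =>
    rw [h4, List.map_nil] at h2
    exact absurd h2.symm hne
  | cons a Z =>
    rw [h4] at h2 h3
    obtain ⟨x, rfl⟩ := h3 a List.mem_cons_self
    have h5 : δ * (γ * f x) ∈ Y := by
      rw [← h2, List.map_cons]
      exact List.mem_cons_self
    obtain ⟨x', h6⟩ := hY _ h5
    have h7 : δ = γ * f (x' * x⁻¹) * γ⁻¹ := by
      rw [eq_mul_inv_iff_mul_eq, map_mul, ← mul_assoc, ← h6, map_inv]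
      group
    rw [h7, conj_pow, ← map_pow, hN, map_one, mul_one, mul_inv_cancel]

end PTC

open PTC in
theorem t_PTC : S_PTC := by
  intro G _ N _ φ Pt dl hP M r X ν l hl
  have hfin : IsOfFinOrder (twX φ X ν).val := by
    refine isOfFinOrder_iff_pow_eq_one.2 ⟨N, Nat.pos_of_ne_zero (NeZero.ne N), ?_⟩
    change (ffC φ ν.val) ^ N = 1
    rw [← map_pow, cyc_powN, map_one]
  refine ⟨hfin, ?_⟩
  rw [hP.card _ _ hl hfin]
  obtain ⟨e, he⟩ := hP.stb _ _ hl hfin
  refine orderOf_dvd_of_pow_eq_one ?_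
  refine main N cyc_powN (ffC φ) (emb (φ (gen N)) (X l).1) (fun c => ?_) ν.val _ hl ?_ _ e he
  · exact Prod.ext (commute_cyc φ (X l).1.1 c).eq (mul_comm _ _)
  · intro a ha
    obtain ⟨x, -, rfl⟩ := List.mem_map.1 ha
    exact ⟨x, rfl⟩

end Pool.Agent.FJB
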