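import Pool.Agent.AUK.FJA.P_REB
import Pool.Agent.AUK.FJA.P_RGB
import Pool.Agent.AUK.FJA.P_SUP
import Pool.Agent.AUK.FJB.St

/-!
# RGE: the Galois symmetry of the value on `BT` over `ℚ` with the correction term
-/

set_option autoImplicit false

open Matrix Pool.Agent.WhK Pool.Agent.Lib25 CategoryTheory Pool.Agent.FJA

noncomputable section

namespace Pool.Agent.FJB

namespace RGE

theorem powF_at {G : Type} [Group G] {m n0 a ℓ : ℕ} (hn0 : 0 < n0)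
    (hℓ : ℓ.Prime) (hmod : ℓ % n0 = a % n0) (F : (Fin m → G) → G → ℚ)
    (hF : ∀ (x : Fin m → G) (y : G), F x y ≠ 0 → orderOf y = n0)
    (y : G) (hy : orderOf y < ℓ) (x : Fin m → G) :
    powF (ℓ ^ 1) F x y = twF n0 a F x y := by
  rw [pow_one]
  unfold powF twF
  by_cases h4 : orderOf y = n0
  · rw [if_pos h4, ← pow_mod_orderOf y ℓ, ← pow_mod_orderOf y a, h4, hmod]
  · rw [if_neg h4]
    by_contra h5
    have h6 := hF _ _ h5
    have h7 : IsOfFinOrder (y ^ ℓ) := orderOf_pos_iff.1 (by rw [h6]; exact hn0)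
    have h8 : IsOfFinOrder y := by
      obtain ⟨k, hk, h9⟩ := isOfFinOrder_iff_pow_eq_one.1 h7
      exact isOfFinOrder_iff_pow_eq_one.2 ⟨ℓ * k, Nat.mul_pos hℓ.pos hk, by rw [pow_mul, h9]⟩
    have h10 : (orderOf y).Coprime ℓ :=
      (Nat.coprime_of_lt_prime (orderOf_pos_iff.2 h8).ne' hy hℓ).symm
    exact h4 (by rw [← h10.orderOf_pow, h6])

/-- the order of the image of an element of `Cyc N` -/
theorem ord_le {G : Type} [Group G] {N : ℕ} [NeZero N] (φ : Cyc N →* G) (c : Cyc N) :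
    orderOf (φ c) ≤ N := by
  have h1 : orderOf (φ c) ∣ orderOf c := orderOf_map_dvd φ c
  have h2 : orderOf c ∣ Nat.card (Cyc N) := orderOf_dvd_natCard c
  have h3 : Nat.card (Cyc N) = N := by
    rw [Nat.card_eq_fintype_card]
    simp [FJA.Cyc]
  rw [h3] at h2
  exact Nat.le_of_dvd (Nat.pos_of_ne_zero (NeZero.ne N)) (h1.trans h2)

end RGE

theorem t_RGE (hT1C : S_T1C) : S_RGE := by
  intro G _ m n0 hn1 hpdg a ha D D1 e d X hX b κ hκ hch F hF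
  have hn0 : 0 < n0 := by omega
  obtain ⟨-, hsb, -⟩ := t_SUP
  choose B1 hB1 using fun j => t_INT.1 (Cyc (D.N j) × Multiplicative ℤ) (Fin (e j).n) (Fin (e j).n)
    (X j).val
  choose B2 hB2 using fun j => t_INT.1 (Cyc (D.N j) × Multiplicative ℤ) (Fin (e j).n) (Fin (e j).n)
    ((X j)⁻¹).val
  choose T hT1 hT2 using fun x : (Σ r : ℕ, (Fin (m + 4) → (Matrix (Fin r) (Fin r)
    (MonoidAlgebra ℚ (G × Multiplicative ℤ)))ˣ)) =>
      hsb ℚ (G × Multiplicative ℤ) (Fin x.1) (m + 4) x.2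
  obtain ⟨ℓ, hℓ, hb, hmod⟩ := t_INT.2 n0 a
    (max (max ((BT ℚ D e b X).support.sup fun x => (T x).sup fun μ => orderOf μ.val.1)
      (D.s.sup fun j => max (B1 j) (B2 j))) (D1.support.sup fun s => s.N)) hn0 ha
  have : Fact ℓ.Prime := ⟨hℓ⟩
  have hord : ∀ x ∈ (BT ℚ D e b X).support, ∀ μ ∈ T x, orderOf μ.val.1 < ℓ := by
    intro x hx μ hμ
    refine lt_of_le_of_lt ?_ (lt_of_le_of_lt ((le_max_left _ _).trans (le_max_left _ _)) hb)
    refine le_trans ?_ (Finset.le_sup (f := fun x => (T x).sup fun μ => orderOf μ.val.1) hx)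
    exact Finset.le_sup (f := fun μ : Rec (G × Multiplicative ℤ) (Fin (m + 4)) =>
      orderOf μ.val.1) hμ
  have hbj : ∀ j ∈ D.s, max (B1 j) (B2 j) < ℓ := fun j hj =>
    lt_of_le_of_lt (Finset.le_sup (f := fun j => max (B1 j) (B2 j)) hj)
      (lt_of_le_of_lt ((le_max_right _ _).trans (le_max_left _ _)) hb)
  have hbN : ∀ s ∈ D1.support, s.N < ℓ := fun s hs =>
    lt_of_le_of_lt (Finset.le_sup (f := fun s : Sy1 m G => s.N) hs)
      (lt_of_le_of_lt (le_max_right _ _) hb)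
  have hNIU : ∀ j ∈ D.s, NIU (mapU (algebraMap ℚ ℚ_[ℓ]) (X j)) := fun j hj =>
    RLG.niu (X j) (hB1 j ℓ (lt_of_le_of_lt (le_max_left _ _) (hbj j hj)))
      (hB2 j ℓ (lt_of_le_of_lt (le_max_right _ _) (hbj j hj)))
  obtain ⟨hm1, hm2, -⟩ := t_MPB t_LAU ℚ ℚ_[ℓ] (algebraMap ℚ ℚ_[ℓ])
  have hT : ∀ j, Trv ℚ_[ℓ] (e j) (d j) (mapU (algebraMap ℚ ℚ_[ℓ]) (X j)) := fun j =>
    hm2 (D.N j) (e j) (d j) (X j) (hX j)
  have hF' : GCoch (m + 2) (fun y : G => y ^ n0 = 1) F :=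
    ⟨hF.inv, hF.coc, fun a y h => by
      have h1 : orderOf y = n0 := hF.supp a y h
      show y ^ n0 = 1
      rw [← h1]
      exact pow_orderOf_eq_one y, hF.den⟩
  have hF1 : ∀ x, F x 1 = 0 := by
    intro x
    by_contra h
    have h1 : orderOf (1 : G) = n0 := hF.supp x 1 h
    rw [orderOf_one] at h1
    omega
  have h1 := hpdg n0 hn0 ℓ F hF' hF1
    (BT ℚ_[ℓ] D e b fun j => mapU (algebraMap ℚ ℚ_[ℓ]) (X j))
    (t_NIB t_LAUint ℓ G (m + 1) D e _ b hNIU) D1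
    (fun η hη N _ => t_REB t_KCB (t_KIL t_LAU) t_HTP (t_FVX t_LAU) ℚ_[ℓ] G (m + 1) D e d _ hT b κ
      (chn1 m G D1) hκ hch η N hη) 1
  rw [hm1 G (m + 1) D e X b, hm1 G (m + 1) D e X b] at h1
  obtain ⟨hQ, hP⟩ := hT1C m G D1
  have h2 : T1S ℚ_[ℓ] (powF (ℓ ^ 1) F) D1 = T1S ℚ_[ℓ] (twF n0 a F) D1 := by
    refine (hQ ℚ_[ℓ]).2.2 _ _ fun s hs c x => ?_
    exact RGE.powF_at hn0 hℓ hmod F hF.supp (s.φ c)
      (lt_of_le_of_lt (RGE.ord_le s.φ c) (hbN s hs)) x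
  rw [h2, ← hP ℓ F, ← hP ℓ (twF n0 a F)] at h1
  have h3 : TK ℚ (fst (powF (ℓ ^ 1) (cup F))) 1 (BT ℚ D e b X) =
      TK ℚ (fst (cup (twF n0 a F))) 1 (BT ℚ D e b X) := by
    refine RGB.TK_congr _ _ _ fun x hx => RGB.TX_congr _ _ _ fun i j μ hμ => ?_
    have h2 : orderOf μ.val.1 < ℓ := hord x hx μ (hT2 x i j μ hμ)
    unfold fst
    by_cases h3 : ∀ i, μ.lst i ≠ []
    · rw [if_pos h3, if_pos h3]
      exact RGB.powF_cup_at hn0 hℓ hmod F hF.supp μ.val h2 _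
    · rw [if_neg h3, if_neg h3]
  rw [h3] at h1
  have h4 : algebraMap ℚ ℚ_[ℓ] (TK ℚ (fst (cup F)) 1 (BT ℚ D e b X) - T1S ℚ F D1) =
      algebraMap ℚ ℚ_[ℓ] (TK ℚ (fst (cup (twF n0 a F))) 1 (BT ℚ D e b X) -
        T1S ℚ (twF n0 a F) D1) := by
    rw [map_sub, map_sub]
    exact h1
  exact ((algebraMap ℚ ℚ_[ℓ]).injective h4).symm

end Pool.Agent.FJB
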