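import Pool.Agent.AUK.FJA.P_EVS
import Pool.Agent.AUK.FJA.P_MEX
import Pool.Agent.AUK.FJA.P_PDK
import Pool.Agent.AUK.FJB.St

/-!
# Module SCE: change of the section for chains, with the concrete null function
-/

set_option autoImplicit false

open Matrix Pool.Agent.WhK Pool.Agent.Lib25 CategoryTheory Pool.Agent.FJA

noncomputable section

namespace Pool.Agent.FJB

namespace SCE

/-- SCH with the null function `SCH.eta F s` -/
theorem sch {Γ : Type} [Group Γ] {σ : Γ →* Multiplicative ℤ} {M : ℕ}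
    {F : (Fin (M + 1) → Γ) → Γ → ℚ} {s : List Γ → Γ → (Γ →₀ ℚ)} (hF : Coch σ M F) (hs : Sec s)
    (k : Type) [Field k] [CharZero k] (ι : Type) [Fintype ι] [DecidableEq ι] (N : ℕ) (hN : 0 < N)
    (X : Fin (M + 1) → (Matrix ι ι (MonoidAlgebra k Γ))ˣ) :
    TX (evs F s) N X = TX (fst F) N X +
      ∑ i : Fin (M + 1), (-1 : k) ^ (i : ℕ) * TX (SCH.eta F s) N (fun t => X (i.succAbove t)) := by
  have h1 : TX (evs F s) N X = TX (fun μ => fst F μ +
      ∑ i : Fin (M + 1), (-1 : ℚ) ^ (i : ℕ) * SCH.eta F s (Rec.res i.succAbove μ)) N X := by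
    refine t_TXlen k Γ ι (M + 1) N _ _ X fun μ hμ => ?_
    exact SCH.step t_MEX t_PRI hF hs μ fun i h0 => by
      have := hμ i
      rw [h0] at this
      simp only [List.length_nil] at this
      omega
  have h2 : ∀ S : Finset (Fin (M + 1)), TX (fun μ : Rec Γ (Fin (M + 1)) =>
      ∑ i ∈ S, (-1 : ℚ) ^ (i : ℕ) * SCH.eta F s (Rec.res i.succAbove μ)) N X =
      ∑ i ∈ S, (-1 : k) ^ (i : ℕ) * TX (SCH.eta F s) N (fun t => X (i.succAbove t)) := by
    intro S
    induction S using Finset.induction_on with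
    | empty =>
      have h3 := (t_TXlin k Γ ι (M + 1) N X).2 0 (fun _ => 0)
      simp only [Finset.sum_empty]
      simpa using h3
    | insert a S ha ih =>
      simp only [Finset.sum_insert ha]
      rw [(t_TXlin k Γ ι (M + 1) N X).1, ih, (t_TXlin k Γ ι (M + 1) N X).2,
        t_TXfac k Γ ι M N (SCH.eta F s) a X]
      push_cast
      rfl
  rw [h1, (t_TXlin k Γ ι (M + 1) N X).1, h2 Finset.univ]

end SCE

theorem t_SCE : S_SCE := by
  intro Γ _ σ M F s hF hs
  refine ⟨SCH.eta_null t_MEX hF hs, ?_⟩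
  intro k _ _ K hK B
  refine ⟨?_, ?_⟩
  · rw [PDK.TK_apply, PDK.TK_apply, PDK.TK_bdK, ← Finset.sum_add_distrib]
    refine Finset.sum_congr rfl fun x _ => ?_
    rw [SCE.sch hF hs k (Fin x.1) K hK x.2, mul_add]
  · rw [PDK.TK_apply, PDK.TK_apply]
    refine Finset.sum_congr rfl fun x _ => ?_
    rw [t_TXfst k Γ (Fin x.1) (M + 1) K (fst F) x.2 hK (t_EVS t_MEX Γ σ M F s hF hs).2.2.2.2.2.1]

end Pool.Agent.FJB
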