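import Pool.Agent.AUK.FJA.P_MEX
import Pool.Agent.AUK.FJB.St

/-!
# SLE: the null function of SCH on the chain `w × [u] × [t]`
-/

set_option autoImplicit false

open Matrix Pool.Agent.WhK Pool.Agent.Lib25 CategoryTheory Pool.Agent.FJA

noncomputable section

namespace Pool.Agent.FJB

namespace SLE

section Gen

variable {Γ C : Type} [Group Γ] [Group C] [Fintype C]

theorem hdS_eq (L : List Γ) (y : Γ) (h : L ≠ []) :
    hdS L y = Finsupp.single (L.headD 1) 1 := by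
  obtain ⟨a, t, hat⟩ := List.exists_cons_of_ne_nil h
  subst hat
  rfl

/-- The first term of EHI, for the average of the translates of the `γ l`. -/
def AA (f : C →* Γ) {M : ℕ} (F : (Fin (M + 2) → Γ) → Γ → ℚ) (γ : Fin (M + 1) → Γ) (y : Γ) : ℚ :=
  ∑ j : Fin (M + 1), (-1 : ℚ) ^ (j : ℕ) *
    mex (fun a => F a y) (fun l => avL f (Finsupp.single (γ (j.predAbove l)) 1))

theorem AA_zero (f : C →* Γ) {M : ℕ} (F : (Fin (M + 2) → Γ) → Γ → ℚ) (γ : Fin (M + 1) → Γ) (y : Γ)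
    (h : ∀ a, F a y = 0) : AA f F γ y = 0 := by
  unfold AA
  refine Finset.sum_eq_zero fun j _ => ?_
  rw [SCH.mex_zero t_MEX _ _ h, mul_zero]

/-- The decomposition of the null function at one recorded path. -/
theorem pt (hEHI : S_EHI) (hGHP : S_GHP) (f : C →* Γ)
    (σ : Γ →* Multiplicative ℤ) {M : ℕ} (F : (Fin (M + 2) → Γ) → Γ → ℚ) (hF : Coch σ (M + 1) F)
    (s : List Γ → Γ → (Γ →₀ ℚ)) (hs : Sec s) (γ : Fin (M + 1) → Γ)
    (hγ : ∀ l t, γ l * f t = f t * γ l) (μ : Rec Γ (Fin (M + 1)))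
    (hne : ∀ i, μ.lst i ≠ []) (hfin : IsOfFinOrder μ.val)
    (hsup : ∀ l, ∀ a ∈ μ.lst l, ∃ t, a = γ l * f t) (hval : ∃ t, μ.val = f t) :
    SCH.eta F s μ = AA f F γ μ.val + ghR f F s μ +
      ((-1) * ghR f F hdS μ + (-1) * cobR (hhR f F s) μ) := by
  classical
  obtain ⟨c0, hc0⟩ := hval
  have hd : ∀ l, ((μ.lst l).headD 1) ∈ μ.lst l := by
    intro l
    obtain ⟨a, t, hat⟩ := List.exists_cons_of_ne_nil (hne l)
    rw [hat]
    simp
  have ha1 : ∀ i, aug (SCH.vv s μ i).1 = 1 := fun i => hs.aug _ _ hfin (hne i)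
  have ha2 : ∀ i, aug (SCH.vv s μ i).2 = 1 := fun i => SCH.aug_single _
  have hs1 : ∀ l, avL f (SCH.vv s μ l).1 = avL f (Finsupp.single (γ l) 1) := by
    intro l
    refine hGHP Γ C f |>.2.2.2.1 (γ l) (hγ l) _ (ha1 l) ?_
    intro x hx
    obtain ⟨t, a, ha, hxa⟩ := hs.supp _ _ hfin x hx
    obtain ⟨b, hb⟩ := hsup l a ha
    refine ⟨c0 ^ t * b, ?_⟩
    rw [hxa, hb, hc0, map_mul, map_zpow, ← mul_assoc, ← mul_assoc, ← map_zpow, hγ l]
  have hs2 : ∀ l, avL f (SCH.vv s μ l).2 = avL f (Finsupp.single (γ l) 1) := by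
    intro l
    refine hGHP Γ C f |>.2.2.2.1 (γ l) (hγ l) _ (ha2 l) ?_
    intro x hx
    have hx2 : x = (μ.lst l).headD 1 := by
      have h6 := Finsupp.support_single_subset hx
      simpa using h6
    rw [hx2]
    exact hsup l _ (hd l)
  have hE : SCH.eta F s μ = SCH.EE F μ.val (SCH.vv s μ) := by
    unfold SCH.eta
    rw [if_pos ⟨hne, hfin⟩]
  have h1 : ghR f F s μ = gh f F μ.val (fun i => (SCH.vv s μ i).1) := by
    unfold ghR
    rw [if_pos hne]
    rfl
  have h2 : ghR f F hdS μ = gh f F μ.val (fun i => (SCH.vv s μ i).2) := by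
    unfold ghR
    rw [if_pos hne]
    congr 1
    funext l
    exact hdS_eq _ _ (hne l)
  have h3 : cobR (hhR f F s) μ = ∑ i : Fin (M + 1), (-1 : ℚ) ^ (i : ℕ) *
      hh f F μ.val (fun l => SCH.vv s μ (i.succAbove l)) := by
    unfold cobR
    refine Finset.sum_congr rfl fun i _ => ?_
    congr 1
    have hi : ∀ l : Fin M, (Rec.res i.succAbove μ).lst l ≠ [] := fun l => hne _
    unfold hhR
    rw [if_pos hi]
    rfl
  have h4 : AA f F γ μ.val = ∑ j : Fin (M + 1), (-1 : ℚ) ^ (j : ℕ) *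
        mex (fun a => F a μ.val) (fun l => avL f (mix Prod.snd Prod.fst (SCH.vv s μ) j l)) := by
    unfold AA
    refine Finset.sum_congr rfl fun j _ => ?_
    congr 2
    funext l
    unfold mix
    split_ifs
    · exact (hs2 _).symm
    · exact (hs1 _).symm
  rw [hE, hEHI Γ C f σ M F hF μ.val (SCH.vv s μ) ha1 ha2, h1, h2, h3, h4]
  ring

/-- Invariance of the function `hhR`. -/
theorem hhR_conj (hGHP : S_GHP) (f : C →* Γ) {M : ℕ} (F : (Fin (M + 2) → Γ) → Γ → ℚ)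
    (hF : ∀ (γ : Γ) (a : Fin (M + 2) → Γ) (y : Γ), F (fun i => γ * a i) (γ * y * γ⁻¹) = F a y)
    (s : List Γ → Γ → (Γ →₀ ℚ)) (hs : Sec s) (γ : Γ) (hγ : ∀ t, γ * f t = f t * γ)
    (μ μ' : Rec Γ (Fin M)) (hl : ∀ i, μ'.lst i = (μ.lst i).map (γ * ·))
    (hv : μ'.val = γ * μ.val * γ⁻¹) (hfin : IsOfFinOrder μ.val) :
    hhR f F s μ' = hhR f F s μ := by
  classical
  unfold hhR
  by_cases h : ∀ i, μ.lst i ≠ []
  · have h' : ∀ i, μ'.lst i ≠ [] := by
      intro i
      rw [hl i, ne_eq, List.map_eq_nil_iff]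
      exact h i
    rw [if_pos h, if_pos h']
    have h1 : SCH.vv s μ' = fun i => ((SCH.vv s μ i).1.mapDomain (γ * ·),
        (SCH.vv s μ i).2.mapDomain (γ * ·)) := by
      funext i
      unfold SCH.vv
      refine Prod.ext ?_ ?_
      · change s (μ'.lst i) μ'.val = (s (μ.lst i) μ.val).mapDomain (γ * ·)
        rw [hl i, hv]
        exact hs.inv γ _ _ hfin
      · change Finsupp.single ((μ'.lst i).headD 1) (1 : ℚ) =
          (Finsupp.single ((μ.lst i).headD 1) (1 : ℚ)).mapDomain (γ * ·)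
        rw [hl i, Finsupp.mapDomain_single]
        congr 1
        obtain ⟨a, t, hat⟩ := List.exists_cons_of_ne_nil (h i)
        rw [hat]
        rfl
    rw [h1, hv]
    exact (hGHP Γ C f).2.1 M F hF γ hγ μ.val (SCH.vv s μ)
  · have h' : ¬ ∀ i, μ'.lst i ≠ [] := by
      intro h2
      apply h
      intro i h3
      apply h2 i
      rw [hl i, h3]
      rfl
    rw [if_neg h, if_neg h']

theorem hhR_one (hGHP : S_GHP) (f : C →* Γ) {M : ℕ} (F : (Fin (M + 2) → Γ) → Γ → ℚ)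
    (h1 : ∀ a, F a 1 = 0) (s : List Γ → Γ → (Γ →₀ ℚ)) (μ : Rec Γ (Fin M)) (hμ : μ.val = 1) :
    hhR f F s μ = 0 := by
  classical
  unfold hhR
  split_ifs
  · rw [hμ]
    exact ((hGHP Γ C f).2.2.1 M F 1 h1).2 _
  · rfl

end Gen

section Slant

variable {G : Type} [Group G] {N : ℕ}

theorem emb_comm (φ : FJA.Cyc N →* G) (g : PZ (φ (FJA.gen N))) (t : FJA.Cyc N) :
    emb (φ (FJA.gen N)) g * ffC φ t = ffC φ t * emb (φ (FJA.gen N)) g := by
  refine Prod.ext ?_ ?_
  · exact commute_cyc φ g.1 t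
  · change g.2 * 1 = 1 * g.2
    rw [mul_one, one_mul]

theorem twX_val (φ : FJA.Cyc N →* G) {M r : ℕ} (X : Fin M → PZ (φ (FJA.gen N)) × Fin r)
    (ν : Rec (FJA.Cyc N) (Fin r)) : (twX φ X ν).val = ffC φ ν.val := rfl

theorem twX_lst (φ : FJA.Cyc N →* G) {M r : ℕ} (X : Fin M → PZ (φ (FJA.gen N)) × Fin r)
    (ν : Rec (FJA.Cyc N) (Fin r)) (l : Fin M) : (twX φ X ν).lst l =
      (ν.lst (X l).2).map fun x => emb (φ (FJA.gen N)) (X l).1 * ffC φ x := rfl

/-- The functional of a function on recorded paths. -/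
def Phi (k : Type) [Field k] [CharZero k] (φ : FJA.Cyc N →* G) {M : ℕ}
    (η : Rec (G × Multiplicative ℤ) (Fin M) → ℚ) (K : ℕ)
    (Y : Fin 2 → (Matrix (Fin 1) (Fin 1) (MonoidAlgebra k (FJA.Cyc N)))ˣ) :
    ((Fin M → PZ (φ (FJA.gen N)) × Fin 2) →₀ ℚ) →ₗ[ℚ] k :=
  Finsupp.linearCombination ℚ fun X => TX (fun ν => η (twX φ X ν)) K Y

theorem Phi_single (k : Type) [Field k] [CharZero k] (φ : FJA.Cyc N →* G) {M : ℕ}
    (η : Rec (G × Multiplicative ℤ) (Fin M) → ℚ) (K : ℕ)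
    (Y : Fin 2 → (Matrix (Fin 1) (Fin 1) (MonoidAlgebra k (FJA.Cyc N)))ˣ)
    (X : Fin M → PZ (φ (FJA.gen N)) × Fin 2) (q : ℚ) :
    Phi k φ η K Y (Finsupp.single X q) = (q : k) * TX (fun ν => η (twX φ X ν)) K Y := by
  unfold Phi
  rw [Finsupp.linearCombination_single, Rat.smul_def]

theorem Phi_eq (k : Type) [Field k] [CharZero k] (φ : FJA.Cyc N →* G) {M : ℕ}
    (η : Rec (G × Multiplicative ℤ) (Fin M) → ℚ) (K : ℕ)
    (Y : Fin 2 → (Matrix (Fin 1) (Fin 1) (MonoidAlgebra k (FJA.Cyc N)))ˣ)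
    (κ : (Fin M → PZ (φ (FJA.gen N)) × Fin 2) →₀ ℚ) :
    Phi k φ η K Y κ = TX (SL φ η κ) K Y := by
  classical
  have hlin := t_TXlin k (FJA.Cyc N) (Fin 1) 2 K Y
  induction κ using Finsupp.induction_linear with
  | zero =>
    have h1 : (SL φ η (0 : (Fin M → PZ (φ (FJA.gen N)) × Fin 2) →₀ ℚ)) =
        fun ν => (0 : ℚ) * (fun _ : Rec (FJA.Cyc N) (Fin 2) => (0 : ℚ)) ν := by
      funext ν
      unfold SL
      rw [Finsupp.sum_zero_index, zero_mul]
    rw [map_zero, h1, hlin.2, Rat.cast_zero, zero_mul]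
  | add a b ha hb =>
    have h1 : SL φ η (a + b) = fun ν => SL φ η a ν + SL φ η b ν := by
      funext ν
      unfold SL
      rw [Finsupp.sum_add_index' (fun X => zero_mul _) (fun X q q' => add_mul q q' _)]
    rw [map_add, ha, hb, h1, hlin.1]
  | single X q =>
    have h1 : SL φ η (Finsupp.single X q) = fun ν => q * η (twX φ X ν) := by
      funext ν
      unfold SL
      rw [Finsupp.sum_single_index (zero_mul _)]
    rw [Phi_single, h1, hlin.2]

variable [NeZero N]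

theorem fin_val (φ : FJA.Cyc N →* G) (c : FJA.Cyc N) : IsOfFinOrder (ffC φ c) :=
  (ffC φ).isOfFinOrder (isOfFinOrder_of_finite c)

/-- The functional of `hhR` vanishes on the simplices all the labels of which are equal. -/
theorem Phi_const (hSLV : S_SLV) (hGHP : S_GHP) (k : Type) [Field k] [CharZero k]
    (φ : FJA.Cyc N →* G) {M : ℕ} (K : ℕ) (v : (MonoidAlgebra k (FJA.Cyc N))ˣ)
    (F : (Fin (M + 2) → G × Multiplicative ℤ) → G × Multiplicative ℤ → ℚ)
    (hF : ∀ (γ : G × Multiplicative ℤ) (a : Fin (M + 2) → G × Multiplicative ℤ)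
      (y : G × Multiplicative ℤ), F (fun i => γ * a i) (γ * y * γ⁻¹) = F a y)
    (h1 : ∀ a, F a 1 = 0) (s : List (G × Multiplicative ℤ) → G × Multiplicative ℤ →
      (G × Multiplicative ℤ →₀ ℚ)) (hs : Sec s)
    (X : Fin M → PZ (φ (FJA.gen N)) × Fin 2) (e : Fin 2) (hX : ∀ l, (X l).2 = e) :
    TX (fun ν => hhR (ffC φ) F s (twX φ X ν)) K ![1, sc v] = 0 := by
  have h0 : (fun ν : Rec (FJA.Cyc N) (Fin 2) => hhR (ffC φ) F s (twX φ X ν)) =
      fun ν => (fun ρ : Rec (FJA.Cyc N) (Fin 1) => hhR (ffC φ) F s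
        (twR (ffC φ) (fun l => emb (φ (FJA.gen N)) (X l).1) (Rec.res (fun _ => 0) ρ)))
          (Rec.res (fun _ => e) ν) := by
    funext ν
    change hhR (ffC φ) F s (twX φ X ν) = hhR (ffC φ) F s _
    congr 1
    apply Rec.ext
    · funext l
      rw [twX_lst, hX l]
      rfl
    · rfl
  rw [h0]
  refine hSLV k (FJA.Cyc N) e (fun ρ : Rec (FJA.Cyc N) (Fin 1) => hhR (ffC φ) F s
        (twR (ffC φ) (fun l => emb (φ (FJA.gen N)) (X l).1) (Rec.res (fun _ => 0) ρ))) ?_ ?_ K v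
  · intro c ρ
    change hhR (ffC φ) F s (twR (ffC φ) (fun l => emb (φ (FJA.gen N)) (X l).1)
        (Rec.res (fun _ => 0) (Rec.inc c * ρ))) =
      hhR (ffC φ) F s (twR (ffC φ) (fun l => emb (φ (FJA.gen N)) (X l).1)
        (Rec.res (fun _ => 0) (ρ * Rec.inc c)))
    refine hhR_conj hGHP (ffC φ) F hF s hs (ffC φ c) ?_ _ _ ?_ ?_ ?_
    · intro t
      rw [← map_mul, ← map_mul, mul_comm]
    · intro l
      change ((Rec.inc c * ρ).lst 0).map (fun x => emb (φ (FJA.gen N)) (X l).1 * ffC φ x) =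
        (((ρ * Rec.inc c).lst 0).map (fun x => emb (φ (FJA.gen N)) (X l).1 * ffC φ x)).map
          (ffC φ c * ·)
      rw [Rec.mul_lst, Rec.mul_lst, Rec.inc_lst, List.nil_append, List.map_nil,
        List.append_nil, List.map_map, List.map_map]
      congr 1
      funext x
      change emb (φ (FJA.gen N)) (X l).1 * ffC φ (c * x) =
        ffC φ c * (emb (φ (FJA.gen N)) (X l).1 * ffC φ x)
      rw [map_mul, ← mul_assoc, emb_comm, mul_assoc]
    · change ffC φ (c * ρ.val) = ffC φ c * ffC φ (ρ.val * c) * (ffC φ c)⁻¹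
      rw [← map_mul, ← map_inv, ← map_mul]
      congr 1
      rw [mul_comm ρ.val c, mul_inv_cancel_comm]
    · exact fin_val φ _
  · intro ρ hρ
    refine hhR_one hGHP (ffC φ) F h1 s _ ?_
    change ffC φ ρ.val = 1
    rw [hρ, map_one]

/-- The functional of `hhR` is invariant under left translations. -/
theorem Phi_inv (hGHP : S_GHP) (k : Type) [Field k] [CharZero k]
    (φ : FJA.Cyc N →* G) {M : ℕ} (K : ℕ)
    (Y : Fin 2 → (Matrix (Fin 1) (Fin 1) (MonoidAlgebra k (FJA.Cyc N)))ˣ)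
    (F : (Fin (M + 2) → G × Multiplicative ℤ) → G × Multiplicative ℤ → ℚ)
    (hF : ∀ (γ : G × Multiplicative ℤ) (a : Fin (M + 2) → G × Multiplicative ℤ)
      (y : G × Multiplicative ℤ), F (fun i => γ * a i) (γ * y * γ⁻¹) = F a y)
    (s : List (G × Multiplicative ℤ) → G × Multiplicative ℤ →
      (G × Multiplicative ℤ →₀ ℚ)) (hs : Sec s) (g : PZ (φ (FJA.gen N)))
    (X : Fin M → PZ (φ (FJA.gen N)) × Fin 2) :
    Phi k φ (hhR (ffC φ) F s) K Y (Finsupp.single (fun i => (g * (X i).1, (X i).2)) 1) =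
      Phi k φ (hhR (ffC φ) F s) K Y (Finsupp.single X 1) := by
  rw [Phi_single, Phi_single]
  congr 2
  funext ν
  refine hhR_conj hGHP (ffC φ) F hF s hs (emb (φ (FJA.gen N)) g) (emb_comm φ g) _ _ ?_ ?_
    (fin_val φ _)
  · intro l
    rw [twX_lst, twX_lst, List.map_map]
    congr 1
    funext x
    change emb (φ (FJA.gen N)) (g * (X l).1) * ffC φ x =
      emb (φ (FJA.gen N)) g * (emb (φ (FJA.gen N)) (X l).1 * ffC φ x)
    rw [map_mul, mul_assoc]
  · rw [twX_val, twX_val, emb_comm, mul_inv_cancel_right]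

/-- The functional of `hhR` vanishes on the chains `k1`. -/
theorem Phi_k1 (hSLV : S_SLV) (hGHP : S_GHP) (k : Type) [Field k] [CharZero k]
    (φ : FJA.Cyc N →* G) {m : ℕ} (K : ℕ) (v : (MonoidAlgebra k (FJA.Cyc N))ˣ)
    (F : (Fin (m + 4) → G × Multiplicative ℤ) → G × Multiplicative ℤ → ℚ)
    (hF : ∀ (γ : G × Multiplicative ℤ) (a : Fin (m + 4) → G × Multiplicative ℤ)
      (y : G × Multiplicative ℤ), F (fun i => γ * a i) (γ * y * γ⁻¹) = F a y)
    (h1 : ∀ a, F a 1 = 0) (s : List (G × Multiplicative ℤ) → G × Multiplicative ℤ →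
      (G × Multiplicative ℤ →₀ ℚ)) (hs : Sec s) (e : Fin 2)
    (w : (Fin (m + 1) → Cen (φ (FJA.gen N))) →₀ ℚ) :
    Phi k φ (hhR (M := m + 2) (ffC φ) F s) K ![1, sc v] (k1 m e w) = 0 := by
  classical
  induction w using Finsupp.induction_linear with
  | zero =>
    unfold k1
    rw [map_zero, map_zero, map_zero]
  | add a b ha hb =>
    have h2 : k1 m e (a + b) = k1 m e a + k1 m e b := by
      unfold k1
      rw [map_add, map_add]
    rw [h2, map_add, ha, hb, add_zero]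
  | single Z q =>
    have h2 : k1 m e (Finsupp.single Z q) = q • ∑ i : Fin (m + 1), Finsupp.single
        (mix id mt (fun l => (((Z l, 1), e) : PZ (φ (FJA.gen N)) × Fin 2)) i)
        ((-1 : ℚ) ^ (i : ℕ)) := by
      unfold k1 hmap
      rw [Finsupp.lmapDomain_apply, Finsupp.mapDomain_single]
      unfold prism
      rw [Finsupp.linearCombination_single]
    rw [h2, map_smul, map_sum, Finset.sum_eq_zero, smul_zero]
    intro i _
    rw [Phi_single, Phi_const hSLV hGHP k φ K v F hF h1 s hs _ e, mul_zero]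
    intro l
    exact SCH.mix_all id mt _ i l (fun x => x.2 = e) (fun _ => rfl) (fun _ => rfl)

end Slant

end SLE

open SLE in
theorem t_SLE : S_SLA → S_KBD → S_SLV → S_EHI → S_GHP → S_SLE := by
  classical
  intro hSLA hKBD hSLV hEHI hGHP k _ _ G _ N _ m K φ u w hw F hF h1 s hs hK
  rw [hSLA, hSLA, hSLA]
  set Y : Fin 2 → (Matrix (Fin 1) (Fin 1) (MonoidAlgebra k (FJA.Cyc N)))ˣ :=
    ![1, sc (uK k u)] with hY
  have hlin := t_TXlin k (FJA.Cyc N) (Fin 1) 2 K Y
  -- the term with the coboundary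
  have hcob : TX (SL φ (cobR (hhR (M := m + 2) (ffC φ) F s)) (k2 m w)) K Y = 0 := by
    have h2 : SL φ (cobR (hhR (M := m + 2) (ffC φ) F s)) (k2 m w) =
        SL φ (hhR (M := m + 2) (ffC φ) F s) (bd ℚ _ (m + 2) (k2 m w)) := by
      funext ν
      exact hKBD.1 G N (m + 2) 2 φ _ _ ν
    rw [h2, ← Phi_eq, hKBD.2 G (φ (FJA.gen N)) m w hw k
      (Phi k φ (hhR (M := m + 2) (ffC φ) F s) K Y)
      (fun g X => Phi_inv hGHP k φ K Y F hF.inv s hs g X)]
    rw [hY, Phi_k1 hSLV hGHP k φ K (uK k u) F hF.inv h1 s hs 0 w,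
      Phi_k1 hSLV hGHP k φ K (uK k u) F hF.inv h1 s hs 1 w, sub_zero]
  -- the term with the averages
  set ψ : Rec (FJA.Cyc N) (Fin 1) → ℚ := fun ρ =>
    (k2 m w).sum fun X q => q * AA (ffC φ) (M := m + 2) F
      (fun l => emb (φ (FJA.gen N)) (X l).1) (ffC φ ρ.val) with hψ
  have hA : TX (fun ν => ψ (Rec.res (fun _ => 0) ν)) K Y = 0 := by
    refine hSLV k (FJA.Cyc N) 0 ψ ?_ ?_ K (uK k u)
    · intro c ρ
      rw [hψ]
      change ((k2 m w).sum fun X q => q * AA (ffC φ) (M := m + 2) F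
          (fun l => emb (φ (FJA.gen N)) (X l).1) (ffC φ (c * ρ.val))) =
        (k2 m w).sum fun X q => q * AA (ffC φ) (M := m + 2) F
          (fun l => emb (φ (FJA.gen N)) (X l).1) (ffC φ (ρ.val * c))
      rw [mul_comm]
    · intro ρ hρ
      rw [hψ]
      change ((k2 m w).sum fun X q => q * AA (ffC φ) (M := m + 2) F
          (fun l => emb (φ (FJA.gen N)) (X l).1) (ffC φ ρ.val)) = 0
      rw [hρ, map_one]
      refine Finset.sum_eq_zero fun X _ => ?_
      change (k2 m w) X * AA (ffC φ) (M := m + 2) F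
          (fun l => emb (φ (FJA.gen N)) (X l).1) 1 = 0
      rw [AA_zero _ _ _ _ h1, mul_zero]
  -- the pointwise identity
  have hmain : TX (SL φ (SCH.eta F s) (k2 m w)) K Y =
      TX (fun ν => (ψ (Rec.res (fun _ => 0) ν) + SL φ (ghR (ffC φ) F s) (k2 m w) ν) +
        ((-1) * SL φ (ghR (ffC φ) F hdS) (k2 m w) ν +
          (-1) * SL φ (cobR (hhR (M := m + 2) (ffC φ) F s)) (k2 m w) ν)) K Y := by
    refine t_TXlen k (FJA.Cyc N) (Fin 1) 2 K _ _ Y fun ν hν => ?_
    have hne : ∀ i, ν.lst i ≠ [] := by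
      intro i h0
      have := hν i
      rw [h0] at this
      simp only [List.length_nil] at this
      omega
    unfold SL
    rw [hψ]
    simp only [Finsupp.sum]
    rw [Finset.mul_sum, Finset.mul_sum, ← Finset.sum_add_distrib, ← Finset.sum_add_distrib,
      ← Finset.sum_add_distrib]
    refine Finset.sum_congr rfl fun X _ => ?_
    rw [pt hEHI hGHP (ffC φ) (sg2 G) (M := m + 2) F hF s hs
      (fun l => emb (φ (FJA.gen N)) (X l).1) (fun l t => emb_comm φ _ t) (twX φ X ν) ?_ ?_ ?_ ?_]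
    · rw [twX_val, Rec.res_val]
      ring
    · intro i
      rw [twX_lst, ne_eq, List.map_eq_nil_iff]
      exact hne _
    · exact fin_val φ _
    · intro l a ha
      rw [twX_lst, List.mem_map] at ha
      obtain ⟨x, _, hx⟩ := ha
      exact ⟨x, hx.symm⟩
    · exact ⟨ν.val, rfl⟩
  rw [hmain, hlin.1, hlin.1, hlin.1, hlin.2, hlin.2, hA, hcob]
  push_cast
  ring

end Pool.Agent.FJB
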