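import Pool.Agent.AUK.FJA.P_TXR
import Pool.Agent.AUK.FJB.St

/-!
# Module FJB_SLV (helper28): functions of one label vanish on the simplex `1, v`
-/

set_option autoImplicit false

open Matrix Pool.Agent.WhK Pool.Agent.Lib25 CategoryTheory Pool.Agent.FJA

noncomputable section

namespace Pool.Agent.FJB

namespace SLV

/-- the recorded paths with the endpoint `1` -/
def endOne (C : Type) [Group C] (V : Type) : Submonoid (Rec C V) where
  carrier := {μ | μ.val = 1}
  one_mem' := rfl
  mul_mem' := by
    intro a b ha hb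
    change a.val * b.val = 1
    rw [show a.val = 1 from ha, show b.val = 1 from hb, mul_one]

theorem coeff_one {k C : Type} [Field k] [Group C] {a b : Fin 1} {γ : C}
    (h : ((1 : Matrix (Fin 1) (Fin 1) (MonoidAlgebra k C)) a b).coeff γ ≠ 0) : γ = 1 := by
  classical
  by_contra hγ
  apply h
  have hab : a = b := Subsingleton.elim a b
  subst hab
  rw [Matrix.one_apply_eq, MonoidAlgebra.one_def, MonoidAlgebra.coeff_single,
    Finsupp.single_apply, if_neg (Ne.symm hγ)]

end SLV

theorem t_SLV : S_SLV := by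
  intro k _ _ C _ e ψ hcj hval N v
  have hf : StrictMono (fun _ : Fin 1 => e) := by
    intro a b hab
    exact absurd hab (by rw [Subsingleton.elim a b]; exact lt_irrefl _)
  rw [t_TXR k C (Fin 1) 2 1 N (fun _ => e) hf ψ ![1, sc v]]
  have h1 := t_TXinv k C (Fin 1) 1 N ψ hcj (![1, sc v] e) (fun _ => 1)
  have h2 : (fun t : Fin 1 => (![1, sc v] : Fin 2 → (Matrix (Fin 1) (Fin 1) (MonoidAlgebra k C))ˣ)
      ((fun _ : Fin 1 => e) t)) = fun _ => ![1, sc v] e * 1 := by
    funext t
    rw [mul_one]
  rw [h2, h1]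
  refine t_TXsup k C (Fin 1) 1 N ψ (fun _ => 1) (SLV.endOne C (Fin 1)) (fun _ => rfl) ?_ ?_
    (fun μ hμ => hval μ hμ)
  · intro _ a b γ h
    exact SLV.coeff_one h
  · intro _ a b γ h
    rw [inv_one] at h
    exact SLV.coeff_one h

end Pool.Agent.FJB
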