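import Pool.Agent.AUK.FJA.P_KCB
import Pool.Agent.AUK.FJB.St

/-!
# T0E: the part with coefficients `K_0`, with a term with coefficients `K_1`
-/

set_option autoImplicit false

open Matrix Pool.Agent.WhK Pool.Agent.Lib25 CategoryTheory Pool.Agent.FJA

noncomputable section

namespace Pool.Agent.FJB

theorem T0E.mem_cyc {m : ℕ} {G : Type} [Group G] (s : Sy1 m G) :
    s.w ∈ cyc ℚ (Cen (s.φ (gen s.N))) m := by
  cases m with
  | zero => exact Submodule.mem_top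
  | succ m => exact psi_ch_mem m s.z

open T0M in
theorem t_T0E (hbre : S_BRE) (ht0f : S_T0F) (hvsu : S_VSU) : S_T0E := by
  intro ε v K hε G _ m A1 hA1 J s q N p φ c hN hp hd hφ x y hrel F hinv hcoc hflat
  choose z hz using fun j => exists_cl (k := ℚ) (c j)
  obtain ⟨D, rfl⟩ := hvsu m G y
  have hrel' : tau (m + 1) G (cl ℚ (m + 1 + 1) _ x) +
      ∑ j ∈ s, q j • KB.mk (m + 1) (MonoidAlgebra ℤ G)
      (ε (N j) (p j)).n (HQ.map (m + 1 + 1) (rhoC (ε (N j) (p j)) (φ j))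
        (cl ℚ (m + 1 + 1) _ (z j))) + A1 (val1 m G D) = 0 := by
    simp only [hz]
    exact hrel
  have h1 := hbre ε G m A1 hA1 J s q N p φ hN hp hd hφ z x D hrel'
  obtain ⟨y, ⟨b, rfl⟩, κ, hκ, hsum⟩ := Submodule.mem_sup.1 h1
  have hnull : NullFun (sg2 G) (fst (Ff F)) := null (sg2 G) F hinv hflat
  -- the terms of the data vanish
  have h2 : TS ℚ (fst (Ff F)) 1 ((mkDat J s q N p φ hN hp hd hφ z).ch
      (fun j => ε (N j) (p j))) = 0 := by
    unfold Dat.ch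
    rw [map_sum]
    apply Finset.sum_eq_zero
    intro j _
    rw [map_smul]
    have h3 : TS ℚ (fst (Ff F)) 1 (kinS (LaurentPolynomial (MonoidAlgebra ℤ G)) (m + 3)
        (ε (N j) (p j)).n (hmap ℚ (fun z => rhoC (ε (N j) (p j)) (φ j) z) (m + 3)
          (psi ℚ (m + 1 + 1) _ (ch ℚ (m + 1 + 1) _ (z j))))) = 0 := by
      rw [(t_KCB ℚ G (m + 3)).2.2.2.2]
      have : NeZero (N j) := ⟨(hN j).ne'⟩
      have : Fact (p j).Prime := ⟨hp j⟩
      obtain ⟨d, X, hX, -⟩ := hε.loc (N j) (p j) (hd j)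
      have h4 := (t_FVX t_LAU ℚ G (N j) (ε (N j) (p j)) (φ j) d X hX).1
      have h5 := t_HTP ℚ (Cyc (N j)) G (Cen (φ j (gen (N j)))) (φ j)
        (Cen (φ j (gen (N j)))).subtype (ε (N j) (p j)).n d X (m + 1)
        (psi ℚ (m + 1 + 1) _ (ch ℚ (m + 1 + 1) _ (z j))) (psi_ch_mem (m + 1) (z j))
        (fst (Ff F)) 1 hnull
      rw [TF_bd F hcoc] at h5
      have h6 : (fV ℚ (ε (N j) (p j)) (φ j)) = fun z : Cen (φ j (gen (N j))) =>
          (XG (φ j) X)⁻¹ * dgU ℚ d ((Cen (φ j (gen (N j)))).subtype z) * XG (φ j) X :=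
        funext h4
      rw [h6]
      exact neg_eq_zero.1 h5.symm
    exact (congrArg (q j • ·) h3).trans (smul_zero _)
  -- the terms with coefficients `K_1` vanish
  have h3 : TS ℚ (fst (Ff F)) 1 (chn1 m G D) = 0 := by
    have h4 : chn1 m G D = ∑ s ∈ D.support, D s • s.chn := rfl
    rw [h4, map_sum]
    refine Finset.sum_eq_zero fun s _ => ?_
    rw [map_smul]
    have h5 : TS ℚ (fst (Ff F)) 1 s.chn = 0 :=
      ht0f G s.N m s.φ s.u s.w (T0E.mem_cyc s) F hinv hcoc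
    rw [h5, smul_zero]
  have h7 := congrArg (TS ℚ (fst (Ff F)) 1) hsum
  rw [map_add, map_add, map_add, TS_bd F hcoc, t_KIL t_LAU ℚ G (m + 3) 1 _ hnull κ hκ, h2, h3,
    TS_kinS] at h7
  rw [add_zero, add_zero, add_zero] at h7
  exact h7.symm

end Pool.Agent.FJB
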