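import Pool.Agent.AUK.FJB.St

/-!
# T1C: properties of the correction term
-/

set_option autoImplicit false

open Matrix Pool.Agent.WhK Pool.Agent.Lib25 CategoryTheory Pool.Agent.FJA

noncomputable section

namespace Pool.Agent.FJB

namespace T1C

/-- The cup product is additive. -/
theorem cup_add {G : Type} [Group G] {m : ℕ} (F F' : (Fin (m + 1) → G) → G → ℚ) :
    cup (fun a y => F a y + F' a y) = fun a y => cup F a y + cup F' a y := by
  funext a y
  unfold cup
  split_ifs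
  · ring
  · ring

/-- The cup product is homogeneous. -/
theorem cup_smul {G : Type} [Group G] {m : ℕ} (r : ℚ) (F : (Fin (m + 1) → G) → G → ℚ) :
    cup (fun a y => r * F a y) = fun a y => r * cup F a y := by
  funext a y
  unfold cup
  split_ifs
  · ring
  · ring

/-- The function `ghR` is additive. -/
theorem ghR_add (hG : S_GHP) {Γ C : Type} [Group Γ] [Group C] [Fintype C] (f : C →* Γ) {M : ℕ}
    (F F' : (Fin (M + 1) → Γ) → Γ → ℚ) (s : List Γ → Γ → (Γ →₀ ℚ)) (μ : Rec Γ (Fin M)) :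
    ghR f (fun a y => F a y + F' a y) s μ = ghR f F s μ + ghR f F' s μ := by
  obtain ⟨-, -, -, -, -, -, hg, -⟩ := hG Γ C f
  unfold ghR
  split_ifs
  · exact hg M F F' _ _
  · ring

/-- The function `ghR` is homogeneous. -/
theorem ghR_smul (hG : S_GHP) {Γ C : Type} [Group Γ] [Group C] [Fintype C] (f : C →* Γ) {M : ℕ}
    (r : ℚ) (F : (Fin (M + 1) → Γ) → Γ → ℚ) (s : List Γ → Γ → (Γ →₀ ℚ)) (μ : Rec Γ (Fin M)) :
    ghR f (fun a y => r * F a y) s μ = r * ghR f F s μ := by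
  obtain ⟨-, -, -, -, -, -, -, hh⟩ := hG Γ C f
  unfold ghR
  split_ifs
  · exact hh M r F _ _
  · ring

/-- The slant product is additive in the function. -/
theorem SL_add {G : Type} [Group G] {N M r : ℕ} (φ : Cyc N →* G)
    (η η' : Rec (G × Multiplicative ℤ) (Fin M) → ℚ)
    (κ : (Fin M → PZ (φ (gen N)) × Fin r) →₀ ℚ) (ν : Rec (Cyc N) (Fin r)) :
    SL φ (fun μ => η μ + η' μ) κ ν = SL φ η κ ν + SL φ η' κ ν := by
  unfold SL
  rw [← Finsupp.sum_add]
  exact Finsupp.sum_congr fun X _ => mul_add _ _ _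

/-- The slant product is homogeneous in the function. -/
theorem SL_smul {G : Type} [Group G] {N M r : ℕ} (φ : Cyc N →* G) (c : ℚ)
    (η : Rec (G × Multiplicative ℤ) (Fin M) → ℚ)
    (κ : (Fin M → PZ (φ (gen N)) × Fin r) →₀ ℚ) (ν : Rec (Cyc N) (Fin r)) :
    SL φ (fun μ => c * η μ) κ ν = c * SL φ η κ ν := by
  unfold SL
  rw [Finsupp.mul_sum]
  exact Finsupp.sum_congr fun X _ => by ring

variable {m : ℕ} {G : Type} [Group G]

/-- The correction term as a slant product. -/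
theorem T1_eq (hS : S_SLA) (k : Type) [Field k] [CharZero k] (s : Sy1 m G)
    (F : (Fin (m + 3) → G) → G → ℚ) :
    T1 k s F = TX (SL s.φ (ghR (ffC s.φ) (cup F) hdS) (k2 m s.w)) 1 ![1, sc (uK k s.u)] :=
  hS k G s.N m 1 s.φ s.u s.w (ghR (ffC s.φ) (cup F) hdS)

theorem T1_add (hS : S_SLA) (hG : S_GHP) (k : Type) [Field k] [CharZero k] (s : Sy1 m G)
    (F F' : (Fin (m + 3) → G) → G → ℚ) :
    T1 k s (fun a y => F a y + F' a y) = T1 k s F + T1 k s F' := by
  rw [T1_eq hS, T1_eq hS, T1_eq hS, ← (t_TXlin k (Cyc s.N) (Fin 1) 2 1 _).1]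
  congr 1
  funext ν
  rw [← SL_add]
  congr 1
  funext μ
  rw [cup_add, ghR_add hG]

theorem T1_smul (hS : S_SLA) (hG : S_GHP) (k : Type) [Field k] [CharZero k] (s : Sy1 m G)
    (r : ℚ) (F : (Fin (m + 3) → G) → G → ℚ) :
    T1 k s (fun a y => r * F a y) = (r : k) * T1 k s F := by
  rw [T1_eq hS, T1_eq hS, ← (t_TXlin k (Cyc s.N) (Fin 1) 2 1 _).2]
  congr 1
  funext ν
  rw [← SL_smul]
  congr 1
  funext μ
  rw [cup_smul, ghR_smul hG]

/-- The function `ghR` only depends on the values at the endpoint. -/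
theorem ghR_congr {Γ C : Type} [Group Γ] [Group C] [Fintype C] (f : C →* Γ) {M : ℕ}
    (F F' : (Fin (M + 1) → Γ) → Γ → ℚ) (s : List Γ → Γ → (Γ →₀ ℚ)) (μ : Rec Γ (Fin M))
    (h : ∀ a, F a μ.val = F' a μ.val) : ghR f F s μ = ghR f F' s μ := by
  have h' : (fun a => F a μ.val) = fun a => F' a μ.val := funext h
  unfold ghR gh
  rw [h']

theorem T1_congr (hS : S_SLA) (k : Type) [Field k] [CharZero k] (s : Sy1 m G)
    (F F' : (Fin (m + 3) → G) → G → ℚ)
    (h : ∀ (c : Cyc s.N) (a : Fin (m + 3) → G), F a (s.φ c) = F' a (s.φ c)) :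
    T1 k s F = T1 k s F' := by
  rw [T1_eq hS, T1_eq hS]
  congr 1
  funext ν
  unfold SL
  refine Finsupp.sum_congr fun X _ => ?_
  congr 1
  refine ghR_congr _ _ _ _ _ fun a => ?_
  have hv : (twX s.φ X ν).val = (s.φ ν.val, 1) := rfl
  rw [hv]
  unfold cup
  dsimp only
  rw [h]

/-- The image over `k` of the simplex `1, u`. -/
theorem map_vec (p : ℕ) [Fact p.Prime] {C : Type} [Group C] (u : (MonoidAlgebra ℤ C)ˣ) :
    (fun i => Units.map ((MonoidAlgebra.mapRingHom C (algebraMap ℚ ℚ_[p])).mapMatrix :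
      Matrix (Fin 1) (Fin 1) (MonoidAlgebra ℚ C) →+*
        Matrix (Fin 1) (Fin 1) (MonoidAlgebra ℚ_[p] C)).toMonoidHom
          ((![1, sc (uK ℚ u)] : Fin 2 → (Matrix (Fin 1) (Fin 1) (MonoidAlgebra ℚ C))ˣ) i)) =
      ![1, sc (uK ℚ_[p] u)] := by
  funext i
  fin_cases i
  · exact map_one _
  · apply Units.ext
    refine Matrix.ext fun a b => ?_
    have hab : a = b := Subsingleton.elim _ _
    subst hab
    have h1 : (MonoidAlgebra.mapRingHom C (algebraMap ℚ ℚ_[p])).comp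
        (MonoidAlgebra.mapRingHom C (Int.castRingHom ℚ)) =
        MonoidAlgebra.mapRingHom C (Int.castRingHom ℚ_[p]) := by
      rw [← MonoidAlgebra.mapRingHom_comp]
      congr 1
    have h2 := RingHom.congr_fun h1 (u : MonoidAlgebra ℤ C)
    change MonoidAlgebra.mapRingHom C (algebraMap ℚ ℚ_[p])
        (Matrix.scalar (Fin 1) (uK ℚ u : MonoidAlgebra ℚ C) a a) =
      Matrix.scalar (Fin 1) (uK ℚ_[p] u : MonoidAlgebra ℚ_[p] C) a a
    rw [Matrix.scalar_apply, Matrix.scalar_apply, Matrix.diagonal_apply_eq,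
      Matrix.diagonal_apply_eq]
    exact h2

theorem T1_map (hS : S_SLA) (p : ℕ) [Fact p.Prime] (s : Sy1 m G)
    (F : (Fin (m + 3) → G) → G → ℚ) :
    ((T1 ℚ s F : ℚ) : ℚ_[p]) = T1 ℚ_[p] s F := by
  rw [T1_eq hS, T1_eq hS, ← map_vec p s.u, t_TXmap]
  rfl

end T1C

open T1C in
theorem t_T1C (hS : S_SLA) (hG : S_GHP) : S_T1C := by
  intro m G _ D
  refine ⟨fun k _ _ => ⟨fun F F' => ?_, fun r F => ?_, fun F F' h => ?_⟩, fun p _ F => ?_⟩
  · unfold T1S
    rw [← Finset.sum_add_distrib]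
    refine Finset.sum_congr rfl fun s _ => ?_
    rw [T1_add hS hG, mul_add]
  · unfold T1S
    rw [Finset.mul_sum]
    refine Finset.sum_congr rfl fun s _ => ?_
    rw [T1_smul hS hG]
    ring
  · unfold T1S
    refine Finset.sum_congr rfl fun s hs => ?_
    rw [T1_congr hS k s F F' (h s hs)]
  · unfold T1S
    rw [Rat.cast_sum]
    refine Finset.sum_congr rfl fun s _ => ?_
    rw [Rat.cast_mul, Rat.cast_id, T1_map hS]

end Pool.Agent.FJB
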