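import Pool.Agent.AUK.FJB.St

/-!
# FJB, module TXM: merging of labels along a monotone map
-/

set_option autoImplicit false

open Matrix Pool.Agent.WhK Pool.Agent.Lib25 CategoryTheory Pool.Agent.FJA

noncomputable section

namespace Pool.Agent.FJB

universe u v w x

namespace TXM

/-- the concatenation of the fibres of a monotone map -/
theorem flat {M M' : ℕ} (f : Fin M → Fin M') (hf : Monotone f) :
    (List.finRange M').flatMap (fun e => (List.finRange M).filter (fun t => f t = e)) =
      List.finRange M := by
  have h1 : ((List.finRange M').flatMap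
      (fun e => (List.finRange M).filter (fun t => f t = e))).Pairwise (· < ·) := by
    rw [List.pairwise_flatMap]
    refine ⟨fun e _ => (List.pairwise_lt_finRange M).filter _, ?_⟩
    refine (List.pairwise_lt_finRange M').imp fun {a b} hab x hx y hy => ?_
    rw [List.mem_filter] at hx hy
    have hx' : f x = a := by simpa using hx.2
    have hy' : f y = b := by simpa using hy.2
    by_contra hc
    have := hf (not_lt.1 hc)
    rw [hx', hy'] at this
    exact absurd hab (not_lt.2 this)
  refine List.SortedLT.eq_of_mem_iff h1.sortedLT (List.pairwise_lt_finRange M).sortedLT fun t => ?_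
  simp only [List.mem_flatMap, List.mem_filter, List.mem_finRange, true_and, iff_true]
  exact ⟨f t, by simp⟩

/-- the product of several records of the present position -/
theorem om_prod {Γ : Type u} [Group Γ] {V : Type v} [DecidableEq V] (l : List V) (hl : l.Nodup) :
    ((l.map (Rec.om (Γ := Γ))).prod : Rec Γ V) = ⟨fun t => if t ∈ l then [1] else [], 1⟩ := by
  induction l with
  | nil =>
    simp only [List.map_nil, List.prod_nil, List.not_mem_nil, if_false]
    rfl
  | cons a l ih =>
    rw [List.map_cons, List.prod_cons, ih (List.nodup_cons.1 hl).2]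
    have ha := (List.nodup_cons.1 hl).1
    apply Rec.ext
    · funext t
      simp only [Rec.mul_lst, Rec.om_lst, Rec.om_val, List.mem_cons]
      by_cases h1 : t = a
      · subst h1
        simp [ha]
      · by_cases h2 : t ∈ l
        · simp [h1, h2]
        · simp [h1, h2]
    · simp

section

variable {k : Type w} [Field k] {Γ : Type u} [Group Γ] {ι : Type x} [Fintype ι] [DecidableEq ι]

/-- the product of several scalar matrices of records -/
theorem wm_prod {V : Type v} [DecidableEq V] (l : List V) :
    ((l.map (wm k ι)).prod : Matrix ι ι (MonoidAlgebra k (Rec Γ V))) =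
      Matrix.diagonal fun _ => MonoidAlgebra.single ((l.map (Rec.om (Γ := Γ))).prod) 1 := by
  induction l with
  | nil => rfl
  | cons a l ih =>
    rw [List.map_cons, List.prod_cons, ih, List.map_cons, List.prod_cons, wm,
      Matrix.diagonal_mul_diagonal]
    congr 1
    funext _
    rw [MonoidAlgebra.single_mul_single, mul_one]

/-- the simplex with repeated vertices -/
theorem UX_comp {M M' : ℕ} (f : Fin M → Fin M') (hf : Monotone f)
    (X : Fin M' → (Matrix ι ι (MonoidAlgebra k Γ))ˣ) :
    UX (fun t => X (f t)) = (List.ofFn fun e => jm k (Fin M) (X e : Matrix ι ι (MonoidAlgebra k Γ)) *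
      Matrix.diagonal (fun _ => MonoidAlgebra.single (Rec.res f (Rec.om (Γ := Γ) e)) 1) *
      jm k (Fin M) ((X e)⁻¹ : (Matrix ι ι (MonoidAlgebra k Γ))ˣ)).prod := by
  unfold UX
  rw [List.ofFn_eq_map, List.ofFn_eq_map]
  conv_lhs => rw [← flat f hf]
  rw [List.map_flatMap, List.flatMap_def, List.prod_flatten, List.map_map]
  congr 1
  refine List.map_congr_left fun e _ => ?_
  have h1 : ((List.finRange M).filter (fun t => f t = e)).map (fun i =>
      jm k (Fin M) (X (f i) : Matrix ι ι (MonoidAlgebra k Γ)) * wm k ι i *
      jm k (Fin M) ((X (f i))⁻¹ : (Matrix ι ι (MonoidAlgebra k Γ))ˣ)) =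
    (((List.finRange M).filter (fun t => f t = e)).map (wm k ι)).map fun t =>
      jm k (Fin M) (X e : Matrix ι ι (MonoidAlgebra k Γ)) * t *
      jm k (Fin M) ((X e)⁻¹ : (Matrix ι ι (MonoidAlgebra k Γ))ˣ) := by
    rw [List.map_map]
    refine List.map_congr_left fun t ht => ?_
    rw [List.mem_filter] at ht
    have ht' : f t = e := by simpa using ht.2
    rw [ht']
    rfl
  rw [Function.comp_apply, h1, TXA.prod_conj _ _ (by rw [← map_mul, Units.mul_inv, map_one])
    (by rw [← map_mul, Units.inv_mul, map_one]), wm_prod,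
    om_prod _ ((List.nodup_finRange M).filter _)]
  congr 5
  funext _
  congr 1
  apply Rec.ext
  · funext t
    simp only [Rec.res_lst, Rec.om_lst, List.mem_filter, List.mem_finRange, true_and,
      decide_eq_true_eq]
  · rfl

end

end TXM

open TXM

/-- TXM: merging of labels along a monotone map. -/
theorem t_TXM : S_TXM := by
  intro k _ _ Γ _ ι _ _ M M' N f hf φ X
  unfold TX
  rw [TXA.lin_comp]
  set θ : Rec Γ (Fin M') →* Rec Γ (Fin M) := Rec.res f with hθ
  set Θ : Matrix ι ι (MonoidAlgebra k (Rec Γ (Fin M'))) →+*
    Matrix ι ι (MonoidAlgebra k (Rec Γ (Fin M))) :=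
      (MonoidAlgebra.mapDomainRingHom k θ).mapMatrix with hΘ
  have htr : ∀ Z : Matrix ι ι (MonoidAlgebra k (Rec Γ (Fin M'))),
      MonoidAlgebra.mapDomain θ (Matrix.trace Z) = Matrix.trace (Θ Z) := by
    intro Z
    change MonoidAlgebra.mapDomainRingHom k θ (Matrix.trace Z) = _
    simp only [Matrix.trace, Matrix.diag_apply, map_sum]
    rfl
  have hJ : ∀ A : Matrix ι ι (MonoidAlgebra k Γ), Θ (jm k (Fin M') A) = jm k (Fin M) A := by
    intro A
    ext1 a b
    change MonoidAlgebra.mapDomainRingHom k θ (MonoidAlgebra.mapDomainRingHom k Rec.inc (A a b)) =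
      MonoidAlgebra.mapDomainRingHom k Rec.inc (A a b)
    rw [← RingHom.comp_apply, ← MonoidAlgebra.mapDomainRingHom_comp]
    rfl
  have hw : ∀ v : Fin M', Θ (wm k ι v) =
      Matrix.diagonal fun _ => MonoidAlgebra.single (θ (Rec.om v)) 1 := by
    intro v
    rw [hΘ, RingHom.mapMatrix_apply, wm, Matrix.diagonal_map (map_zero _)]
    congr 1
    funext _
    exact MonoidAlgebra.mapDomain_single
  have hU : Θ (UX X) = UX (fun t => X (f t)) := by
    rw [UX_comp f hf X]
    unfold UX
    rw [map_list_prod, List.map_ofFn]
    congr 2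
    funext e
    simp only [Function.comp_apply, map_mul, hJ, hw]
    rfl
  have h2 := htr (UX X ^ N)
  rw [map_pow, hU] at h2
  rw [h2]

end Pool.Agent.FJB
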