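import Pool.Agent.AUK.FJA.CoreAll4
import Pool.Agent.AUK.FJA.P_EXT
import Pool.Agent.AUK.FJA.P_FAV
import Pool.Agent.AUK.FJA.P_FLC
import Pool.Agent.AUK.FJA.P_KER
import Pool.Agent.AUK.FJA.P_NRM
import Pool.Agent.AUK.FJA.P_PLA
import Pool.Agent.AUK.FJA.P_PLB
import Pool.Agent.AUK.FJA.P_PLC
import Pool.Agent.AUK.FJA.P_TPA
import Pool.Agent.AUK.FJA.P_TPD
import Pool.Agent.AUK.FJA.P_TTH
import Pool.Agent.AUK.FJB.FinC
import Pool.Agent.AUK.FJB.P_ADE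
import Pool.Agent.AUK.FJB.P_BRE
import Pool.Agent.AUK.FJB.P_CUE
import Pool.Agent.AUK.FJB.P_DNF
import Pool.Agent.AUK.FJB.P_DUA
import Pool.Agent.AUK.FJB.P_EGG
import Pool.Agent.AUK.FJB.P_EHI
import Pool.Agent.AUK.FJB.P_GHP
import Pool.Agent.AUK.FJB.P_GHT
import Pool.Agent.AUK.FJB.P_GSE
import Pool.Agent.AUK.FJB.P_KBD
import Pool.Agent.AUK.FJB.P_LSF
import Pool.Agent.AUK.FJB.P_LVE
import Pool.Agent.AUK.FJB.P_PDL
import Pool.Agent.AUK.FJB.P_PDN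
import Pool.Agent.AUK.FJB.P_PTC
import Pool.Agent.AUK.FJB.P_RGE
import Pool.Agent.AUK.FJB.P_RLE
import Pool.Agent.AUK.FJB.P_RPE
import Pool.Agent.AUK.FJB.P_SCE
import Pool.Agent.AUK.FJB.P_SLA
import Pool.Agent.AUK.FJB.P_SLE
import Pool.Agent.AUK.FJB.P_SLV
import Pool.Agent.AUK.FJB.P_T0E
import Pool.Agent.AUK.FJB.P_T0F
import Pool.Agent.AUK.FJB.P_T1C
import Pool.Agent.AUK.FJB.P_TXM
import Pool.Agent.AUK.FJB.P_VSU

/-!
# The final theorem in kernel form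
-/

set_option autoImplicit false

open Pool.Agent.FJA

namespace Pool.Agent.FJB

/-- The `ℓ`-adic theorem with symbols. -/
theorem h_PdgE (G : Type) [Group G] (m : ℕ)
    (h : (∀ p : ℕ, p.Prime → TorP G p) ∨ m ≤ 1) : PdgE G m := by
  have hSLA : S_SLA := t_SLA t_TXM
  have hSLE : S_SLE := t_SLE hSLA t_KBD t_SLV t_EHI t_GHP
  have hLVE : S_LVE := t_LVE hSLE t_LSF t_SCE
  have hGSE : S_GSE := t_GSE hSLA
  have hGHT : S_GHT := t_GHT t_GHP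
  have hEGL : S_EGL := t_EGL hGSE hGHT t_PTC
  have hEGH : S_EGH := t_EGG hGSE hGHT t_PTC t_GHP
  rcases h with h | h
  · exact t_PDN hLVE t_LSF hEGH G h m
  · rcases m with _ | _ | m
    · exact t_PDL hLVE t_LSF hEGH hEGL 0 (t_CUE 2 (by norm_num) t_DNE) G
    · exact t_PDL hLVE t_LSF hEGH hEGL 1 (t_CUE 3 (by norm_num) t_DNF) G
    · exact absurd h (by omega)

/-- The final theorem. -/
theorem s_all8 : S_ALL8 (fun G _ => ∀ p : ℕ, p.Prime → TorP G p) := by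
  have hSLA : S_SLA := t_SLA t_TXM
  have hT1C : S_T1C := t_T1C hSLA t_GHP
  have hRLE : S_RLE := t_RLE (t_RPE hT1C) (t_RGE hT1C) hT1C
  have hADE : S_ADE := t_ADE t_BRE t_VSU hRLE
  have hT0E : S_T0E := t_T0E t_BRE (t_T0F hSLA) t_VSU
  have hT0M : S_T0M := t_T0M t_BRG t_KCB
  have hLAU := t_LAU
  obtain ⟨ε, v, K, hND⟩ := t_NDC (t_NDA hLAU) t_NDB
  have hFCA := t_FCA t_FAM t_FCW
  have hCRS := t_CRS t_PRI t_BD
  have hCRA := t_CRA t_TPR hCRS t_BD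
  have hAS1 := t_AS1 hCRS hCRA t_PRI t_BD
  have hBRF := t_BRF hCRS
  have hPLB := t_PLB t_PLA
  have hPLC := t_PLC hPLB t_PLA
  have hNRM := t_NRM hPLB hPLC t_PLA
  have hKER := t_KER hPLC hNRM
  have hTTH := t_TTH hKER hPLC t_EXT
  have hUCZ := t_UCZ t_UCT
  have hFAV := t_FAV hFCA hUCZ
  have hTPB := t_TPB hFAV
  have hTPD := t_TPD hTPB hPLC
  have hCKX := t_CKX t_PRI t_BD h_EWN t_EPN h_LIN t_MRN t_PNT h_AVS t_RSN
  exact (t_ALL8 _ t_PRI t_BD (t_FLC t_BD) ε (fnp_of_adb h_ADB ε v K hND) (hT0M ε v K hND)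
    hADE hT0E hCKX hBRF hPLB t_REP hTTH t_TPA hTPD hAS1 v K hND
    (fun G _ => h_PDG 0 (Nat.zero_le 2) G)
    (fun G _ m h => h_PdgE G m h)
    (fun G _ m hm p hp => hm.elim (fun h => lmh_tor h_LMQ G p m (h p hp.out))
      (fun h => lmh_low h_LMN G p m (by omega))))

/-- The final theorem in kernel form. -/
theorem s_all9 : S_ALL9 := t_ALL9 s_all8

/-- The final theorem in dual form. -/
theorem s_dual : Dl.Main := t_DUA s_all8

end Pool.Agent.FJB
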